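import Pool.Agent.Lib.Pe46137.Nice

/-!
The analytic core of the lower bound: many almost disjoint paths force many states.
-/

namespace Pool.Agent.Lib.Pe46137

open Finset

/-- adjacent states share a value, the source has all values `1`, the sink has all values `0`:
the total variation over all states is at least `1` -/
theorem interval_cover {W ι : Type*} [Fintype W] [Finite ι] [Nonempty ι] (a : W → ι → ℝ)
    (L : W → W → Prop) (hL : ∀ v w, L v w → ∃ i, a v i = a w i) {s t : W}
    (hst : Relation.EqvGen L s t) (hs : ∀ i, a s i = 1) (ht : ∀ i, a t i = 0) :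
    ∃ hi lo : W → ι, 1 ≤ ∑ v, (a v (hi v) - a v (lo v)) := by
  choose hi hhi using fun v => Finite.exists_max (a v)
  choose lo hlo using fun v => Finite.exists_min (a v)
  refine ⟨hi, lo, ?_⟩
  have hcov : Set.Ioo (0 : ℝ) 1 ⊆ ⋃ v, Set.Icc (a v (lo v)) (a v (hi v)) := by
    intro z hz
    by_contra hc
    simp only [Set.mem_iUnion, Set.mem_Icc, not_exists, not_and, not_le] at hc
    have step : ∀ v w, L v w → (z < a v (lo v) ↔ z < a w (lo w)) := by
      intro v w hvw
      obtain ⟨i, hi'⟩ := hL v w hvw
      constructor
      · intro h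
        by_contra h'
        push Not at h'
        have h1 := hc w h'
        have h2 := hlo v i
        have h3 := hhi w i
        linarith
      · intro h
        by_contra h'
        push Not at h'
        have h1 := hc v h'
        have h2 := hlo w i
        have h3 := hhi v i
        linarith
    have key : ∀ x y, Relation.EqvGen L x y → (z < a x (lo x) ↔ z < a y (lo y)) := by
      intro x y h
      induction h with
      | rel x y h => exact step x y h
      | refl x => exact Iff.rfl
      | symm x y h ih => exact ih.symm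
      | trans x y w _ _ ih1 ih2 => exact ih1.trans ih2
    have key' := key s t hst
    rw [hs, ht] at key'
    exact absurd hz.1 (not_lt.mpr (key'.mp hz.2).le)
  have h1 : MeasureTheory.volume (Set.Ioo (0 : ℝ) 1) ≤
      ∑ v, MeasureTheory.volume (Set.Icc (a v (lo v)) (a v (hi v))) :=
    le_trans (MeasureTheory.measure_mono hcov) (MeasureTheory.measure_iUnion_fintype_le _ _)
  simp only [Real.volume_Ioo, Real.volume_Icc, sub_zero] at h1
  rw [← ENNReal.ofReal_sum_of_nonneg (fun v _ => by have := hlo v (hi v); linarith)] at h1
  rwa [ENNReal.ofReal_le_ofReal_iff (sum_nonneg fun v _ => by have := hlo v (hi v); linarith)] at h1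

/-- inner products of functions of the same transported coordinates -/
theorem avg_comp_mul_same {Q R : Type*} [Fintype Q] [DecidableEq Q] [Fintype R] [DecidableEq R]
    (p : Q ↪ R) (g g' : (Q → Bool) → ℝ) :
    avg (fun x : R → Bool => g (fun i => x (p i)) * g' (fun i => x (p i))) =
      avg (fun y => g y * g' y) := by
  have h1 := avg_comp_mul p p g g'
  have h2 := avg_comp_mul (Function.Embedding.refl Q) (Function.Embedding.refl Q) g g'
  simp only [Function.Embedding.refl_apply, Finset.map_refl] at h2
  rw [h1]
  change _ = avg (fun x => g (fun i => x i) * g' (fun i => x i))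
  rw [h2]
  refine sum_congr rfl fun S _ => sum_congr rfl fun S' _ => ?_
  simp [Finset.map_inj]

theorem avg_comp {Q R : Type*} [Fintype Q] [DecidableEq Q] [Fintype R] [DecidableEq R]
    (p : Q ↪ R) (g : (Q → Bool) → ℝ) :
    avg (fun x : R → Bool => g (fun i => x (p i))) = avg g := by
  have := avg_comp_mul_same p g (fun _ => 1)
  simpa using this

/-- the core inequality -/
theorem core {W F Q : Type*} [Fintype W] [Fintype F] [Fintype Q] [DecidableEq Q] {d l : ℕ}
    (hd : 2 ≤ d) (hl : 2 ^ d ≤ l) (p : F → (Fin l ↪ Q))
    (hp : ∀ f f', f ≠ f' → ∀ S S' : Finset (Fin l), S.map (p f) = S'.map (p f') → S.card + 2 ≤ d)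
    (J : W → (Q → Bool) → ℝ) (hJ : ∀ v x, J v x * J v x ≤ 1)
    (L : F → W → W → Prop)
    (hL : ∀ f v w, L f v w → ∃ i ≤ l, ∀ x, ¬ Cross i (fun j => x (p f j)) → J v x = J w x)
    {s t : W} (hs : ∀ x, J s x = 1) (ht : ∀ x, J t x = 0)
    (hst : ∀ f, Relation.EqvGen (L f) s t) :
    (Fintype.card F : ℝ) ≤ (Fintype.card W : ℝ) ^ 2 * (9 * l + 1) ^ d := by
  classical
  set K : ℝ := (9 * l + 1) ^ d with hK
  have hK0 : 0 ≤ K := by positivity
  set a : F → W → Fin (l + 1) → ℝ :=
    fun f v i => avg (fun x => J v x * gfun d i (fun j => x (p f j))) with ha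
  have hex : ∀ f, ∃ hi lo : W → Fin (l + 1), 1 ≤ ∑ v, (a f v (hi v) - a f v (lo v)) := by
    intro f
    refine interval_cover (a f) (L f) ?_ (hst f) ?_ ?_
    · intro v w hvw
      obtain ⟨i, hi, h⟩ := hL f v w hvw
      refine ⟨⟨i, by omega⟩, ?_⟩
      simp only [ha]
      congr 1
      funext x
      by_cases hc : Cross i (fun j => x (p f j))
      · simp [gfun, hc]
      · rw [h x hc]
    · intro i
      simp only [ha, hs, one_mul]
      rw [avg_comp (p f) (gfun d i)]
      exact avg_gfun hd hl (by omega)
    · intro i
      simp only [ha, ht, zero_mul]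
      exact avg_const 0
  choose hi lo hhl using hex
  -- the bound for one state
  have hstate : ∀ v, ∑ f, (a f v (hi f v) - a f v (lo f v)) ≤ Real.sqrt (Fintype.card F * K) := by
    intro v
    set h : F → (Fin l → Bool) → ℝ := fun f y => gfun d (hi f v) y - gfun d (lo f v) y with hh
    set H : (Q → Bool) → ℝ := fun x => ∑ f, h f (fun j => x (p f j)) with hH
    have e1 : ∑ f, (a f v (hi f v) - a f v (lo f v)) = avg (fun x => J v x * H x) := by
      have : (fun x => J v x * H x) = fun x => ∑ f, J v x * h f (fun j => x (p f j)) := by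
        funext x
        rw [hH, mul_sum]
      rw [this, avg_sum]
      refine sum_congr rfl fun f _ => ?_
      simp only [ha, hh]
      rw [← avg_sub]
      congr 1
      funext x
      ring
    have e2 : avg (fun x => H x * H x) ≤ Fintype.card F * K := by
      have : (fun x => H x * H x) = fun x => ∑ f, ∑ f',
          h f (fun j => x (p f j)) * h f' (fun j => x (p f' j)) := by
        funext x
        rw [hH, sum_mul_sum]
      rw [this, avg_sum]
      have e3 : ∀ f ∈ (univ : Finset F), avg (fun x => ∑ f',
          h f (fun j => x (p f j)) * h f' (fun j => x (p f' j))) ≤ K := by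
        intro f _
        rw [avg_sum, sum_eq_single f]
        · rw [avg_comp_sq (p f) (h f)]
          exact avg_gfun_sub_sq d (hi f v) (lo f v)
        · intro f' _ hne
          rw [avg_comp_mul]
          refine sum_eq_zero fun S _ => sum_eq_zero fun S' _ => ?_
          split_ifs with hSS
          · have hc := hp f f' (Ne.symm hne) S S' hSS
            have : coef (h f) S = 0 := coef_gfun_sub hl (by omega) (by omega) hc
            rw [this, zero_mul]
          · rfl
        · intro hf
          exact absurd (mem_univ f) hf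
      refine le_trans (sum_le_sum e3) ?_
      rw [sum_const, card_univ, nsmul_eq_mul]
    have e4 : avg (fun x => J v x * J v x) ≤ 1 := by
      refine le_trans (avg_mono (hJ v)) ?_
      rw [avg_const]
    have e5 := avg_mul_sq_le (J v) H
    rw [e1]
    refine Real.le_sqrt_of_sq_le (le_trans e5 ?_)
    have e6 : 0 ≤ avg (fun x => H x * H x) := avg_nonneg fun x => mul_self_nonneg _
    nlinarith
  have htot : (Fintype.card F : ℝ) ≤ Fintype.card W * Real.sqrt (Fintype.card F * K) := by
    have e1 : ∑ f : F, (1 : ℝ) ≤ ∑ f, ∑ v, (a f v (hi f v) - a f v (lo f v)) :=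
      sum_le_sum fun f _ => hhl f
    rw [sum_comm] at e1
    have e2 := sum_le_sum fun v (_ : v ∈ (univ : Finset W)) => hstate v
    simp only [sum_const, card_univ, nsmul_eq_mul, mul_one] at e1 e2
    exact le_trans e1 e2
  rcases Nat.eq_zero_or_pos (Fintype.card F) with h0 | h0
  · rw [h0]; simp; positivity
  · have hF : (0 : ℝ) < Fintype.card F := by exact_mod_cast h0
    have h2 : (Fintype.card F : ℝ) ^ 2 ≤ (Fintype.card W * Real.sqrt (Fintype.card F * K)) ^ 2 := by
      gcongr
    rw [mul_pow, Real.sq_sqrt (by positivity)] at h2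
    have h3 : (Fintype.card F : ℝ) * Fintype.card F ≤
        Fintype.card F * ((Fintype.card W : ℝ) ^ 2 * K) := by nlinarith
    exact le_of_mul_le_mul_left h3 hF

end Pool.Agent.Lib.Pe46137
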