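import Pool.Agent.Lib.Pe46137.Assembly

/-!
Hidden positions: the layers of a long path are mapped to the points of a short path.
-/

namespace Pool.Agent.Lib.Pe46137

open Finset

section

variable {t b : ℕ}

/-- the number of hidden positions before layer `i` -/
def J (lam : Fin t → Fin b) (i : ℕ) : ℕ :=
  (univ.filter (fun j : Fin t => (j : ℕ) * b + (lam j : ℕ) < i)).card

theorem J_le (lam : Fin t → Fin b) (i : ℕ) : J lam i ≤ t := by
  unfold J
  exact le_trans (card_le_univ _) (by simp)

theorem J_lt (lam : Fin t → Fin b) (i : ℕ) : J lam i < t + 1 := Nat.lt_succ_of_le (J_le lam i)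

theorem J_zero (lam : Fin t → Fin b) : J lam 0 = 0 := by
  unfold J; simp

theorem pos_block {j j' : Fin t} {a a' : Fin b}
    (h : (j : ℕ) * b + (a : ℕ) = (j' : ℕ) * b + (a' : ℕ)) : j = j' := by
  have h1 := a.2
  have h2 := a'.2
  apply Fin.ext
  rcases lt_trichotomy (j : ℕ) (j' : ℕ) with h3 | h3 | h3
  · have : ((j : ℕ) + 1) * b ≤ (j' : ℕ) * b := Nat.mul_le_mul_right _ h3
    have e : ((j : ℕ) + 1) * b = (j : ℕ) * b + b := by ring
    omega
  · exact h3
  · have : ((j' : ℕ) + 1) * b ≤ (j : ℕ) * b := Nat.mul_le_mul_right _ h3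
    have e : ((j' : ℕ) + 1) * b = (j' : ℕ) * b + b := by ring
    omega

theorem pos_inj (lam : Fin t → Fin b) {j j' : Fin t}
    (h : (j : ℕ) * b + (lam j : ℕ) = (j' : ℕ) * b + (lam j' : ℕ)) : j = j' := by
  have h1 := (lam j).2
  have h2 := (lam j').2
  apply Fin.ext
  rcases lt_trichotomy (j : ℕ) (j' : ℕ) with h3 | h3 | h3
  · have : ((j : ℕ) + 1) * b ≤ (j' : ℕ) * b := Nat.mul_le_mul_right _ h3
    have e : ((j : ℕ) + 1) * b = (j : ℕ) * b + b := by ring
    omega
  · exact h3
  · have : ((j' : ℕ) + 1) * b ≤ (j : ℕ) * b := Nat.mul_le_mul_right _ h3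
    have e : ((j' : ℕ) + 1) * b = (j' : ℕ) * b + b := by ring
    omega

/-- consecutive values -/
theorem J_succ (lam : Fin t → Fin b) (i : ℕ) :
    J lam (i + 1) = J lam i ∨
      (J lam (i + 1) = J lam i + 1 ∧ ∃ j : Fin t, (j : ℕ) * b + (lam j : ℕ) = i) := by
  classical
  by_cases h : ∃ j : Fin t, (j : ℕ) * b + (lam j : ℕ) = i
  · right
    refine ⟨?_, h⟩
    obtain ⟨j, hj⟩ := h
    unfold J
    have e : (univ.filter (fun j : Fin t => (j : ℕ) * b + (lam j : ℕ) < i + 1)) =
        insert j (univ.filter (fun j : Fin t => (j : ℕ) * b + (lam j : ℕ) < i)) := by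
      ext j'
      simp only [mem_filter, mem_univ, true_and, mem_insert]
      constructor
      · intro h1
        by_cases h2 : (j' : ℕ) * b + (lam j' : ℕ) = i
        · exact Or.inl (pos_inj lam (h2.trans hj.symm))
        · right; omega
      · rintro (rfl | h1)
        · omega
        · omega
    rw [e, card_insert_of_notMem]
    simp only [mem_filter, mem_univ, true_and]
    omega
  · left
    push Not at h
    unfold J
    congr 1
    ext j
    simp only [mem_filter, mem_univ, true_and]
    have := h j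
    omega

/-- the position on the short path of the `i`-th cluster of the long path -/
def phi (lam : Fin t → Fin b) (i : ℕ) : ℕ :=
  if i = 0 then 0 else if i ≤ t * b + 1 then J lam (i - 1) + 1 else t + 2

theorem phi_zero (lam : Fin t → Fin b) : phi lam 0 = 0 := rfl

theorem phi_succ (lam : Fin t → Fin b) {i : ℕ} (h : i < t * b + 1) :
    phi lam (i + 1) = J lam i + 1 := by
  unfold phi
  rw [if_neg (by omega), if_pos (by omega)]
  rfl

theorem phi_last (lam : Fin t → Fin b) {i : ℕ} (h : t * b + 1 ≤ i) : phi lam (i + 1) = t + 2 := by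
  unfold phi
  rw [if_neg (by omega), if_neg (by omega)]

theorem J_last (lam : Fin t → Fin b) : J lam (t * b) = t := by
  unfold J
  have e : (univ.filter (fun j : Fin t => (j : ℕ) * b + (lam j : ℕ) < t * b)) = univ := by
    rw [filter_eq_self]
    intro j _
    have h1 := (lam j).2
    have h2 : ((j : ℕ) + 1) * b ≤ t * b := Nat.mul_le_mul_right _ j.2
    have e : ((j : ℕ) + 1) * b = (j : ℕ) * b + b := by ring
    omega
  rw [e]
  simp

/-- steps of the position function -/
theorem phi_step (lam : Fin t → Fin b) {i : ℕ} (hi : i ≤ t * b + 1) :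
    phi lam i ≤ t + 1 ∧ (phi lam (i + 1) = phi lam i ∨
      (phi lam (i + 1) = phi lam i + 1 ∧ (i = 0 ∨ i = t * b + 1 ∨
        ∃ j : Fin t, (j : ℕ) * b + (lam j : ℕ) + 1 = i))) := by
  rcases Nat.eq_zero_or_pos i with h | h
  · subst h
    refine ⟨by rw [phi_zero]; omega, Or.inr ⟨?_, Or.inl rfl⟩⟩
    rw [phi_succ lam (by omega), phi_zero, J_zero]
  · obtain ⟨i', rfl⟩ : ∃ i', i = i' + 1 := ⟨i - 1, by omega⟩
    have h1 : phi lam (i' + 1) = J lam i' + 1 := phi_succ lam (by omega)
    refine ⟨by rw [h1]; have := J_le lam i'; omega, ?_⟩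
    by_cases h2 : i' + 1 = t * b + 1
    · right
      rw [phi_last lam (by omega), h1]
      have h3 : i' = t * b := by omega
      rw [h3, J_last]
      exact ⟨by omega, by omega⟩
    · rw [phi_succ lam (by omega), h1]
      rcases J_succ lam i' with h3 | ⟨h3, j, hj⟩
      · left; omega
      · right
        exact ⟨by omega, Or.inr (Or.inr ⟨j, by omega⟩)⟩

/-- the values of a function on the short path, read along the long path -/
theorem ext_phi (lam : Fin t → Fin b) (y : Fin (t + 1) → Bool) {i : ℕ} (hi : i ≤ t * b + 2) :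
    ext (fun i : Fin (t * b + 1) => y ⟨J lam i, J_lt lam i⟩) i = ext y (phi lam i) := by
  rcases Nat.eq_zero_or_pos i with h | h
  · subst h; rfl
  · obtain ⟨i', rfl⟩ : ∃ i', i = i' + 1 := ⟨i - 1, by omega⟩
    by_cases h2 : i' < t * b + 1
    · rw [ext_succ _ h2, phi_succ lam h2, ext_succ y (J_lt lam i')]
    · rw [ext_last _ (by omega), phi_last lam (by omega), ext_last y (by omega)]

end

/-- the embedding given by a choice of a point in every layer -/
def pw {L q : ℕ} (w : Fin L → ZMod q) : Fin L ↪ Fin L × ZMod q :=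
  ⟨fun i => (i, w i), fun _ _ h => (Prod.ext_iff.mp h).1⟩

theorem lay_walk_pw {L q : ℕ} (w : Fin L → ZMod q) {i : ℕ} (hi : i ≤ L + 1) :
    lay (walk (pw w) i) = i := by
  rcases Nat.eq_zero_or_pos i with h | h
  · subst h; rfl
  · obtain ⟨i, rfl⟩ : ∃ i', i = i' + 1 := ⟨i - 1, by omega⟩
    by_cases hi' : i < L
    · rw [walk_succ _ hi']; rfl
    · rw [walk_last _ (by omega)]
      simp only [lay]; omega

end Pool.Agent.Lib.Pe46137
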