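import Mathlib

/-!
Reversible pebbling of a line: a recursively defined invariant which is preserved by every move
that uses at most `d` pebbles, holds for the empty board, and forbids position `2 ^ d - 1`
(zero-based) and everything beyond.
-/

namespace Pool.Agent.Lib.Pe46137

open Finset

/-- shift a set of positions down by `m`, forgetting the positions below `m` -/
noncomputable def shiftDown (m : ℕ) (U : Finset ℕ) : Finset ℕ :=
  U.preimage (· + m) ((add_left_injective m).injOn)

theorem mem_shiftDown {m : ℕ} {U : Finset ℕ} {j : ℕ} : j ∈ shiftDown m U ↔ j + m ∈ U := by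
  unfold shiftDown
  rw [Finset.mem_preimage]

/-- the pebbling invariant -/
def Inv : ℕ → Finset ℕ → Prop
  | 0, U => U = ∅
  | d + 1, U => U.card ≤ d + 1 ∧
      (shiftDown (2 ^ d) U = ∅ ∨ (¬ Inv d (U.filter (· < 2 ^ d)) ∧ Inv d (shiftDown (2 ^ d) U)))

theorem Inv_empty (d : ℕ) : Inv d ∅ := by
  cases d with
  | zero => rfl
  | succ d =>
    refine ⟨by simp, Or.inl ?_⟩
    ext j
    simp [mem_shiftDown]

theorem Inv_lt {d : ℕ} : ∀ {U : Finset ℕ}, Inv d U → ∀ i ∈ U, i + 1 < 2 ^ d := by
  induction d with
  | zero =>
    intro U h i hi
    have : U = ∅ := h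
    simp [this] at hi
  | succ d ih =>
    intro U h i hi
    obtain ⟨_, h | ⟨_, h⟩⟩ := h
    · have h1 : i < 2 ^ d := by
        by_contra hc
        push Not at hc
        have : i - 2 ^ d ∈ shiftDown (2 ^ d) U := by
          rw [mem_shiftDown, Nat.sub_add_cancel hc]; exact hi
        rw [h] at this
        simp at this
      have : 1 ≤ 2 ^ d := Nat.one_le_two_pow
      rw [pow_succ]; omega
    · by_cases hc : 2 ^ d ≤ i
      · have h2 : i - 2 ^ d ∈ shiftDown (2 ^ d) U := by
          rw [mem_shiftDown, Nat.sub_add_cancel hc]; exact hi
        have := ih h _ h2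
        rw [pow_succ]; omega
      · have : 1 ≤ 2 ^ d := Nat.one_le_two_pow
        rw [pow_succ]; omega

theorem card_split (m : ℕ) (U : Finset ℕ) :
    (U.filter (· < m)).card + (shiftDown m U).card = U.card := by
  classical
  have h1 : (shiftDown m U).card = (U.filter (¬ · < m)).card := by
    rw [← card_image_of_injective (shiftDown m U) (f := (· + m)) (fun _ _ h => Nat.add_right_cancel h)]
    congr 1
    ext j
    simp only [mem_image, mem_shiftDown, mem_filter, not_lt]
    constructor
    · rintro ⟨a, ha, rfl⟩
      exact ⟨ha, by omega⟩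
    · rintro ⟨h1, h2⟩
      exact ⟨j - m, by rwa [Nat.sub_add_cancel h2], Nat.sub_add_cancel h2⟩
  rw [h1]
  exact card_filter_add_card_filter_not (s := U) (fun i => i < m)

theorem Inv_move {d : ℕ} : ∀ {U : Finset ℕ} {i : ℕ}, (insert i U).card ≤ d →
    (i = 0 ∨ ∃ j ∈ U, j + 1 = i) → (Inv d U ↔ Inv d (insert i U)) := by
  induction d with
  | zero =>
    intro U i h _
    simp at h
  | succ d ih =>
    intro U i hcard hi
    by_cases hiU : i ∈ U
    · rw [insert_eq_of_mem hiU]
    have hcU : U.card ≤ d + 1 := le_trans (card_le_card (subset_insert i U)) hcard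
    have hcU' : U.card + 1 ≤ d + 1 := by rwa [card_insert_of_notMem hiU] at hcard
    have hsplit := card_split (2 ^ d) U
    have hsplit' := card_split (2 ^ d) (insert i U)
    rw [card_insert_of_notMem hiU] at hsplit'
    by_cases hilt : i < 2 ^ d
    · -- move in the lower part
      have hB : shiftDown (2 ^ d) (insert i U) = shiftDown (2 ^ d) U := by
        ext j
        simp only [mem_shiftDown, mem_insert]
        constructor
        · rintro (h | h)
          · omega
          · exact h
        · exact Or.inr
      have hA : (insert i U).filter (· < 2 ^ d) = insert i (U.filter (· < 2 ^ d)) := by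
        rw [filter_insert, if_pos hilt]
      unfold Inv
      rw [hB, hA]
      by_cases hBe : shiftDown (2 ^ d) U = ∅
      · simp [hBe, hcU, hcard]
      · have hBpos : 1 ≤ (shiftDown (2 ^ d) U).card := Finset.card_pos.mpr (Finset.nonempty_iff_ne_empty.mpr hBe)
        have hiA : i ∉ U.filter (· < 2 ^ d) := fun h => hiU (mem_filter.mp h).1
        have hcA : (insert i (U.filter (· < 2 ^ d))).card ≤ d := by
          rw [card_insert_of_notMem hiA]; omega
        have := ih hcA (by
          rcases hi with h | ⟨j, hj, hji⟩
          · exact Or.inl h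
          · exact Or.inr ⟨j, mem_filter.mpr ⟨hj, by omega⟩, hji⟩)
        simp only [hcU, hcard, hBe, false_or, true_and, this]
    · -- move in the upper part
      push Not at hilt
      have hA : (insert i U).filter (· < 2 ^ d) = U.filter (· < 2 ^ d) := by
        rw [filter_insert, if_neg (by omega)]
      have hB : shiftDown (2 ^ d) (insert i U) = insert (i - 2 ^ d) (shiftDown (2 ^ d) U) := by
        ext j
        simp only [mem_shiftDown, mem_insert]
        constructor
        · rintro (h | h)
          · left; omega
          · exact Or.inr h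
        · rintro (h | h)
          · left; omega
          · exact Or.inr h
      have hBne : shiftDown (2 ^ d) (insert i U) ≠ ∅ := by
        rw [hB]; exact insert_ne_empty _ _
      have hnotB : (i - 2 ^ d) ∉ shiftDown (2 ^ d) U := by
        rw [mem_shiftDown, Nat.sub_add_cancel hilt]; exact hiU
      unfold Inv
      rw [hA, hB]
      rw [hB] at hBne
      by_cases hi0 : i = 2 ^ d
      · -- first position of the upper part: the pebble on `2 ^ d - 1` is there
        have hpos : 1 ≤ 2 ^ d := Nat.one_le_two_pow
        obtain ⟨j, hj, hji⟩ : ∃ j ∈ U, j + 1 = i := by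
          rcases hi with h | h
          · omega
          · exact h
        have hjA : j ∈ U.filter (· < 2 ^ d) := mem_filter.mpr ⟨hj, by omega⟩
        have hnA : ¬ Inv d (U.filter (· < 2 ^ d)) := by
          intro h
          have := Inv_lt h j hjA
          omega
        have hApos : 1 ≤ (U.filter (· < 2 ^ d)).card := Finset.card_pos.mpr ⟨j, hjA⟩
        have hcB : (insert (i - 2 ^ d) (shiftDown (2 ^ d) U)).card ≤ d := by
          rw [card_insert_of_notMem hnotB]; omega
        have := ih hcB (Or.inl (by omega))
        simp only [hcU, hcard, hBne, false_or, true_and, hnA, not_false_eq_true, ← this]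
        constructor
        · rintro (h | h)
          · rw [h]; exact Inv_empty d
          · exact h
        · exact Or.inr
      · obtain ⟨j, hj, hji⟩ : ∃ j ∈ U, j + 1 = i := by
          rcases hi with h | h
          · have : 1 ≤ 2 ^ d := Nat.one_le_two_pow
            omega
          · exact h
        have hjB : j - 2 ^ d ∈ shiftDown (2 ^ d) U := by
          rw [mem_shiftDown, Nat.sub_add_cancel (by omega)]; exact hj
        have hBe : shiftDown (2 ^ d) U ≠ ∅ := by
          intro h; rw [h] at hjB; simp at hjB
        by_cases hnA : Inv d (U.filter (· < 2 ^ d))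
        · simp [hnA, hBe, hBne]
        · have hAne : (U.filter (· < 2 ^ d)) ≠ ∅ := by
            intro h; rw [h] at hnA; exact hnA (Inv_empty d)
          have hApos : 1 ≤ (U.filter (· < 2 ^ d)).card :=
            Finset.card_pos.mpr (Finset.nonempty_iff_ne_empty.mpr hAne)
          have hcB : (insert (i - 2 ^ d) (shiftDown (2 ^ d) U)).card ≤ d := by
            rw [card_insert_of_notMem hnotB]; omega
          have := ih hcB (Or.inr ⟨j - 2 ^ d, hjB, by omega⟩)
          simp only [hcU, hcard, hBne, hBe, false_or, true_and, hnA, not_false_eq_true, this]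

end Pool.Agent.Lib.Pe46137
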