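import Pool.Agent.Lib.Pe46137.Network

/-!
Doing without the negations of the arcs that touch a small set of vertices.
-/

namespace Pool.Agent.Lib.Pe46137

open Finset

set_option linter.unusedSectionVars false

variable {V : Type} [Fintype V] [DecidableEq V]

theorem exists_perm {a b s t : V} (hab : a ≠ b) (hst : s ≠ t) :
    ∃ π : Equiv.Perm V, π a = s ∧ π b = t := by
  set b' := Equiv.swap a s b with hb'
  have h1 : b' ≠ s := by
    intro h
    apply hab
    have : Equiv.swap a s b = Equiv.swap a s a := by rw [Equiv.swap_apply_left, ← hb', h]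
    exact ((Equiv.swap a s).injective this).symm
  refine ⟨(Equiv.swap a s).trans (Equiv.swap b' t), ?_, ?_⟩
  · rw [Equiv.trans_apply, Equiv.swap_apply_left, Equiv.swap_apply_of_ne_of_ne h1.symm hst]
  · rw [Equiv.trans_apply, ← hb', Equiv.swap_apply_left]

theorem reachable_rename {G : Set (V × V)} (π : Equiv.Perm V) {a b : V} :
    Reachable {e | (π.symm e.1, π.symm e.2) ∈ G} (π a) (π b) ↔ Reachable G a b := by
  constructor
  · have key : ∀ x y, Reachable {e : V × V | (π.symm e.1, π.symm e.2) ∈ G} x y →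
        Reachable G (π.symm x) (π.symm y) := by
      intro x y h
      induction h with
      | refl => exact Relation.ReflTransGen.refl
      | tail _ h ih => exact ih.tail h
    intro h
    simpa using key _ _ h
  · intro h
    induction h with
    | refl => exact Relation.ReflTransGen.refl
    | @tail b c _ h ih =>
      refine ih.tail ?_
      simpa using h

/-- reachability inside the set of arcs `A`, for an arbitrary pair of vertices -/
theorem comp_inside {W : Type} [Fintype W] {𝒢 : Set (Set (V × V))} (h𝒢 : Hereditary 𝒢) {s t : V}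
    (hst : s ≠ t) (N : SwitchingNetwork (V × V) W) (hN : N.DecidesOn 𝒢 s t) (A M : Set (V × V))
    (hAM : ∀ e ∈ M, e ∉ A) {a b : V} (hab : a ≠ b) :
    Comp M 𝒢 (fun G => Reachable (G ∩ A) a b) (Fintype.card W) := by
  obtain ⟨π, hπa, hπb⟩ := exists_perm hab hst
  set N' : SwitchingNetwork (V × V) W := {
    source := N.source
    sink := N.sink
    wire := fun v w => N.wire v w ∨ ∃ e : V × V, (π.symm e.1, π.symm e.2) ∉ A ∧ N.neg e v w
    pos := fun e v w => e ∈ A ∧ N.pos (π e.1, π e.2) v w
    neg := fun e v w => e ∈ A ∧ N.neg (π e.1, π e.2) v w } with hN'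
  refine ⟨W, inferInstance, N', le_rfl, ?_, ?_⟩
  · intro e he v w h
    exact hAM e he h.1
  intro G hG
  set H : Set (V × V) := {e | (π.symm e.1, π.symm e.2) ∈ G ∩ A} with hH
  have hH𝒢 : H ∈ 𝒢 := h𝒢.rename _ (h𝒢.delete G hG _ Set.inter_subset_left) π.symm
  have hcl : N'.Closed G Gᶜ = N.Closed H Hᶜ := by
    funext v w
    refine propext ⟨?_, ?_⟩
    · rintro ((h | ⟨e, he, h⟩) | ⟨e, he, hA, h⟩ | ⟨e, he, hA, h⟩)
      · exact Or.inl h
      · exact Or.inr (Or.inr ⟨e, fun h' => he h'.2, h⟩)
      · refine Or.inr (Or.inl ⟨_, ?_, h⟩)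
        simp only [hH, Set.mem_ofPred_eq, Equiv.symm_apply_apply]
        exact ⟨he, hA⟩
      · refine Or.inr (Or.inr ⟨_, ?_, h⟩)
        simp only [hH, Set.mem_compl_iff, Set.mem_ofPred_eq, Equiv.symm_apply_apply]
        exact fun h' => he h'.1
    · rintro (h | ⟨e, he, h⟩ | ⟨e, he, h⟩)
      · exact Or.inl (Or.inl h)
      · refine Or.inr (Or.inl ⟨(π.symm e.1, π.symm e.2), he.1, he.2, ?_⟩)
        simpa using h
      · by_cases hA : (π.symm e.1, π.symm e.2) ∈ A
        · refine Or.inr (Or.inr ⟨(π.symm e.1, π.symm e.2), fun h' => he ⟨h', hA⟩, hA, ?_⟩)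
          simpa using h
        · exact Or.inl (Or.inr ⟨e, hA, h⟩)
  have : N'.Connects G Gᶜ ↔ N.Connects H Hᶜ := by
    unfold SwitchingNetwork.Connects
    rw [hcl]
  rw [this, hN H hH𝒢, ← hπa, ← hπb]
  exact reachable_rename π

/-- one hop between vertices of `X`: an arc, or a path whose inner vertices are outside `X` -/
def hop (A G : Set (V × V)) (u v : V) : Prop :=
  (u, v) ∈ G ∨ ∃ p ∈ (univ : Finset (V × V)), (u, p.1) ∈ G ∧ Reachable (G ∩ A) p.1 p.2 ∧
    (p.2, v) ∈ G

/-- reachability by at most `2 ^ j` hops -/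
def lev (X : Finset V) (A : Set (V × V)) : ℕ → Set (V × V) → V → V → Prop
  | 0, G, u, v => u = v ∨ hop A G u v
  | j + 1, G, u, v => ∃ w ∈ X, lev X A j G u w ∧ lev X A j G w v

/-- the number of states -/
def size (x y : ℕ) : ℕ → ℕ
  | 0 => y
  | j + 1 => x * (size x y j + size x y j) + 2

theorem comp_lev {M : Set (V × V)} {𝒢 : Set (Set (V × V))} (X : Finset V) (A : Set (V × V)) {m : ℕ}
    (hA : ∀ a b, a ≠ b → Comp M 𝒢 (fun G => Reachable (G ∩ A) a b) m) (hm : 1 ≤ m) (j : ℕ) :
    ∀ u v, Comp M 𝒢 (fun G => lev X A j G u v)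
      (size X.card (Fintype.card V * Fintype.card V * (m + 4) + 4) j) := by
  have hA' : ∀ a b, Comp M 𝒢 (fun G => Reachable (G ∩ A) a b) m := by
    intro a b
    by_cases h : a = b
    · subst h
      refine ((comp_true M 𝒢).mono hm).congr fun G _ => ?_
      simp only [true_iff]
      exact Relation.ReflTransGen.refl
    · exact hA a b h
  induction j with
  | zero =>
    intro u v
    by_cases h : u = v
    · refine ((comp_true M 𝒢).mono (m' := _) ?_).congr fun G _ => ?_
      · simp only [size]; omega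
      · simp [lev, h]
    · have h1 := (comp_lit M 𝒢 (u, v)).or (comp_exists (univ : Finset (V × V))
        (f := fun p G => (u, p.1) ∈ G ∧ Reachable (G ∩ A) p.1 p.2 ∧ (p.2, v) ∈ G)
        (m := 2 + (m + 2)) fun p _ =>
          (comp_lit M 𝒢 (u, p.1)).and ((hA' p.1 p.2).and (comp_lit M 𝒢 (p.2, v))))
      refine (h1.mono ?_).congr fun G _ => ?_
      · rw [card_univ, Fintype.card_prod]
        simp only [size]
        have : 2 + (m + 2) = m + 4 := by ring
        rw [this]; omega
      · simp only [lev, h, false_or]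
        rfl
  | succ j ih =>
    intro u v
    exact (comp_exists X (f := fun w G => lev X A j G u w ∧ lev X A j G w v)
      fun w _ => (ih u w).and (ih w v))

theorem reachable_of_hop {A G : Set (V × V)} {u v : V} (h : hop A G u v) : Reachable G u v := by
  rcases h with h | ⟨p, _, h1, h2, h3⟩
  · exact Relation.ReflTransGen.single h
  · refine Relation.ReflTransGen.head h1 (Relation.ReflTransGen.tail ?_ h3)
    exact Relation.ReflTransGen.mono (fun a b h => h.1) _ _ h2

theorem reachable_of_lev {X : Finset V} {A G : Set (V × V)} :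
    ∀ (j : ℕ) {u v : V}, lev X A j G u v → Reachable G u v := by
  intro j
  induction j with
  | zero =>
    rintro u v (h | h)
    · rw [h]; exact Relation.ReflTransGen.refl
    · exact reachable_of_hop h
  | succ j ih =>
    rintro u v ⟨w, _, h1, h2⟩
    exact (ih h1).trans (ih h2)

/-- a chain of `k` hops through `X` -/
def HopChain (X : Finset V) (A G : Set (V × V)) (k : ℕ) (u v : V) : Prop :=
  ∃ p : ℕ → V, p 0 = u ∧ p k = v ∧ (∀ i ≤ k, p i ∈ X) ∧ ∀ i < k, hop A G (p i) (p (i + 1))

theorem lev_of_chain {X : Finset V} {A G : Set (V × V)} :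
    ∀ (j k : ℕ) {u v : V}, k ≤ 2 ^ j → HopChain X A G k u v → lev X A j G u v := by
  intro j
  induction j with
  | zero =>
    rintro k u v hk ⟨p, h0, h1, _, h3⟩
    rcases Nat.eq_zero_or_pos k with h | h
    · subst h
      exact Or.inl (h0.symm.trans h1)
    · have : k = 1 := by simp at hk; omega
      subst this
      have := h3 0 one_pos
      rw [h0] at this
      right; rw [← h1]; exact this
  | succ j ih =>
    rintro k u v hk ⟨p, h0, h1, h2, h3⟩
    have hk2 : k ≤ 2 * 2 ^ j := by rwa [← pow_succ']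
    refine ⟨p (min k (2 ^ j)), h2 _ (min_le_left _ _), ?_, ?_⟩
    · refine ih (min k (2 ^ j)) (min_le_right _ _) ⟨p, h0, rfl, fun i hi => h2 i ?_,
        fun i hi => h3 i ?_⟩
      · exact le_trans hi (min_le_left _ _)
      · exact lt_of_lt_of_le hi (min_le_left _ _)
    · refine ih (k - min k (2 ^ j)) (by omega) ⟨fun i => p (min k (2 ^ j) + i), by simp,
        ?_, fun i hi => h2 _ (by omega), fun i hi => ?_⟩
      · simp only
        rw [← h1]; congr 1; omega
      · exact h3 _ (by omega)

theorem short_chain {X : Finset V} {A G : Set (V × V)} {u v : V} (k : ℕ)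
    (h : HopChain X A G k u v) : ∃ k', k' + 1 ≤ X.card ∧ HopChain X A G k' u v := by
  classical
  have hex : ∃ k, HopChain X A G k u v := ⟨k, h⟩
  obtain ⟨p, h0, h1, h2, h3⟩ := Nat.find_spec hex
  set m := Nat.find hex with hm
  refine ⟨m, ?_, p, h0, h1, h2, h3⟩
  by_contra hc
  push Not at hc
  -- two equal vertices
  obtain ⟨i, hi, j, hj, hij, hpp⟩ := exists_ne_map_eq_of_card_lt_of_maps_to
    (s := range (m + 1)) (t := X) (f := p) (by rw [card_range]; omega)
    (fun i hi => by
      have := mem_range.mp (Finset.mem_coe.mp hi)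
      exact h2 i (by omega))
  have hi' := mem_range.mp hi
  have hj' := mem_range.mp hj
  have key : ∀ i j, i < j → j ≤ m → p i = p j → False := by
    intro i j hij hjm hpp
    have hlt : m - (j - i) < m := by omega
    refine Nat.find_min hex hlt ⟨fun r => if r ≤ i then p r else p (r + (j - i)), ?_, ?_, ?_, ?_⟩
    · simp [h0]
    · simp only
      split_ifs with h
      · have : j = m := by omega
        have hri : m - (j - i) = i := by omega
        rw [hri, hpp, this, h1]
      · rw [Nat.sub_add_cancel (by omega), h1]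
    · intro r hr
      simp only
      split_ifs with h
      · exact h2 r (by omega)
      · exact h2 _ (by omega)
    · intro r hr
      simp only
      by_cases hri : r < i
      · rw [if_pos (by omega), if_pos (by omega)]
        exact h3 r (by omega)
      · by_cases hri' : r = i
        · rw [if_pos (by omega), if_neg (by omega), hri', hpp]
          have : i + 1 + (j - i) = j + 1 := by omega
          rw [this]
          exact h3 j (by omega)
        · rw [if_neg (by omega), if_neg (by omega)]
          have : r + 1 + (j - i) = r + (j - i) + 1 := by omega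
          rw [this]
          exact h3 _ (by omega)
  rcases lt_or_gt_of_ne hij with h | h
  · exact key i j h (by omega) hpp
  · exact key j i h (by omega) hpp.symm

theorem hop_chain_of_reachable {X : Finset V} {G : Set (V × V)} {u : V} (hu : u ∈ X) :
    ∀ v, Reachable G u v →
      (v ∈ X ∧ ∃ k, HopChain X {e | e.1 ∉ X ∧ e.2 ∉ X ∧ e.1 ≠ e.2} G k u v) ∨
      (v ∉ X ∧ ∃ k w, HopChain X {e | e.1 ∉ X ∧ e.2 ∉ X ∧ e.1 ≠ e.2} G k u w ∧ ∃ a, (w, a) ∈ G ∧
        Reachable (G ∩ {e | e.1 ∉ X ∧ e.2 ∉ X ∧ e.1 ≠ e.2}) a v) := by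
  intro v h
  set A : Set (V × V) := {e | e.1 ∉ X ∧ e.2 ∉ X ∧ e.1 ≠ e.2} with hA
  have ext : ∀ k w v, HopChain X A G k u w → v ∈ X → hop A G w v → HopChain X A G (k + 1) u v := by
    rintro k w v ⟨p, h0, h1, h2, h3⟩ hv hh
    refine ⟨fun i => if i ≤ k then p i else v, by simp [h0], by simp, ?_, ?_⟩
    · intro i _
      simp only
      split_ifs with h
      · exact h2 i h
      · exact hv
    · intro i hi
      simp only
      by_cases hik : i < k
      · rw [if_pos (by omega), if_pos (by omega)]
        exact h3 i hik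
      · have : i = k := by omega
        rw [if_pos (by omega), if_neg (by omega), this, h1]
        exact hh
  induction h with
  | refl => exact Or.inl ⟨hu, 0, fun _ => u, rfl, rfl, fun _ _ => hu, fun i hi => by omega⟩
  | @tail b c _ hbc ih =>
    rcases ih with ⟨hb, k, hk⟩ | ⟨hb, k, w, hk, a, hwa, hab⟩
    · by_cases hc : c ∈ X
      · exact Or.inl ⟨hc, k + 1, ext k b c hk hc (Or.inl hbc)⟩
      · exact Or.inr ⟨hc, k, b, hk, c, hbc, Relation.ReflTransGen.refl⟩
    · by_cases hc : c ∈ X
      · exact Or.inl ⟨hc, k + 1, ext k w c hk hc (Or.inr ⟨(a, b), mem_univ _, hwa, hab, hbc⟩)⟩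
      · refine Or.inr ⟨hc, k, w, hk, a, hwa, ?_⟩
        by_cases hbc' : b = c
        · rw [← hbc']; exact hab
        · exact hab.tail ⟨hbc, hb, hc, hbc'⟩

theorem lev_iff {X : Finset V} {G : Set (V × V)} {s t : V} (hs : s ∈ X) (ht : t ∈ X) {j : ℕ}
    (hj : X.card ≤ 2 ^ j) :
    lev X {e | e.1 ∉ X ∧ e.2 ∉ X ∧ e.1 ≠ e.2} j G s t ↔ Reachable G s t := by
  refine ⟨reachable_of_lev j, fun h => ?_⟩
  rcases hop_chain_of_reachable hs t h with ⟨_, k, hk⟩ | ⟨h', _⟩
  · obtain ⟨k', h1, h2⟩ := short_chain k hk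
    exact lev_of_chain j k' (by omega) h2
  · exact absurd ht h'

theorem size_le {x y : ℕ} (hy : 2 ≤ y) (j : ℕ) : size x y j ≤ (2 * x + 1) ^ j * y := by
  have h2 : ∀ j, 2 ≤ size x y j := by
    intro j
    cases j with
    | zero => exact hy
    | succ j => simp only [size]; omega
  induction j with
  | zero => simp [size]
  | succ j ih =>
    simp only [size]
    calc x * (size x y j + size x y j) + 2 ≤ x * (size x y j + size x y j) + size x y j := by
          have := h2 j
          omega
      _ = (2 * x + 1) * size x y j := by ring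
      _ ≤ (2 * x + 1) * ((2 * x + 1) ^ j * y) := Nat.mul_le_mul_left _ ih
      _ = (2 * x + 1) ^ (j + 1) * y := by ring

/-- from a network to one that avoids the negations of all arcs that touch `X` -/
theorem avoid_vertices {W : Type} [Fintype W] {𝒢 : Set (Set (V × V))} (h𝒢 : Hereditary 𝒢) {s t : V}
    (hst : s ≠ t) (N : SwitchingNetwork (V × V) W) (hN : N.DecidesOn 𝒢 s t) (M : Set (V × V))
    (X : Finset V) (hs : s ∈ X) (ht : t ∈ X) (hM : ∀ e ∈ M, e.1 ≠ e.2 → e.1 ∈ X ∨ e.2 ∈ X) {j : ℕ}
    (hj : X.card ≤ 2 ^ j) :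
    Comp M 𝒢 (fun G => Reachable G s t)
      ((2 * X.card + 1) ^ j * (Fintype.card V * Fintype.card V * (Fintype.card W + 4) + 4)) := by
  have hW : 1 ≤ Fintype.card W := Fintype.card_pos_iff.mpr ⟨N.source⟩
  have h1 := comp_lev (M := M) (𝒢 := 𝒢) X {e | e.1 ∉ X ∧ e.2 ∉ X ∧ e.1 ≠ e.2}
    (fun a b hab => comp_inside h𝒢 hst N hN _ M (fun e he h => by
      rcases hM e he h.2.2 with h' | h'
      · exact h.1 h'
      · exact h.2.1 h') hab) hW j s t
  exact (h1.mono (size_le (by omega) j)).congr fun G _ => lev_iff hs ht hj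

end Pool.Agent.Lib.Pe46137
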