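import Pool.Agent.Lib.Pe46137.PriceDefs

/-!
Operations on switching networks: parallel and series composition.
-/

namespace Pool.Agent.Lib.Pe46137

open Finset

variable {E : Type}

/-- `f` is computed on the inputs in `D` by a network with at most `m` states that avoids the
negations of `M` -/
def Comp (M : Set E) (D : Set (Set E)) (f : Set E → Prop) (m : ℕ) : Prop :=
  ∃ (W : Type) (_ : Fintype W) (N : SwitchingNetwork E W), Fintype.card W ≤ m ∧ N.Avoids M ∧
    ∀ G ∈ D, (N.Connects G Gᶜ ↔ f G)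

theorem Comp.mono {M : Set E} {D : Set (Set E)} {f : Set E → Prop} {m m' : ℕ}
    (h : Comp M D f m) (hm : m ≤ m') : Comp M D f m' := by
  obtain ⟨W, i, N, h1, h2⟩ := h
  exact ⟨W, i, N, h1.trans hm, h2⟩

theorem Comp.congr {M : Set E} {D : Set (Set E)} {f g : Set E → Prop} {m : ℕ}
    (h : Comp M D f m) (hfg : ∀ G ∈ D, (f G ↔ g G)) : Comp M D g m := by
  obtain ⟨W, i, N, h1, h2, h3⟩ := h
  exact ⟨W, i, N, h1, h2, fun G hG => (h3 G hG).trans (hfg G hG)⟩

theorem comp_true (M : Set E) (D : Set (Set E)) : Comp M D (fun _ => True) 1 := by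
  refine ⟨Unit, inferInstance, ⟨(), (), fun _ _ => False, fun _ _ _ => False, fun _ _ _ => False⟩,
    by simp, fun _ _ _ _ h => h, fun G _ => ⟨fun _ => trivial, fun _ => Relation.EqvGen.refl _⟩⟩

/-- a set of states closed under all closed contacts -/
theorem eqv_closed {W : Type*} {r : W → W → Prop} (A : Set W) (hA : ∀ v w, r v w → (v ∈ A ↔ w ∈ A))
    {v w : W} (h : Relation.EqvGen r v w) : v ∈ A ↔ w ∈ A := by
  induction h with
  | rel x y h => exact hA x y h
  | refl x => exact Iff.rfl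
  | symm x y _ ih => exact ih.symm
  | trans x y z _ _ ih1 ih2 => exact ih1.trans ih2

theorem eqv_map {W W' : Type*} {r : W → W → Prop} {r' : W' → W' → Prop} (g : W → W')
    (hg : ∀ v w, r v w → r' (g v) (g w)) {v w : W} (h : Relation.EqvGen r v w) :
    Relation.EqvGen r' (g v) (g w) := by
  induction h with
  | rel x y h => exact Relation.EqvGen.rel _ _ (hg x y h)
  | refl x => exact Relation.EqvGen.refl _
  | symm x y _ ih => exact ih.symm
  | trans x y z _ _ ih1 ih2 => exact ih1.trans _ _ _ ih2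

theorem comp_false (M : Set E) (D : Set (Set E)) : Comp M D (fun _ => False) 2 := by
  refine ⟨Bool, inferInstance, ⟨true, false, fun _ _ => False, fun _ _ _ => False,
    fun _ _ _ => False⟩, by simp, fun _ _ _ _ h => h, fun G _ => ⟨fun h => ?_, fun h => h.elim⟩⟩
  have := eqv_closed (r := SwitchingNetwork.Closed _ G Gᶜ) {true} (by
    intro v w h
    simp [SwitchingNetwork.Closed] at h) h
  simp at this

theorem comp_lit (M : Set E) (D : Set (Set E)) (e : E) : Comp M D (fun G => e ∈ G) 2 := by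
  refine ⟨Bool, inferInstance, ⟨true, false, fun _ _ => False, fun e' _ _ => e' = e,
    fun _ _ _ => False⟩, by simp, fun _ _ _ _ h => h, fun G _ => ⟨fun h => ?_, fun h => ?_⟩⟩
  · by_contra hc
    have := eqv_closed (r := SwitchingNetwork.Closed _ G Gᶜ) {true} (by
      intro v w h
      simp only [SwitchingNetwork.Closed, exists_false, and_false, or_false, false_or] at h
      obtain ⟨e', h1, h2⟩ := h
      exact absurd (h2 ▸ h1) hc) h
    simp at this
  · exact Relation.EqvGen.rel _ _ (Or.inr (Or.inl ⟨e, h, rfl⟩))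

/-- contacts of a disjoint union, with extra permanently closed contacts -/
def sumNet {W W' : Type} (N : SwitchingNetwork E W) (N' : SwitchingNetwork E W')
    (c : W ⊕ W' → W ⊕ W' → Prop) (a b : W ⊕ W') : SwitchingNetwork E (W ⊕ W') where
  source := a
  sink := b
  wire v w := c v w ∨ (∃ x y, v = Sum.inl x ∧ w = Sum.inl y ∧ N.wire x y) ∨
    ∃ x y, v = Sum.inr x ∧ w = Sum.inr y ∧ N'.wire x y
  pos e v w := (∃ x y, v = Sum.inl x ∧ w = Sum.inl y ∧ N.pos e x y) ∨
    ∃ x y, v = Sum.inr x ∧ w = Sum.inr y ∧ N'.pos e x y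
  neg e v w := (∃ x y, v = Sum.inl x ∧ w = Sum.inl y ∧ N.neg e x y) ∨
    ∃ x y, v = Sum.inr x ∧ w = Sum.inr y ∧ N'.neg e x y

variable {W W' : Type} {N : SwitchingNetwork E W} {N' : SwitchingNetwork E W'}
  {c : W ⊕ W' → W ⊕ W' → Prop} {a b : W ⊕ W'} {P F : Set E}

theorem sumNet_source : (sumNet N N' c a b).source = a := rfl

theorem sumNet_sink : (sumNet N N' c a b).sink = b := rfl

theorem sumNet_closed {v w : W ⊕ W'} : (sumNet N N' c a b).Closed P F v w ↔
    c v w ∨ (∃ x y, v = Sum.inl x ∧ w = Sum.inl y ∧ N.Closed P F x y) ∨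
      ∃ x y, v = Sum.inr x ∧ w = Sum.inr y ∧ N'.Closed P F x y := by
  constructor
  · rintro ((h | ⟨x, y, h1, h2, h3⟩ | ⟨x, y, h1, h2, h3⟩) |
      ⟨e, he, ⟨x, y, h1, h2, h3⟩ | ⟨x, y, h1, h2, h3⟩⟩ |
      ⟨e, he, ⟨x, y, h1, h2, h3⟩ | ⟨x, y, h1, h2, h3⟩⟩)
    · exact Or.inl h
    · exact Or.inr (Or.inl ⟨x, y, h1, h2, Or.inl h3⟩)
    · exact Or.inr (Or.inr ⟨x, y, h1, h2, Or.inl h3⟩)
    · exact Or.inr (Or.inl ⟨x, y, h1, h2, Or.inr (Or.inl ⟨e, he, h3⟩)⟩)
    · exact Or.inr (Or.inr ⟨x, y, h1, h2, Or.inr (Or.inl ⟨e, he, h3⟩)⟩)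
    · exact Or.inr (Or.inl ⟨x, y, h1, h2, Or.inr (Or.inr ⟨e, he, h3⟩)⟩)
    · exact Or.inr (Or.inr ⟨x, y, h1, h2, Or.inr (Or.inr ⟨e, he, h3⟩)⟩)
  · rintro (h | ⟨x, y, h1, h2, h3⟩ | ⟨x, y, h1, h2, h3⟩)
    · exact Or.inl (Or.inl h)
    · rcases h3 with h3 | ⟨e, he, h3⟩ | ⟨e, he, h3⟩
      · exact Or.inl (Or.inr (Or.inl ⟨x, y, h1, h2, h3⟩))
      · exact Or.inr (Or.inl ⟨e, he, Or.inl ⟨x, y, h1, h2, h3⟩⟩)
      · exact Or.inr (Or.inr ⟨e, he, Or.inl ⟨x, y, h1, h2, h3⟩⟩)
    · rcases h3 with h3 | ⟨e, he, h3⟩ | ⟨e, he, h3⟩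
      · exact Or.inl (Or.inr (Or.inr ⟨x, y, h1, h2, h3⟩))
      · exact Or.inr (Or.inl ⟨e, he, Or.inr ⟨x, y, h1, h2, h3⟩⟩)
      · exact Or.inr (Or.inr ⟨e, he, Or.inr ⟨x, y, h1, h2, h3⟩⟩)

theorem sumNet_avoids {M : Set E} (h : N.Avoids M) (h' : N'.Avoids M) :
    (sumNet N N' c a b).Avoids M := by
  rintro e he v w (⟨x, y, _, _, h3⟩ | ⟨x, y, _, _, h3⟩)
  · exact h e he _ _ h3
  · exact h' e he _ _ h3

theorem sumNet_inl {x y : W} (h : Relation.EqvGen (N.Closed P F) x y) :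
    Relation.EqvGen ((sumNet N N' c a b).Closed P F) (Sum.inl x) (Sum.inl y) :=
  eqv_map Sum.inl (fun v w h => sumNet_closed.mpr (Or.inr (Or.inl ⟨v, w, rfl, rfl, h⟩))) h

theorem sumNet_inr {x y : W'} (h : Relation.EqvGen (N'.Closed P F) x y) :
    Relation.EqvGen ((sumNet N N' c a b).Closed P F) (Sum.inr x) (Sum.inr y) :=
  eqv_map Sum.inr (fun v w h => sumNet_closed.mpr (Or.inr (Or.inr ⟨v, w, rfl, rfl, h⟩))) h

theorem eqv_iff {W : Type*} {r : W → W → Prop} {v w : W} (h : r v w) (s : W) :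
    Relation.EqvGen r s v ↔ Relation.EqvGen r s w :=
  ⟨fun h' => h'.trans _ _ _ (Relation.EqvGen.rel _ _ h),
    fun h' => h'.trans _ _ _ ((Relation.EqvGen.rel _ _ h).symm _ _)⟩

theorem Comp.or {M : Set E} {D : Set (Set E)} {f g : Set E → Prop} {m m' : ℕ}
    (hf : Comp M D f m) (hg : Comp M D g m') : Comp M D (fun G => f G ∨ g G) (m + m') := by
  obtain ⟨W, _, N, h1, h2, h3⟩ := hf
  obtain ⟨W', _, N', h1', h2', h3'⟩ := hg
  refine ⟨W ⊕ W', inferInstance, sumNet N N' (fun v w =>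
    (v = Sum.inl N.source ∧ w = Sum.inr N'.source) ∨ (v = Sum.inl N.sink ∧ w = Sum.inr N'.sink))
    (Sum.inl N.source) (Sum.inl N.sink), ?_, sumNet_avoids h2 h2', fun G hG => ?_⟩
  · rw [Fintype.card_sum]; omega
  constructor
  · intro h
    by_contra hc
    rw [not_or] at hc
    have n1 : ¬ Relation.EqvGen (N.Closed G Gᶜ) N.source N.sink := fun h => hc.1 ((h3 G hG).mp h)
    have n2 : ¬ Relation.EqvGen (N'.Closed G Gᶜ) N'.source N'.sink :=
      fun h => hc.2 ((h3' G hG).mp h)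
    have := eqv_closed {v | (∃ x, v = Sum.inl x ∧ Relation.EqvGen (N.Closed G Gᶜ) N.source x) ∨
      (∃ x, v = Sum.inr x ∧ Relation.EqvGen (N'.Closed G Gᶜ) N'.source x)} (fun v w hvw => ?_) h
    · simp only [sumNet_source, sumNet_sink, Set.mem_ofPred_eq, Sum.inl.injEq, exists_eq_left',
        reduceCtorEq, false_and, exists_false, or_false] at this
      exact n1 (this.mp (Relation.EqvGen.refl _))
    · rw [sumNet_closed] at hvw
      rcases hvw with (⟨rfl, rfl⟩ | ⟨rfl, rfl⟩) | ⟨x, y, rfl, rfl, h⟩ | ⟨x, y, rfl, rfl, h⟩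
      · simp [Relation.EqvGen.refl]
      · simp [n1, n2]
      · simp [eqv_iff h]
      · simp [eqv_iff h]
  · rintro (h | h)
    · exact sumNet_inl ((h3 G hG).mpr h)
    · have e1 := sumNet_inr (N := N) (N' := N') (c := fun v w =>
        (v = Sum.inl N.source ∧ w = Sum.inr N'.source) ∨ (v = Sum.inl N.sink ∧
          w = Sum.inr N'.sink)) (a := Sum.inl N.source) (b := Sum.inl N.sink)
        ((h3' G hG).mpr h)
      refine Relation.EqvGen.trans _ _ _ (Relation.EqvGen.rel _ _ (sumNet_closed.mpr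
        (Or.inl (Or.inl ⟨rfl, rfl⟩)))) (Relation.EqvGen.trans _ _ _ e1 ?_)
      exact (Relation.EqvGen.rel _ _ (sumNet_closed.mpr (Or.inl (Or.inr ⟨rfl, rfl⟩)))).symm

theorem Comp.and {M : Set E} {D : Set (Set E)} {f g : Set E → Prop} {m m' : ℕ}
    (hf : Comp M D f m) (hg : Comp M D g m') : Comp M D (fun G => f G ∧ g G) (m + m') := by
  obtain ⟨W, _, N, h1, h2, h3⟩ := hf
  obtain ⟨W', _, N', h1', h2', h3'⟩ := hg
  refine ⟨W ⊕ W', inferInstance, sumNet N N' (fun v w =>
    (v = Sum.inl N.sink ∧ w = Sum.inr N'.source))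
    (Sum.inl N.source) (Sum.inr N'.sink), ?_, sumNet_avoids h2 h2', fun G hG => ?_⟩
  · rw [Fintype.card_sum]; omega
  constructor
  · intro h
    by_contra hc
    by_cases hf : f G
    · have hng : ¬ g G := fun h => hc ⟨hf, h⟩
      have n2 : ¬ Relation.EqvGen (N'.Closed G Gᶜ) N'.source N'.sink :=
        fun h => hng ((h3' G hG).mp h)
      have := eqv_closed {v | (∃ x, v = Sum.inl x) ∨
        (∃ x, v = Sum.inr x ∧ Relation.EqvGen (N'.Closed G Gᶜ) N'.source x)} (fun v w hvw => ?_) h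
      · simp only [sumNet_source, sumNet_sink, Set.mem_ofPred_eq, Sum.inl.injEq, exists_eq',
          reduceCtorEq, false_and,
          exists_false, or_false, true_iff, false_or, Sum.inr.injEq, exists_eq_left'] at this
        exact n2 this
      · rw [sumNet_closed] at hvw
        rcases hvw with ⟨rfl, rfl⟩ | ⟨x, y, rfl, rfl, h⟩ | ⟨x, y, rfl, rfl, h⟩
        · simp [Relation.EqvGen.refl]
        · simp
        · simp [eqv_iff h]
    · have n1 : ¬ Relation.EqvGen (N.Closed G Gᶜ) N.source N.sink := fun h => hf ((h3 G hG).mp h)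
      have := eqv_closed {v | (∃ x, v = Sum.inl x ∧ Relation.EqvGen (N.Closed G Gᶜ) N.source x)}
        (fun v w hvw => ?_) h
      · simp only [sumNet_source, sumNet_sink, Set.mem_ofPred_eq, Sum.inl.injEq,
          exists_eq_left', reduceCtorEq, false_and,
          exists_false, iff_false] at this
        exact this (Relation.EqvGen.refl _)
      · rw [sumNet_closed] at hvw
        rcases hvw with ⟨rfl, rfl⟩ | ⟨x, y, rfl, rfl, h⟩ | ⟨x, y, rfl, rfl, h⟩
        · simp [n1]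
        · simp [eqv_iff h]
        · simp
  · rintro ⟨hf, hg⟩
    refine Relation.EqvGen.trans _ _ _ (sumNet_inl ((h3 G hG).mpr hf))
      (Relation.EqvGen.trans _ _ _ (Relation.EqvGen.rel _ _ (sumNet_closed.mpr
        (Or.inl ⟨rfl, rfl⟩))) (sumNet_inr ((h3' G hG).mpr hg)))

theorem comp_exists {M : Set E} {D : Set (Set E)} {ι : Type*} (s : Finset ι)
    {f : ι → Set E → Prop} {m : ℕ} (hf : ∀ i ∈ s, Comp M D (f i) m) :
    Comp M D (fun G => ∃ i ∈ s, f i G) (s.card * m + 2) := by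
  classical
  induction s using Finset.induction_on with
  | empty => simpa using comp_false M D
  | insert i s hi ih =>
    have h1 := (hf i (mem_insert_self _ _)).or (ih fun j hj => hf j (mem_insert_of_mem hj))
    rw [card_insert_of_notMem hi]
    refine (h1.mono ?_).congr ?_
    · ring_nf; omega
    · intro G _
      simp

end Pool.Agent.Lib.Pe46137
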