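import Mathlib

/-!
Resampling one coordinate of a random choice function, and the hiding lemma.
-/

namespace Pool.Agent.Lib.Pe46137

open Finset

variable {D A : Type*} [Fintype D] [DecidableEq D] [DecidableEq A]

/-- resampling one coordinate -/
theorem resample (S : D → Finset A) (e : D) (N : (D → A) → Finset A)
    (hN : ∀ σ y, N (Function.update σ e y) = N σ) :
    (S e).card * ((Fintype.piFinset S).filter (fun σ => σ e ∈ N σ)).card =
      ∑ σ ∈ Fintype.piFinset S, ((S e) ∩ (N σ)).card := by
  classical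
  have h1 : (S e).card * ((Fintype.piFinset S).filter (fun σ => σ e ∈ N σ)).card =
      (((Fintype.piFinset S) ×ˢ (S e)).filter (fun z => z.1 e ∈ N z.1)).card := by
    have : ((Fintype.piFinset S) ×ˢ (S e)).filter (fun z => z.1 e ∈ N z.1) =
        ((Fintype.piFinset S).filter (fun σ => σ e ∈ N σ)) ×ˢ (S e) := by
      ext z
      simp only [mem_filter, mem_product]
      tauto
    rw [this, card_product, mul_comm]
  have h2 : ∑ σ ∈ Fintype.piFinset S, ((S e) ∩ (N σ)).card =
      (((Fintype.piFinset S) ×ˢ (S e)).filter (fun z => z.2 ∈ N z.1)).card := by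
    rw [card_filter, sum_product]
    refine sum_congr rfl fun σ _ => ?_
    rw [← card_filter, ← filter_mem_eq_inter]
  rw [h1, h2]
  refine card_bij' (fun z _ => (Function.update z.1 e z.2, z.1 e))
    (fun z _ => (Function.update z.1 e z.2, z.1 e)) ?_ ?_ ?_ ?_
  · intro z hz
    simp only [mem_filter, mem_product, Fintype.mem_piFinset] at hz ⊢
    refine ⟨⟨fun a => ?_, hz.1.1 e⟩, ?_⟩
    · by_cases h : a = e
      · subst h; simpa using hz.1.2
      · simpa [Function.update_of_ne h] using hz.1.1 a
    · rw [hN]; exact hz.2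
  · intro z hz
    simp only [mem_filter, mem_product, Fintype.mem_piFinset] at hz ⊢
    refine ⟨⟨fun a => ?_, hz.1.1 e⟩, ?_⟩
    · by_cases h : a = e
      · subst h; simpa using hz.1.2
      · simpa [Function.update_of_ne h] using hz.1.1 a
    · rw [hN]; simpa using hz.2
  · intro z _
    simp
  · intro z _
    simp

/-- hiding: if the sets `S e` are pairwise disjoint, all of size at least `R`, and `N σ` meets
their union in at most `k` elements and does not depend on the coordinates outside `E`, then at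
most a `k / R` fraction of the choice functions `σ` hit `N σ` outside `E` -/
theorem hide_bound (S : D → Finset A) (hS : ∀ e e', e ≠ e' → Disjoint (S e) (S e')) {R k : ℕ}
    (hR : ∀ e, R ≤ (S e).card) (M : Finset A) (hSM : ∀ e, S e ⊆ M) (E : Finset D)
    (N : (D → A) → Finset A) (hN : ∀ e ∉ E, ∀ σ y, N (Function.update σ e y) = N σ)
    (hk : ∀ σ ∈ Fintype.piFinset S, (N σ ∩ M).card ≤ k) :
    R * ((Fintype.piFinset S).filter (fun σ => ∃ e ∉ E, σ e ∈ N σ)).card ≤
      k * (Fintype.piFinset S).card := by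
  classical
  have h1 : ((Fintype.piFinset S).filter (fun σ => ∃ e ∉ E, σ e ∈ N σ)) ⊆
      (univ.filter (fun e => e ∉ E)).biUnion
        (fun e => (Fintype.piFinset S).filter (fun σ => σ e ∈ N σ)) := by
    intro σ hσ
    simp only [mem_filter, mem_biUnion, mem_univ, true_and] at hσ ⊢
    obtain ⟨h, e, he, h'⟩ := hσ
    exact ⟨e, he, h, h'⟩
  calc R * ((Fintype.piFinset S).filter (fun σ => ∃ e ∉ E, σ e ∈ N σ)).card
      ≤ R * ∑ e ∈ univ.filter (fun e => e ∉ E),
          ((Fintype.piFinset S).filter (fun σ => σ e ∈ N σ)).card :=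
        Nat.mul_le_mul_left _ (le_trans (card_le_card h1) card_biUnion_le)
    _ ≤ ∑ e ∈ univ.filter (fun e => e ∉ E),
          ∑ σ ∈ Fintype.piFinset S, ((S e) ∩ (N σ)).card := by
        rw [mul_sum]
        refine sum_le_sum fun e he => ?_
        rw [← resample S e N (fun σ y => hN e (by simpa using he) σ y)]
        exact Nat.mul_le_mul_right _ (hR e)
    _ = ∑ σ ∈ Fintype.piFinset S, ∑ e ∈ univ.filter (fun e => e ∉ E), ((S e) ∩ (N σ)).card :=
        sum_comm
    _ ≤ ∑ σ ∈ Fintype.piFinset S, k := by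
        refine sum_le_sum fun σ hσ => le_trans ?_ (hk σ hσ)
        rw [← card_biUnion]
        · refine card_le_card ?_
          intro a ha
          simp only [mem_biUnion, mem_inter] at ha ⊢
          obtain ⟨e, _, h1, h2⟩ := ha
          exact ⟨h2, hSM e h1⟩
        · intro e _ e' _ hee'
          exact disjoint_of_subset_left inter_subset_left
            (disjoint_of_subset_right inter_subset_left (hS e e' hee'))
    _ = k * (Fintype.piFinset S).card := by rw [sum_const, smul_eq_mul, mul_comm]

/-- averaging over a finite family: outside of an exceptional set `Z` of at most a quarter of all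
choice functions there is one that is good for at least half the family -/
theorem hide_family {Fm : Type*} [Fintype Fm] [Nonempty Fm] (S : D → Finset A)
    (hS : ∀ e e', e ≠ e' → Disjoint (S e) (S e')) {R k : ℕ}
    (hR : ∀ e, R ≤ (S e).card) (hR0 : 0 < R) (hRk : 4 * k ≤ R) (M : Finset A)
    (hSM : ∀ e, S e ⊆ M) (Z : Finset (D → A)) (hZ : 4 * Z.card ≤ (Fintype.piFinset S).card)
    (E : Fm → Finset D) (N : Fm → (D → A) → Finset A)
    (hN : ∀ f, ∀ e ∉ E f, ∀ σ y, N f (Function.update σ e y) = N f σ)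
    (hk : ∀ f, ∀ σ ∈ Fintype.piFinset S, (N f σ ∩ M).card ≤ k) :
    ∃ σ ∈ Fintype.piFinset S, σ ∉ Z ∧ ∃ good : Finset Fm,
      (∀ f ∈ good, ∀ e ∉ E f, σ e ∉ N f σ) ∧ Fintype.card Fm ≤ 2 * good.card := by
  classical
  suffices h : ∃ σ ∈ (Fintype.piFinset S) \ Z,
      Fintype.card Fm ≤ 2 * (univ.filter (fun f => ∀ e ∉ E f, σ e ∉ N f σ)).card by
    obtain ⟨σ, h1, h2⟩ := h
    rw [mem_sdiff] at h1
    exact ⟨σ, h1.1, h1.2, _, fun f hf => (mem_filter.mp hf).2, h2⟩
  have hne : (Fintype.piFinset S).Nonempty := by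
    rw [Fintype.piFinset_nonempty]
    intro e
    rw [← card_pos]; exact lt_of_lt_of_le hR0 (hR e)
  have hPpos : 0 < (Fintype.piFinset S).card := card_pos.mpr hne
  by_contra hc
  push Not at hc
  -- total number of bad pairs
  have h1 : ∀ f, 4 * ((Fintype.piFinset S).filter (fun σ => ∃ e ∉ E f, σ e ∈ N f σ)).card ≤
      (Fintype.piFinset S).card := by
    intro f
    have := hide_bound S hS hR M hSM (E f) (N f) (hN f) (hk f)
    have h2 : R * (4 * ((Fintype.piFinset S).filter (fun σ => ∃ e ∉ E f, σ e ∈ N f σ)).card) ≤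
        R * (Fintype.piFinset S).card := by
      calc R * (4 * ((Fintype.piFinset S).filter (fun σ => ∃ e ∉ E f, σ e ∈ N f σ)).card)
          = 4 * (R * ((Fintype.piFinset S).filter (fun σ => ∃ e ∉ E f, σ e ∈ N f σ)).card) := by ring
        _ ≤ 4 * (k * (Fintype.piFinset S).card) := Nat.mul_le_mul_left _ this
        _ = (4 * k) * (Fintype.piFinset S).card := by ring
        _ ≤ R * (Fintype.piFinset S).card := Nat.mul_le_mul_right _ hRk
    exact Nat.le_of_mul_le_mul_left h2 hR0
  have h2 : ∑ f : Fm, 4 * ((Fintype.piFinset S).filter (fun σ => ∃ e ∉ E f, σ e ∈ N f σ)).card =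
      ∑ σ ∈ Fintype.piFinset S, 4 * (univ.filter (fun f => ∃ e ∉ E f, σ e ∈ N f σ)).card := by
    rw [← mul_sum, ← mul_sum]
    congr 1
    simp_rw [card_filter]
    exact sum_comm
  have h3 : ∀ σ ∈ (Fintype.piFinset S) \ Z, 2 * Fintype.card Fm ≤
      4 * (univ.filter (fun f => ∃ e ∉ E f, σ e ∈ N f σ)).card := by
    intro σ hσ
    have h4 := hc σ hσ
    have h5 : (univ.filter (fun f => ∀ e ∉ E f, σ e ∉ N f σ)).card +
        (univ.filter (fun f => ∃ e ∉ E f, σ e ∈ N f σ)).card = Fintype.card Fm := by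
      rw [← card_univ, ← card_filter_add_card_filter_not (s := univ)
        (fun f => ∀ e ∉ E f, σ e ∉ N f σ)]
      congr 2
      ext f
      simp
    omega
  have h4 : ∑ σ ∈ (Fintype.piFinset S) \ Z, 2 * Fintype.card Fm ≤
      ∑ σ ∈ Fintype.piFinset S, 4 * (univ.filter (fun f => ∃ e ∉ E f, σ e ∈ N f σ)).card :=
    le_trans (sum_le_sum h3) (sum_le_sum_of_subset sdiff_subset)
  rw [← h2, sum_const, smul_eq_mul] at h4
  have h5 : ∑ f : Fm, 4 * ((Fintype.piFinset S).filter (fun σ => ∃ e ∉ E f, σ e ∈ N f σ)).card ≤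
      ∑ _f : Fm, (Fintype.piFinset S).card := sum_le_sum fun f _ => h1 f
  rw [sum_const, card_univ, smul_eq_mul] at h5
  have h6 : (Fintype.piFinset S).card ≤ ((Fintype.piFinset S) \ Z).card + Z.card := by
    have := le_card_sdiff Z (Fintype.piFinset S)
    omega
  have h7 : 0 < Fintype.card Fm := Fintype.card_pos
  have h8 : ((Fintype.piFinset S) \ Z).card * (2 * Fintype.card Fm) ≤
      Fintype.card Fm * (Fintype.piFinset S).card := le_trans h4 h5
  have h9 : 3 * (Fintype.piFinset S).card ≤ 4 * ((Fintype.piFinset S) \ Z).card := by omega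
  have h10 : 3 * (Fintype.piFinset S).card * Fintype.card Fm ≤
      2 * ((Fintype.piFinset S).card * Fintype.card Fm) := by
    calc 3 * (Fintype.piFinset S).card * Fintype.card Fm
        ≤ 4 * ((Fintype.piFinset S) \ Z).card * Fintype.card Fm := Nat.mul_le_mul_right _ h9
      _ = 2 * (((Fintype.piFinset S) \ Z).card * (2 * Fintype.card Fm)) := by ring
      _ ≤ 2 * (Fintype.card Fm * (Fintype.piFinset S).card) := Nat.mul_le_mul_left _ h8
      _ = 2 * ((Fintype.piFinset S).card * Fintype.card Fm) := by ring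
  have h11 : 0 < (Fintype.piFinset S).card * Fintype.card Fm := Nat.mul_pos hPpos h7
  have h12 : 3 * (Fintype.piFinset S).card * Fintype.card Fm =
      3 * ((Fintype.piFinset S).card * Fintype.card Fm) := by ring
  omega

/-- few choice functions have two coordinates whose values collide -/
theorem collide_bound (S : D → Finset A) {R c : ℕ} (hR : ∀ e, R ≤ (S e).card)
    (N : D → (D → A) → Finset A)
    (hN : ∀ e σ y, N e (Function.update σ e y) = N e σ)
    (hc : ∀ e, ∀ σ ∈ Fintype.piFinset S, (N e σ).card ≤ c) :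
    R * ((Fintype.piFinset S).filter (fun σ => ∃ e, σ e ∈ N e σ)).card ≤
      Fintype.card D * c * (Fintype.piFinset S).card := by
  classical
  have h1 : ((Fintype.piFinset S).filter (fun σ => ∃ e, σ e ∈ N e σ)) ⊆
      (univ : Finset D).biUnion
        (fun e => (Fintype.piFinset S).filter (fun σ => σ e ∈ N e σ)) := by
    intro σ hσ
    simp only [mem_filter, mem_biUnion, mem_univ, true_and] at hσ ⊢
    obtain ⟨h, e, h'⟩ := hσ
    exact ⟨e, h, h'⟩
  calc R * ((Fintype.piFinset S).filter (fun σ => ∃ e, σ e ∈ N e σ)).card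
      ≤ R * ∑ e : D, ((Fintype.piFinset S).filter (fun σ => σ e ∈ N e σ)).card :=
        Nat.mul_le_mul_left _ (le_trans (card_le_card h1) card_biUnion_le)
    _ ≤ ∑ e : D, ∑ σ ∈ Fintype.piFinset S, ((S e) ∩ (N e σ)).card := by
        rw [mul_sum]
        refine sum_le_sum fun e _ => ?_
        rw [← resample S e (N e) (fun σ y => hN e σ y)]
        exact Nat.mul_le_mul_right _ (hR e)
    _ ≤ ∑ _e : D, ∑ _σ ∈ Fintype.piFinset S, c := by
        refine sum_le_sum fun e _ => sum_le_sum fun σ hσ => ?_
        exact le_trans (card_le_card inter_subset_right) (hc e σ hσ)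
    _ = Fintype.card D * c * (Fintype.piFinset S).card := by
        rw [sum_const, sum_const, smul_eq_mul, smul_eq_mul, card_univ]; ring

end Pool.Agent.Lib.Pe46137
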