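import Mathlib

/-!
A large family of almost disjoint paths, from polynomials of small degree.
-/

namespace Pool.Agent.Lib.Pe46137

open Finset Polynomial

/-- the path of a polynomial: position `i` of the path is the point `(i, P(i))` -/
noncomputable def pathOf (l q : ℕ) (P : (ZMod q)[X]) : Fin l ↪ Fin l × ZMod q :=
  ⟨fun i => (i, P.eval ((i : ℕ) : ZMod q)), fun _ _ h => (Prod.ext_iff.mp h).1⟩

theorem family {m l q : ℕ} [Fact q.Prime] (hlq : l ≤ q) (f f' : Polynomial.degreeLT (ZMod q) m)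
    (hne : f ≠ f') (S S' : Finset (Fin l))
    (h : S.map (pathOf l q f.1) = S'.map (pathOf l q f'.1)) : S.card < m := by
  by_contra hc
  push Not at hc
  apply hne
  apply Subtype.ext
  classical
  have hinj : Set.InjOn (fun i : Fin l => ((i : ℕ) : ZMod q)) S := by
    intro i _ j _ hij
    have h1 : ((i : ℕ) : ZMod q) = ((j : ℕ) : ZMod q) := hij
    rw [ZMod.natCast_eq_natCast_iff'] at h1
    rw [Nat.mod_eq_of_lt (lt_of_lt_of_le i.2 hlq), Nat.mod_eq_of_lt (lt_of_lt_of_le j.2 hlq)] at h1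
    exact Fin.ext h1
  have hcard : (S.image (fun i : Fin l => ((i : ℕ) : ZMod q))).card = S.card :=
    card_image_of_injOn hinj
  refine Polynomial.eq_of_degree_sub_lt_of_eval_finset_eq
    (S.image (fun i : Fin l => ((i : ℕ) : ZMod q))) ?_ ?_
  · rw [hcard]
    refine lt_of_lt_of_le ?_ (by exact_mod_cast hc : (m : WithBot ℕ) ≤ S.card)
    have h1 : f.1 - f'.1 ∈ Polynomial.degreeLT (ZMod q) m := Submodule.sub_mem _ f.2 f'.2
    exact Polynomial.mem_degreeLT.mp h1
  · intro x hx
    obtain ⟨i, hi, rfl⟩ := mem_image.mp hx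
    have h1 : pathOf l q f.1 i ∈ S'.map (pathOf l q f'.1) := by
      rw [← h]; exact mem_map_of_mem _ hi
    obtain ⟨j, _, hj⟩ := mem_map.mp h1
    have h2 := Prod.ext_iff.mp hj
    simp only [pathOf] at h2
    obtain ⟨h3, h4⟩ := h2
    subst h3
    exact h4.symm

theorem card_family {m q : ℕ} [Fact q.Prime] :
    Nat.card (Polynomial.degreeLT (ZMod q) m) = q ^ m := by
  rw [Nat.card_congr (Polynomial.degreeLTEquiv (ZMod q) m).toEquiv, Nat.card_eq_fintype_card]
  simp [ZMod.card]

end Pool.Agent.Lib.Pe46137
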