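import Pool.Agent.Lib.Pe46137.Dag
import Pool.Agent.Lib.Pe46137.Core
import Pool.Agent.Lib.Pe46137.Family
import Pool.Agent.Lib.Pe46137.Hiding

/-!
The parametric lower bound.
-/

namespace Pool.Agent.Lib.Pe46137

open Finset

set_option linter.unusedSectionVars false

/-- the clusters: the points of the `l × q` grid, a source cluster and a sink cluster -/
abbrev Cl (l q : ℕ) := (Fin l × ZMod q) ⊕ Bool

/-- the layer of a cluster -/
def lay {l q : ℕ} : Cl l q → ℕ
  | Sum.inl p => (p.1 : ℕ) + 1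
  | Sum.inr true => 0
  | Sum.inr false => l + 1

/-- ordered pairs of clusters in consecutive layers -/
abbrev Pr (l q : ℕ) := {e : Cl l q × Cl l q // lay e.2 = lay e.1 + 1}

theorem card_Cl (l q : ℕ) [NeZero q] : Fintype.card (Cl l q) = l * q + 2 := by
  simp [Cl, ZMod.card]

/-- the clusters visited by a path -/
def walk {l q : ℕ} (p : Fin l ↪ Fin l × ZMod q) (i : ℕ) : Cl l q :=
  if i = 0 then Sum.inr true else
    if h : i - 1 < l then Sum.inl (p ⟨i - 1, h⟩) else Sum.inr false

theorem walk_zero {l q : ℕ} (p : Fin l ↪ Fin l × ZMod q) : walk p 0 = Sum.inr true := rfl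

theorem walk_succ {l q : ℕ} (p : Fin l ↪ Fin l × ZMod q) {i : ℕ} (h : i < l) :
    walk p (i + 1) = Sum.inl (p ⟨i, h⟩) := by
  unfold walk
  simp [h]

theorem walk_last {l q : ℕ} (p : Fin l ↪ Fin l × ZMod q) {i : ℕ} (h : l ≤ i) :
    walk p (i + 1) = Sum.inr false := by
  unfold walk
  simp; omega

theorem lay_walk {l q : ℕ} (P : Polynomial (ZMod q)) {i : ℕ} (hi : i ≤ l + 1) :
    lay (walk (pathOf l q P) i) = i := by
  rcases Nat.eq_zero_or_pos i with h | h
  · subst h; rfl
  · obtain ⟨i, rfl⟩ : ∃ i', i = i' + 1 := ⟨i - 1, by omega⟩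
    by_cases hi' : i < l
    · rw [walk_succ _ hi']; rfl
    · rw [walk_last _ (by omega)]
      simp only [lay]; omega

/-- the cut extended to all clusters -/
def hat {l q : ℕ} (x : Fin l × ZMod q → Bool) : Cl l q → Bool := Sum.elim x id

theorem hat_walk {l q : ℕ} (p : Fin l ↪ Fin l × ZMod q) (x : Fin l × ZMod q → Bool) (i : ℕ) :
    hat x (walk p i) = ext (fun j => x (p j)) i := by
  rcases Nat.eq_zero_or_pos i with h | h
  · subst h; rfl
  · obtain ⟨i, rfl⟩ : ∃ i', i = i' + 1 := ⟨i - 1, by omega⟩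
    by_cases hi : i < l
    · rw [walk_succ p hi, ext_succ _ hi]; rfl
    · rw [walk_last p (by omega), ext_last _ (by omega)]; rfl

variable {n : ℕ} {W : Type*} [Fintype W]

theorem reach_of_walk {l q : ℕ} (p : Fin l ↪ Fin l × ZMod q) (cl : Fin n → Cl l q)
    (ty : Fin n → Bool) {s t : Fin n} (hs : cl s = Sum.inr true) (hs' : ty s = false)
    (ht : cl t = Sum.inr false) (ht' : ty t = true) (G : Set (Fin n × Fin n))
    (hG1 : ∀ a b, Step cl ty a b → (a, b) ∈ G)
    (hG2 : ∀ i ≤ l, ∃ a b, (cl a = walk p i ∧ ty a = true) ∧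
      (cl b = walk p (i + 1) ∧ ty b = false) ∧ (a, b) ∈ G) :
    Reachable G s t := by
  have mono : ∀ a b, cl a = cl b → ty a = false → ty b = true → Reachable G a b := by
    intro a b h1 h2 h3
    have h4 := reach_step cl ty b _ a h1 (ord_lt_of_ty h2 h3).le rfl
    exact Relation.ReflTransGen.mono hG1 _ _ h4
  have key : ∀ i ≤ l + 1, ∀ v, cl v = walk p i → ty v = true → Reachable G s v := by
    intro i
    induction i with
    | zero =>
      intro _ v hv hv'
      exact mono s v (by rw [hs, hv, walk_zero]) hs' hv'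
    | succ i ih =>
      intro hi v hv hv'
      obtain ⟨a, b, ⟨ha, ha'⟩, ⟨hb, hb'⟩, hab⟩ := hG2 i (by omega)
      exact ((ih (by omega) a ha ha').tail hab).trans (mono b v (by rw [hb, hv]) hb' hv')
  exact key (l + 1) le_rfl t (by rw [ht, walk_last p le_rfl]) ht'

theorem not_reach_of_cut {l q : ℕ} (cl : Fin n → Cl l q) {s t : Fin n} (hs : cl s = Sum.inr true)
    (ht : cl t = Sum.inr false) (G : Set (Fin n × Fin n)) (x : Fin l × ZMod q → Bool)
    (hG : ∀ a b, (a, b) ∈ G → hat x (cl a) = true → hat x (cl b) = true) : ¬ Reachable G s t := by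
  intro h
  have key : ∀ v, Reachable G s v → hat x (cl v) = true := by
    intro v hv
    induction hv with
    | refl => rw [hs]; rfl
    | tail _ hbc ih => exact hG _ _ hbc ih
  have := key t h
  rw [ht] at this
  exact absurd this (by simp [hat])

open Classical in
theorem param {d l q : ℕ} [Fact q.Prime] (hd : 2 ≤ d) (hl : 2 ^ d ≤ l) (hlq : l ≤ q)
    (cl : Fin n → Cl l q) (ty : Fin n → Bool) {s t : Fin n} (hs : cl s = Sum.inr true)
    (hs' : ty s = false) (ht : cl t = Sum.inr false) (ht' : ty t = true)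
    (M : Finset (Fin n × Fin n)) {Δ R k : ℕ}
    (hout : ∀ v, (M.filter (fun e => e.1 = v)).card ≤ Δ)
    (hin : ∀ v, (M.filter (fun e => e.2 = v)).card ≤ Δ) (hR0 : 0 < R) (hRk : 4 * k ≤ R)
    (hRn : 8 * (l * q + 2) ^ 3 * Δ ≤ R)
    (hM : ∀ u w, R ≤ (M.filter (fun e => (cl e.1 = u ∧ ty e.1 = true) ∧
      (cl e.2 = w ∧ ty e.2 = false))).card)
    (N : SwitchingNetwork (Fin n × Fin n) W)
    (hN : ∀ G : Set (Fin n × Fin n), SparseDag G →
      G \ M = {a | Step cl ty a.1 a.2} \ M → (N.Connects G Gᶜ ↔ Reachable G s t))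
    (hneg : ∀ G : Set (Fin n × Fin n), SparseDag G → G \ M = {a | Step cl ty a.1 a.2} \ M →
      Reachable G s t →
      ∃ F ⊆ Gᶜ, (F ∩ (M : Set (Fin n × Fin n))).ncard ≤ k ∧ N.Connects G F) :
    (q : ℝ) ^ (d - 1) ≤ 2 * ((Fintype.card W : ℝ) ^ 2 * (9 * l + 1) ^ d) := by
  have hq0 : NeZero q := ⟨(Fact.out : q.Prime).ne_zero⟩
  have hl1 : 1 ≤ l := le_trans Nat.one_le_two_pow hl
  set m := l * q + 2 with hm
  have hmC : Fintype.card (Cl l q) = m := card_Cl l q
  -- the candidate arcs of every pair of clusters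
  set S : Pr l q → Finset (Fin n × Fin n) := fun e =>
    M.filter (fun a => (cl a.1 = e.1.1 ∧ ty a.1 = true) ∧ (cl a.2 = e.1.2 ∧ ty a.2 = false))
    with hS
  have hScard : ∀ e, R ≤ (S e).card := fun e => hM e.1.1 e.1.2
  have hS1 : ∀ e, ∀ a ∈ S e, (cl a.1 = e.1.1 ∧ ty a.1 = true) ∧
      (cl a.2 = e.1.2 ∧ ty a.2 = false) := fun e a ha => (mem_filter.mp ha).2
  have hSM : ∀ e, S e ⊆ M := fun e => filter_subset _ _
  have hSdisj : ∀ e e', e ≠ e' → Disjoint (S e) (S e') := by
    intro e e' hne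
    rw [Finset.disjoint_left]
    intro a ha ha'
    apply hne
    obtain ⟨⟨h1, _⟩, ⟨h2, _⟩⟩ := hS1 e a ha
    obtain ⟨⟨h3, _⟩, ⟨h4, _⟩⟩ := hS1 e' a ha'
    exact Subtype.ext (Prod.ext (h1.symm.trans h3) (h2.symm.trans h4))
  -- choice functions with colliding arcs are rare
  set Nc : Pr l q → (Pr l q → Fin n × Fin n) → Finset (Fin n × Fin n) := fun e σ =>
    M.filter (fun a => ∃ e' : Pr l q, e' ≠ e ∧ ((e'.1.1 = e.1.1 ∧ a.1 = (σ e').1) ∨
      (e'.1.2 = e.1.2 ∧ a.2 = (σ e').2))) with hNc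
  have hNc1 : ∀ e σ y, Nc e (Function.update σ e y) = Nc e σ := by
    intro e σ y
    simp only [hNc]
    congr 1
    funext a
    refine propext (exists_congr fun e' => and_congr_right fun he' => ?_)
    rw [Function.update_of_ne he']
  have hNc2 : ∀ e σ, (Nc e σ).card ≤ 2 * m * Δ := by
    intro e σ
    set T1 : Finset (Fin n) := (univ.filter (fun e' : Pr l q => e'.1.1 = e.1.1)).image
      (fun e' => (σ e').1) with hT1
    set T2 : Finset (Fin n) := (univ.filter (fun e' : Pr l q => e'.1.2 = e.1.2)).image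
      (fun e' => (σ e').2) with hT2
    have hsub : Nc e σ ⊆ (T1.biUnion fun v => M.filter (fun e => e.1 = v)) ∪
        (T2.biUnion fun v => M.filter (fun e => e.2 = v)) := by
      intro a ha
      simp only [hNc, mem_filter] at ha
      obtain ⟨haM, e', _, h | h⟩ := ha
      · refine mem_union_left _ (mem_biUnion.mpr ⟨a.1, ?_, mem_filter.mpr ⟨haM, rfl⟩⟩)
        exact mem_image.mpr ⟨e', by simp [h.1], h.2.symm⟩
      · refine mem_union_right _ (mem_biUnion.mpr ⟨a.2, ?_, mem_filter.mpr ⟨haM, rfl⟩⟩)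
        exact mem_image.mpr ⟨e', by simp [h.1], h.2.symm⟩
    have c1 : T1.card ≤ m := by
      refine le_trans card_image_le ?_
      rw [← hmC, ← card_univ]
      refine card_le_card_of_injOn (fun e' => e'.1.2) (fun _ _ => mem_univ _) ?_
      intro x hx y hy hxy
      simp only [coe_filter, mem_univ, true_and, Set.mem_ofPred_eq] at hx hy
      exact Subtype.ext (Prod.ext (hx.trans hy.symm) hxy)
    have c2 : T2.card ≤ m := by
      refine le_trans card_image_le ?_
      rw [← hmC, ← card_univ]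
      refine card_le_card_of_injOn (fun e' => e'.1.1) (fun _ _ => mem_univ _) ?_
      intro x hx y hy hxy
      simp only [coe_filter, mem_univ, true_and, Set.mem_ofPred_eq] at hx hy
      exact Subtype.ext (Prod.ext hxy (hx.trans hy.symm))
    refine le_trans (card_le_card hsub) (le_trans (card_union_le _ _) ?_)
    have d1 := card_biUnion_le_card_mul T1 (fun v => M.filter (fun e => e.1 = v)) Δ
      (fun v _ => hout v)
    have d2 := card_biUnion_le_card_mul T2 (fun v => M.filter (fun e => e.2 = v)) Δ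
      (fun v _ => hin v)
    calc _ ≤ T1.card * Δ + T2.card * Δ := Nat.add_le_add d1 d2
      _ ≤ m * Δ + m * Δ := by gcongr
      _ = 2 * m * Δ := by ring
  have hPr : Fintype.card (Pr l q) ≤ m * m := by
    have := Fintype.card_subtype_le (fun e : Cl l q × Cl l q => lay e.2 = lay e.1 + 1)
    rwa [Fintype.card_prod, hmC] at this
  set Z := (Fintype.piFinset S).filter (fun σ => ∃ e, σ e ∈ Nc e σ) with hZ
  have hZcard : 4 * Z.card ≤ (Fintype.piFinset S).card := by
    have h1 := collide_bound S hScard Nc hNc1 (c := 2 * m * Δ) (fun e σ _ => hNc2 e σ)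
    have h2 : R * (4 * Z.card) ≤ R * (Fintype.piFinset S).card := by
      calc R * (4 * Z.card) = 4 * (R * Z.card) := by ring
        _ ≤ 4 * (Fintype.card (Pr l q) * (2 * m * Δ) * (Fintype.piFinset S).card) :=
            Nat.mul_le_mul_left _ h1
        _ ≤ 4 * ((m * m) * (2 * m * Δ) * (Fintype.piFinset S).card) := by gcongr
        _ = (8 * m ^ 3 * Δ) * (Fintype.piFinset S).card := by ring
        _ ≤ R * (Fintype.piFinset S).card := Nat.mul_le_mul_right _ hRn
    exact Nat.le_of_mul_le_mul_left h2 hR0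
  -- the negations used by the network
  have hsel : ∀ G : Set (Fin n × Fin n), ∃ F : Finset (Fin n × Fin n), (F ∩ M).card ≤ k ∧
      (SparseDag G → G \ M = {a | Step cl ty a.1 a.2} \ M → Reachable G s t →
        (F : Set (Fin n × Fin n)) ⊆ Gᶜ ∧ N.Connects G F) := by
    intro G
    by_cases hG : SparseDag G ∧ G \ M = {a | Step cl ty a.1 a.2} \ M ∧ Reachable G s t
    · obtain ⟨F, hF, hk, hc⟩ := hneg G hG.1 hG.2.1 hG.2.2
      refine ⟨F.toFinset, ?_, fun _ _ _ => ⟨by simpa using hF, by simpa using hc⟩⟩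
      rw [← Set.ncard_coe_finset]
      simpa using hk
    · exact ⟨∅, by simp, fun h1 h2 h3 => absurd ⟨h1, h2, h3⟩ hG⟩
  choose Fs hFs1 hFs2 using hsel
  -- the family of paths
  have hfin : Finite (Polynomial.degreeLT (ZMod q) (d - 1)) :=
    Finite.of_equiv _ (Polynomial.degreeLTEquiv (ZMod q) (d - 1)).toEquiv.symm
  have hfin' : Fintype (Polynomial.degreeLT (ZMod q) (d - 1)) := Fintype.ofFinite _
  set Fm := Polynomial.degreeLT (ZMod q) (d - 1) with hFm
  set p : Fm → (Fin l ↪ Fin l × ZMod q) := fun f => pathOf l q f.1 with hp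
  set E : Fm → Finset (Pr l q) := fun f =>
    univ.filter (fun e => ∃ i ≤ l, e.1 = (walk (p f) i, walk (p f) (i + 1))) with hE
  set G : Fm → (Pr l q → Fin n × Fin n) → Set (Fin n × Fin n) := fun f σ =>
    {a | Step cl ty a.1 a.2 ∨ ∃ e ∈ E f, σ e = a} with hG
  obtain ⟨σ, hσP, hσZ, good, hgoodp, hgood⟩ := hide_family S hSdisj hScard hR0 hRk M hSM Z hZcard E
    (fun f σ => Fs (G f σ)) (by
      intro f e he σ y
      have : G f (Function.update σ e y) = G f σ := by
        ext a
        simp only [hG, Set.mem_ofPred_eq]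
        refine or_congr Iff.rfl (exists_congr fun e' => and_congr_right fun he' => ?_)
        rw [Function.update_of_ne (fun h : e' = e => he (by rw [← h]; exact he'))]
      simp only [this]) (fun f σ _ => hFs1 _)
  have hσ : ∀ e, σ e ∈ S e := Fintype.mem_piFinset.mp hσP
  -- distinct tails and heads
  have hdist : ∀ e, σ e ∉ Nc e σ := by
    intro e he
    exact hσZ (mem_filter.mpr ⟨hσP, e, he⟩)
  have hsparse : ∀ G' : Set (Fin n × Fin n),
      (∀ a b, (a, b) ∈ G' → Step cl ty a b ∨ (a, b) ∈ {a | ∃ e, σ e = a}) → SparseDag G' := by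
    intro G' hG'
    refine sparse_of_distinct cl ty lay {a | ∃ e, σ e = a} ?_ ?_ ?_ G' hG'
    · rintro a b b' ⟨e, he⟩ ⟨e', he'⟩
      by_cases hee : e' = e
      · rw [hee, he] at he'; exact (Prod.ext_iff.mp he').2
      · exfalso
        have h1 := (hS1 e _ (hσ e)).1.1
        have h2 := (hS1 e' _ (hσ e')).1.1
        rw [he] at h1
        rw [he'] at h2
        refine hdist e (mem_filter.mpr ⟨hSM e (hσ e), e', hee, Or.inl ⟨h2.symm.trans h1, ?_⟩⟩)
        rw [he, he']
    · rintro a a' b ⟨e, he⟩ ⟨e', he'⟩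
      by_cases hee : e' = e
      · rw [hee, he] at he'; exact (Prod.ext_iff.mp he').1
      · exfalso
        have h1 := (hS1 e _ (hσ e)).2.1
        have h2 := (hS1 e' _ (hσ e')).2.1
        rw [he] at h1
        rw [he'] at h2
        refine hdist e (mem_filter.mpr ⟨hSM e (hσ e), e', hee, Or.inr ⟨h2.symm.trans h1, ?_⟩⟩)
        rw [he, he']
    · rintro a b ⟨e, he⟩
      have h1 := hS1 e _ (hσ e)
      rw [he] at h1
      simp only at h1
      rw [h1.1.1, h1.2.1]
      exact e.2
  -- the path inputs are accepted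
  have hGsp : ∀ f, SparseDag (G f σ) := by
    intro f
    refine hsparse _ ?_
    rintro a b (h | ⟨e, _, he⟩)
    · exact Or.inl h
    · exact Or.inr ⟨e, he⟩
  have hout' : ∀ G' : Set (Fin n × Fin n), (∀ a, Step cl ty a.1 a.2 → a ∈ G') →
      (∀ a ∈ G', Step cl ty a.1 a.2 ∨ ∃ e, σ e = a) →
      G' \ M = {a | Step cl ty a.1 a.2} \ M := by
    intro G' h1 h2
    ext a
    simp only [Set.mem_sdiff, Set.mem_ofPred_eq, mem_coe]
    constructor
    · rintro ⟨ha, haM⟩
      rcases h2 a ha with h | ⟨e, he⟩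
      · exact ⟨h, haM⟩
      · exact absurd (he ▸ hSM e (hσ e)) haM
    · rintro ⟨ha, haM⟩
      exact ⟨h1 a ha, haM⟩
  have hGout : ∀ f, G f σ \ M = {a | Step cl ty a.1 a.2} \ M := by
    intro f
    refine hout' _ (fun a h => Or.inl h) ?_
    rintro a (h | ⟨e, _, he⟩)
    · exact Or.inl h
    · exact Or.inr ⟨e, he⟩
  have hreach : ∀ f, Reachable (G f σ) s t := by
    intro f
    refine reach_of_walk (p f) cl ty hs hs' ht ht' _ (fun a b h => Or.inl h) ?_
    intro i hi
    have hlay : lay (walk (p f) (i + 1)) = lay (walk (p f) i) + 1 := by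
      simp only [hp]
      rw [lay_walk _ (by omega), lay_walk _ (by omega)]
    set e : Pr l q := ⟨(walk (p f) i, walk (p f) (i + 1)), hlay⟩ with he
    have h1 := hS1 e (σ e) (hσ e)
    refine ⟨(σ e).1, (σ e).2, h1.1, h1.2, Or.inr ⟨e, ?_, rfl⟩⟩
    simp only [hE, mem_filter, mem_univ, true_and]
    exact ⟨i, hi, rfl⟩
  -- the cut inputs
  set Gx : (Fin l × ZMod q → Bool) → Set (Fin n × Fin n) := fun x =>
    {a | Step cl ty a.1 a.2 ∨
      ∃ e : Pr l q, σ e = a ∧ ¬ (hat x e.1.1 = true ∧ hat x e.1.2 = false)}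
    with hGx
  have hGxsp : ∀ x, SparseDag (Gx x) := by
    intro x
    refine hsparse _ ?_
    rintro a b (h | ⟨e, he, _⟩)
    · exact Or.inl h
    · exact Or.inr ⟨e, he⟩
  have hGxout : ∀ x, Gx x \ M = {a | Step cl ty a.1 a.2} \ M := by
    intro x
    refine hout' _ (fun a h => Or.inl h) ?_
    rintro a (h | ⟨e, he, _⟩)
    · exact Or.inl h
    · exact Or.inr ⟨e, he⟩
  have hGx0 : ∀ x, ¬ Reachable (Gx x) s t := by
    intro x
    refine not_reach_of_cut cl hs ht _ x ?_
    intro a b hab ha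
    rcases hab with h | ⟨e, he, hcr⟩
    · have h' := h.1
      simp only at h'
      rw [← h']; exact ha
    · have h1 := hS1 e (σ e) (hσ e)
      rw [he] at h1
      simp only at h1
      rw [h1.2.1]
      rw [h1.1.1] at ha
      by_contra hc
      exact hcr ⟨ha, by simpa using hc⟩
  set J : W → (Fin l × ZMod q → Bool) → ℝ := fun v x =>
    if Relation.EqvGen (N.Closed (Gx x) (Gx x)ᶜ) N.source v then 1 else 0 with hJ
  have hJstep : ∀ v w x, N.Closed (Gx x) (Gx x)ᶜ v w → J v x = J w x := by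
    intro v w x h
    have : Relation.EqvGen (N.Closed (Gx x) (Gx x)ᶜ) N.source v ↔
        Relation.EqvGen (N.Closed (Gx x) (Gx x)ᶜ) N.source w :=
      ⟨fun h' => h'.trans _ _ _ (Relation.EqvGen.rel _ _ h),
        fun h' => h'.trans _ _ _ ((Relation.EqvGen.rel _ _ h).symm _ _)⟩
    simp only [hJ, this]
  have hJsq : ∀ v x, J v x * J v x ≤ 1 := by
    intro v x
    simp only [hJ]
    split_ifs <;> norm_num
  have hJs : ∀ x, J N.source x = 1 := fun x => if_pos (Relation.EqvGen.refl _)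
  have hJt : ∀ x, J N.sink x = 0 := fun x =>
    if_neg (fun h => hGx0 x ((hN (Gx x) (hGxsp x) (hGxout x)).mp h))
  have hst : ∀ f : good, Relation.EqvGen (N.Closed (G f.1 σ) (Fs (G f.1 σ))) N.source N.sink :=
    fun f => (hFs2 _ (hGsp f.1) (hGout f.1) (hreach f.1)).2
  have hdis : ∀ f f' : good, f ≠ f' → ∀ S S' : Finset (Fin l),
      S.map (p f.1) = S'.map (p f'.1) → S.card + 2 ≤ d := by
    intro f f' hne S S' h
    have := family (m := d - 1) hlq f.1 f'.1 (fun h => hne (Subtype.ext h)) S S' h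
    omega
  have hL : ∀ (f : good) (v w : W), N.Closed (G f.1 σ) (Fs (G f.1 σ)) v w →
      ∃ i ≤ l, ∀ x, ¬ Cross i (fun j => x (p f.1 j)) → J v x = J w x := by
    intro f v w hvw
    have hfgood : ∀ e ∉ E f.1, σ e ∉ Fs (G f.1 σ) := hgoodp f.1 f.2
    rcases hvw with h | ⟨a, ha, h⟩ | ⟨a, ha, h⟩
    · exact ⟨0, by omega, fun x _ => hJstep v w x (Or.inl h)⟩
    · rcases ha with ha | ⟨e, he, hea⟩
      · exact ⟨0, by omega, fun x _ => hJstep v w x (Or.inr (Or.inl ⟨a, Or.inl ha, h⟩))⟩
      · simp only [hE, mem_filter, mem_univ, true_and] at he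
        obtain ⟨i, hi, hei⟩ := he
        refine ⟨i, hi, fun x hx => hJstep v w x (Or.inr (Or.inl ⟨a, Or.inr ⟨e, hea, ?_⟩, h⟩))⟩
        rw [hei]
        simp only
        rw [hat_walk, hat_walk]
        exact hx
    · refine ⟨0, by omega, fun x _ => hJstep v w x (Or.inr (Or.inr ⟨a, ?_, h⟩))⟩
      have hnot : a ∉ G f.1 σ := (hFs2 _ (hGsp f.1) (hGout f.1) (hreach f.1)).1 ha
      intro hax
      rcases hax with h' | ⟨e, he, _⟩
      · exact hnot (Or.inl h')
      · by_cases heE : e ∈ E f.1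
        · exact hnot (Or.inr ⟨e, heE, he⟩)
        · exact hfgood e heE (by rw [he]; exact ha)
  have hcore := core (W := W) hd hl (fun f : {x // x ∈ good} => p f.1) hdis J hJsq
    (fun f => N.Closed (G f.1 σ) (Fs (G f.1 σ))) hL hJs hJt hst
  have hcardF : Fintype.card Fm = q ^ (d - 1) := by
    rw [← Nat.card_eq_fintype_card]; exact card_family
  rw [hcardF] at hgood
  have h1 : ((q ^ (d - 1) : ℕ) : ℝ) ≤ ((2 * good.card : ℕ) : ℝ) := Nat.cast_le.mpr hgood
  push_cast at h1
  rw [Fintype.card_coe] at hcore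
  linarith

end Pool.Agent.Lib.Pe46137
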