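import Pool.Agent.Lib.Pe46137.Core

/-!
The analytic core for contacts that are certified by several arcs of the path.
-/

namespace Pool.Agent.Lib.Pe46137

open Finset

variable {l : ℕ}

/-- multiplying a monomial by a crossing indicator raises the degree by at most two -/
theorem cross_mul_mono (hl1 : 1 ≤ l) {i : ℕ} (hi : i ≤ l) (T : Finset (Fin l)) :
    ∃ (c : ℝ) (U1 U2 : Finset (Fin l)), U1.card ≤ T.card + 2 ∧ U2.card ≤ T.card + 2 ∧
      ∀ y : Fin l → Bool, (if Cross i y then (1 : ℝ) else 0) * mono T y =
        mono U1 y - c * mono U2 y := by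
  by_cases h0 : i = 0
  · subst h0
    set j : Fin l := ⟨0, hl1⟩ with hj
    refine ⟨1, T, insert j T, by omega, le_trans (card_insert_le _ _) (by omega), fun y => ?_⟩
    rw [one_mul, ← ind_mul_mono]
    have : Cross 0 y ↔ ¬ (y j = true) := by
      unfold Cross
      rw [ext_zero, ext_succ y hl1]
      simp [hj]
    by_cases hy : y j = true
    · rw [if_neg (by rw [this]; simpa using hy)]; simp [hy]
    · rw [if_pos (by rw [this]; exact hy)]; simp [hy]
  · by_cases hil : i = l
    · set j : Fin l := ⟨i - 1, by omega⟩ with hj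
      refine ⟨0, insert j T, ∅, le_trans (card_insert_le _ _) (by omega), by simp, fun y => ?_⟩
      rw [zero_mul, sub_zero, ← ind_mul_mono]
      have : Cross i y ↔ (y j = true) := by
        unfold Cross
        obtain ⟨i', rfl⟩ : ∃ i', i = i' + 1 := ⟨i - 1, by omega⟩
        rw [ext_succ y (show i' < l by omega), ext_last y (show l ≤ i' + 1 by omega)]
        simp [hj]
      by_cases hy : y j = true
      · rw [if_pos (by rw [this]; exact hy)]; simp [hy]
      · rw [if_neg (by rw [this]; exact hy)]; simp [hy]
    · have hil' : i < l := by omega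
      set j : Fin l := ⟨i - 1, by omega⟩ with hj
      set k : Fin l := ⟨i, hil'⟩ with hk
      refine ⟨1, insert j T, insert k (insert j T), le_trans (card_insert_le _ _) (by omega),
        le_trans (card_insert_le _ _) (by have := card_insert_le j T; omega), fun y => ?_⟩
      rw [one_mul, ← ind_mul_mono k, ← ind_mul_mono j]
      have : Cross i y ↔ (y j = true ∧ ¬ (y k = true)) := by
        unfold Cross
        obtain ⟨i', rfl⟩ : ∃ i', i = i' + 1 := ⟨i - 1, by omega⟩
        rw [ext_succ y (show i' < l by omega), ext_succ y hil']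
        simp [hj, hk]
      by_cases hy : y j = true <;> by_cases hz : y k = true
      · rw [if_neg (by rw [this]; simp [hz])]; simp [hy, hz]
      · rw [if_pos (by rw [this]; exact ⟨hy, hz⟩)]; simp [hy, hz]
      · rw [if_neg (by rw [this]; simp [hy])]; simp [hy, hz]
      · rw [if_neg (by rw [this]; simp [hy])]; simp [hy, hz]

/-- the test function of a set of edges -/
noncomputable def gset (d : ℕ) (I : Finset ℕ) (y : Fin l → Bool) : ℝ :=
  if ∃ i ∈ I, Cross i y then 0 else vec d y

theorem gset_empty (d : ℕ) (y : Fin l → Bool) : gset d ∅ y = vec d y := by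
  simp [gset]

theorem gset_insert (d : ℕ) (i : ℕ) (I : Finset ℕ) (y : Fin l → Bool) :
    gset d (insert i I) y = gset d I y - (if Cross i y then gset d I y else 0) := by
  unfold gset
  by_cases h : Cross i y
  · simp [h]
  · simp [h]

theorem avg_cross_set {d : ℕ} (hl : 2 ^ d ≤ l) : ∀ (I : Finset ℕ), (∀ i ∈ I, i ≤ l) →
    ∀ (i : ℕ) (_ : i ≤ l) (T : Finset (Fin l)), T.card + 2 * I.card + 2 ≤ d →
      avg (fun y => (if Cross i y then gset d I y else 0) * mono T y) = 0 := by
  have hl1 : 1 ≤ l := le_trans Nat.one_le_two_pow hl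
  intro I
  induction I using Finset.induction_on with
  | empty =>
    intro _ i hi T hT
    simp only [gset_empty]
    exact avg_cross hl hi (by simpa using hT)
  | insert i' I' hi' ih =>
    intro hI i hi T hT
    rw [card_insert_of_notMem hi'] at hT
    have ih' := ih (fun j hj => hI j (mem_insert_of_mem hj))
    obtain ⟨c, U1, U2, h1, h2, h3⟩ := cross_mul_mono hl1 (hI i' (mem_insert_self _ _)) T
    have e1 : (fun y : Fin l → Bool => (if Cross i y then gset d (insert i' I') y else 0) * mono T y) =
        fun y => (if Cross i y then gset d I' y else 0) * mono T y -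
          ((if Cross i y then gset d I' y else 0) * mono U1 y -
            c * ((if Cross i y then gset d I' y else 0) * mono U2 y)) := by
      funext y
      have e2 : (if Cross i y then gset d (insert i' I') y else 0) * mono T y =
          (if Cross i y then gset d I' y else 0) * mono T y -
          (if Cross i y then gset d I' y else 0) * ((if Cross i' y then (1 : ℝ) else 0) * mono T y) := by
        rw [gset_insert]
        by_cases h4 : Cross i y <;> by_cases h5 : Cross i' y <;> simp [h4, h5]
      rw [e2, h3]
      ring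
    rw [e1, avg_sub, avg_sub, avg_const_mul, ih' i hi T (by omega), ih' i hi U1 (by omega),
      ih' i hi U2 (by omega)]
    simp

theorem avg_gset_mono {d : ℕ} (hl : 2 ^ d ≤ l) : ∀ (I : Finset ℕ), (∀ i ∈ I, i ≤ l) →
    ∀ (T : Finset (Fin l)), T.card + 2 * I.card ≤ d →
      avg (fun y => gset d I y * mono T y) = pe d T := by
  intro I
  induction I using Finset.induction_on with
  | empty =>
    intro _ T hT
    simp only [gset_empty]
    exact avg_vec_mono (by simpa using hT)
  | insert i' I' hi' ih =>
    intro hI T hT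
    rw [card_insert_of_notMem hi'] at hT
    have e1 : (fun y : Fin l → Bool => gset d (insert i' I') y * mono T y) =
        fun y => gset d I' y * mono T y - (if Cross i' y then gset d I' y else 0) * mono T y := by
      funext y
      rw [gset_insert]
      ring
    rw [e1, avg_sub, ih (fun j hj => hI j (mem_insert_of_mem hj)) T (by omega),
      avg_cross_set hl I' (fun j hj => hI j (mem_insert_of_mem hj)) i' (hI i' (mem_insert_self _ _)) T
        (by omega), sub_zero]

theorem avg_gset {d : ℕ} (hl : 2 ^ d ≤ l) {I : Finset ℕ} (hI : ∀ i ∈ I, i ≤ l)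
    (hc : 2 * I.card ≤ d) : avg (gset (l := l) d I) = 1 := by
  have := avg_gset_mono hl I hI ∅ (by simpa using hc)
  rw [pe_empty] at this
  rw [← this]
  congr 1
  funext y
  simp [mono]

theorem coef_gset_sub {d j : ℕ} (hl : 2 ^ d ≤ l) {I I' : Finset ℕ} (hI : ∀ i ∈ I, i ≤ l)
    (hI' : ∀ i ∈ I', i ≤ l) (hc : I.card ≤ j) (hc' : I'.card ≤ j)
    {S : Finset (Fin l)} (hS : S.card + 2 * j ≤ d) :
    coef (fun y => gset d I y - gset d I' y) S = 0 := by
  refine coef_eq_zero_of_mono (m := d - 2 * j) (fun T hT => ?_) (by omega)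
  have h1 : (fun y : Fin l → Bool => (gset d I y - gset d I' y) * mono T y) =
      fun y => gset d I y * mono T y - gset d I' y * mono T y := by
    funext y
    ring
  rw [h1, avg_sub, avg_gset_mono hl I hI T (by omega), avg_gset_mono hl I' hI' T (by omega),
    sub_self]

theorem avg_gset_sub_sq (d : ℕ) (I I' : Finset ℕ) :
    avg (fun y : Fin l → Bool => (gset d I y - gset d I' y) * (gset d I y - gset d I' y)) ≤
      (9 * l + 1) ^ d := by
  refine le_trans (avg_mono fun y => ?_) (avg_vec_sq_le d)
  unfold gset
  split_ifs <;> simp <;> nlinarith [sq_nonneg (vec d y)]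

/-- the core inequality for sets of at most `j` arcs -/
theorem core_set {W F Q : Type*} [Fintype W] [Fintype F] [Fintype Q] [DecidableEq Q] {d l j : ℕ}
    (hd : 2 * j ≤ d) (hl : 2 ^ d ≤ l) (p : F → (Fin l ↪ Q))
    (hp : ∀ f f', f ≠ f' → ∀ S S' : Finset (Fin l), S.map (p f) = S'.map (p f') →
      S.card + 2 * j ≤ d)
    (J : W → (Q → Bool) → ℝ) (hJ : ∀ v x, J v x * J v x ≤ 1)
    (L : F → W → W → Prop)
    (hL : ∀ f v w, L f v w → ∃ I : Finset ℕ, I.card ≤ j ∧ (∀ i ∈ I, i ≤ l) ∧
      ∀ x, (∀ i ∈ I, ¬ Cross i (fun j => x (p f j))) → J v x = J w x)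
    {s t : W} (hs : ∀ x, J s x = 1) (ht : ∀ x, J t x = 0)
    (hst : ∀ f, Relation.EqvGen (L f) s t) :
    (Fintype.card F : ℝ) ≤ (Fintype.card W : ℝ) ^ 2 * (9 * l + 1) ^ d := by
  classical
  set K : ℝ := (9 * l + 1) ^ d with hK
  have hK0 : 0 ≤ K := by positivity
  set ι := {I : Finset ℕ // I ∈ (range (l + 1)).powerset ∧ I.card ≤ j} with hι
  have hιfin : Finite ι := by
    refine Finite.of_injective (β := {I // I ∈ (range (l + 1)).powerset})
      (fun I => ⟨I.1, I.2.1⟩) ?_
    intro a b h
    have h' : a.1 = b.1 := by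
      have := congrArg (fun z : {I // I ∈ (range (l + 1)).powerset} => z.1) h
      exact this
    exact Subtype.ext h'
  have hιne : Nonempty ι := ⟨⟨∅, by simp, by simp⟩⟩
  have hιle : ∀ I : ι, ∀ i ∈ I.1, i ≤ l := by
    intro I i hi
    have := (mem_powerset.mp I.2.1) hi
    rw [mem_range] at this
    omega
  set a : F → W → ι → ℝ :=
    fun f v I => avg (fun x => J v x * gset d I.1 (fun j => x (p f j))) with ha
  have hex : ∀ f, ∃ hi lo : W → ι, 1 ≤ ∑ v, (a f v (hi v) - a f v (lo v)) := by
    intro f
    refine interval_cover (a f) (L f) ?_ (hst f) ?_ ?_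
    · intro v w hvw
      obtain ⟨I, hIc, hIl, h⟩ := hL f v w hvw
      refine ⟨⟨I, mem_powerset.mpr fun i hi => mem_range.mpr (by have := hIl i hi; omega), hIc⟩, ?_⟩
      simp only [ha]
      congr 1
      funext x
      by_cases hc : ∃ i ∈ I, Cross i (fun j => x (p f j))
      · simp [gset, hc]
      · rw [h x (fun i hi hcr => hc ⟨i, hi, hcr⟩)]
    · intro I
      simp only [ha, hs, one_mul]
      rw [avg_comp (p f) (gset d I.1)]
      exact avg_gset hl (hιle I) (by have := I.2.2; omega)
    · intro I
      simp only [ha, ht, zero_mul]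
      exact avg_const 0
  choose hi lo hhl using hex
  -- the bound for one state
  have hstate : ∀ v, ∑ f, (a f v (hi f v) - a f v (lo f v)) ≤ Real.sqrt (Fintype.card F * K) := by
    intro v
    set h : F → (Fin l → Bool) → ℝ := fun f y => gset d (hi f v).1 y - gset d (lo f v).1 y with hh
    set H : (Q → Bool) → ℝ := fun x => ∑ f, h f (fun j => x (p f j)) with hH
    have e1 : ∑ f, (a f v (hi f v) - a f v (lo f v)) = avg (fun x => J v x * H x) := by
      have : (fun x => J v x * H x) = fun x => ∑ f, J v x * h f (fun j => x (p f j)) := by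
        funext x
        rw [hH, mul_sum]
      rw [this, avg_sum]
      refine sum_congr rfl fun f _ => ?_
      simp only [ha, hh]
      rw [← avg_sub]
      congr 1
      funext x
      ring
    have e2 : avg (fun x => H x * H x) ≤ Fintype.card F * K := by
      have : (fun x => H x * H x) = fun x => ∑ f, ∑ f',
          h f (fun j => x (p f j)) * h f' (fun j => x (p f' j)) := by
        funext x
        rw [hH, sum_mul_sum]
      rw [this, avg_sum]
      have e3 : ∀ f ∈ (univ : Finset F), avg (fun x => ∑ f',
          h f (fun j => x (p f j)) * h f' (fun j => x (p f' j))) ≤ K := by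
        intro f _
        rw [avg_sum, sum_eq_single f]
        · rw [avg_comp_sq (p f) (h f)]
          exact avg_gset_sub_sq d (hi f v).1 (lo f v).1
        · intro f' _ hne
          rw [avg_comp_mul]
          refine sum_eq_zero fun S _ => sum_eq_zero fun S' _ => ?_
          split_ifs with hSS
          · have hc := hp f f' (Ne.symm hne) S S' hSS
            have : coef (h f) S = 0 :=
              coef_gset_sub hl (hιle _) (hιle _) (hi f v).2.2 (lo f v).2.2 hc
            rw [this, zero_mul]
          · rfl
        · intro hf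
          exact absurd (mem_univ f) hf
      refine le_trans (sum_le_sum e3) ?_
      rw [sum_const, card_univ, nsmul_eq_mul]
    have e4 : avg (fun x => J v x * J v x) ≤ 1 := by
      refine le_trans (avg_mono (hJ v)) ?_
      rw [avg_const]
    have e5 := avg_mul_sq_le (J v) H
    rw [e1]
    refine Real.le_sqrt_of_sq_le (le_trans e5 ?_)
    have e6 : 0 ≤ avg (fun x => H x * H x) := avg_nonneg fun x => mul_self_nonneg _
    nlinarith
  have htot : (Fintype.card F : ℝ) ≤ Fintype.card W * Real.sqrt (Fintype.card F * K) := by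
    have e1 : ∑ f : F, (1 : ℝ) ≤ ∑ f, ∑ v, (a f v (hi f v) - a f v (lo f v)) :=
      sum_le_sum fun f _ => hhl f
    rw [sum_comm] at e1
    have e2 := sum_le_sum fun v (_ : v ∈ (univ : Finset W)) => hstate v
    simp only [sum_const, card_univ, nsmul_eq_mul, mul_one] at e1 e2
    exact le_trans e1 e2
  rcases Nat.eq_zero_or_pos (Fintype.card F) with h0 | h0
  · rw [h0]; simp; positivity
  · have hF : (0 : ℝ) < Fintype.card F := by exact_mod_cast h0
    have h2 : (Fintype.card F : ℝ) ^ 2 ≤ (Fintype.card W * Real.sqrt (Fintype.card F * K)) ^ 2 := by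
      gcongr
    rw [mul_pow, Real.sq_sqrt (by positivity)] at h2
    have h3 : (Fintype.card F : ℝ) * Fintype.card F ≤
        Fintype.card F * ((Fintype.card W : ℝ) ^ 2 * K) := by nlinarith
    exact le_of_mul_le_mul_left h3 hF

end Pool.Agent.Lib.Pe46137
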