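import Pool.Agent.Lib.Pe46137.Final

/-!
The explicit lower bound.
-/

namespace Pool.Agent.Lib.Pe46137

open Finset

theorem exp_key2 (c : ℕ) (hc : 1 ≤ c) :
    1 + (c + 1 + 4) * (c + 1) + 2 * ((c + 1) * (c + 1)) ≤ (3 * (c + 1) + 15) * c := by
  nlinarith

/-- the last step: from the parametric inequality to `2 ^ (d * d)` states -/
theorem states_of_param2 {w : ℝ} (hw : 0 ≤ w) {d q : ℕ} (hd : 2 ≤ d)
    (hq : 2 ^ (3 * d + 15) < q)
    (h : (q : ℝ) ^ (d - 1) ≤ 2 * (w ^ 2 * (9 * ((2 ^ d : ℕ) : ℝ) + 1) ^ d)) :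
    (2 : ℝ) ^ (d * d) ≤ w := by
  have e1 : ((2 : ℝ) ^ (3 * d + 15)) ^ (d - 1) ≤ (q : ℝ) ^ (d - 1) := by
    have : ((2 : ℝ) ^ (3 * d + 15)) ≤ q := by exact_mod_cast hq.le
    gcongr
  have e2 : (9 * ((2 ^ d : ℕ) : ℝ) + 1) ^ d ≤ (2 : ℝ) ^ ((d + 4) * d) := by
    rw [pow_mul]
    have h1 : 9 * ((2 ^ d : ℕ) : ℝ) + 1 ≤ 2 ^ (d + 4) := by
      push_cast
      have : (1 : ℝ) ≤ 2 ^ d := one_le_pow₀ (by norm_num)
      rw [pow_add]
      linarith
    gcongr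
  have e3 : (2 : ℝ) ^ ((3 * d + 15) * (d - 1)) ≤ 2 * (w ^ 2 * (2 : ℝ) ^ ((d + 4) * d)) := by
    rw [pow_mul]
    refine le_trans e1 (le_trans h ?_)
    gcongr
  have e4 : (2 : ℝ) ^ (1 + (d + 4) * d) * (2 : ℝ) ^ (2 * (d * d)) ≤
      (2 : ℝ) ^ ((3 * d + 15) * (d - 1)) := by
    rw [← pow_add]
    refine pow_le_pow_right₀ (by norm_num) ?_
    obtain ⟨d', hd'⟩ : ∃ d', d = d' + 1 := ⟨d - 1, by omega⟩
    rw [hd']
    simp only [Nat.add_sub_cancel]
    exact exp_key2 d' (by omega)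
  have e5 : (2 : ℝ) ^ (1 + (d + 4) * d) * (2 : ℝ) ^ (2 * (d * d)) ≤
      (2 : ℝ) ^ (1 + (d + 4) * d) * w ^ 2 := by
    refine le_trans e4 (le_trans e3 (le_of_eq ?_))
    rw [pow_add]
    ring
  have e6 : (2 : ℝ) ^ (2 * (d * d)) ≤ w ^ 2 := le_of_mul_le_mul_left e5 (by positivity)
  have e7 : ((2 : ℝ) ^ (d * d)) ^ 2 ≤ w ^ 2 := by
    rw [← pow_mul, mul_comm]; exact e6
  exact le_of_sq_le_sq e7 hw

/-- the empty digraph is sparse and acyclic -/
theorem sparse_empty {V : Type*} : SparseDag (∅ : Set (V × V)) := by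
  refine ⟨fun v hv => ?_, fun v => ⟨by simp, by simp⟩⟩
  cases hv with
  | single h => exact h
  | tail _ h => exact h

theorem not_reach_empty {V : Type*} {s t : V} (hst : s ≠ t) :
    ¬ Reachable (∅ : Set (V × V)) s t := by
  intro h
  rcases Relation.ReflTransGen.cases_tail h with h | ⟨_, _, h⟩
  · exact hst h.symm
  · exact h

/-- numerical conditions -/
theorem conditions {D Δ k Mc m : ℕ} (hD : 1 ≤ D) (hm : m ≤ 131072 * D ^ 4)
    (h1 : 1267650600228229401496703205376 * D ^ 20 * Δ ≤ Mc)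
    (h2 : 4398046511104 * D ^ 8 * k ≤ Mc) (hΔ : 0 < Δ) :
    8 * Δ * (2 * m) ^ 3 + 4 * (2 * m) ^ 4 + 4 * Δ < Mc ∧
    2 * (2 * m) ^ 2 * (4 * k + 8 * m ^ 3 * Δ + 1) + 4 * Δ ≤ Mc := by
  have m2 : m ^ 2 ≤ 17179869184 * D ^ 8 := by
    calc m ^ 2 ≤ (131072 * D ^ 4) ^ 2 := Nat.pow_le_pow_left hm 2
      _ = 17179869184 * D ^ 8 := by ring
  have m3 : m ^ 3 ≤ 2251799813685248 * D ^ 12 := by
    calc m ^ 3 ≤ (131072 * D ^ 4) ^ 3 := Nat.pow_le_pow_left hm 3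
      _ = 2251799813685248 * D ^ 12 := by ring
  have m4 : m ^ 4 ≤ 295147905179352825856 * D ^ 16 := by
    calc m ^ 4 ≤ (131072 * D ^ 4) ^ 4 := Nat.pow_le_pow_left hm 4
      _ = 295147905179352825856 * D ^ 16 := by ring
  have m5 : m ^ 5 ≤ 38685626227668133590597632 * D ^ 20 := by
    calc m ^ 5 ≤ (131072 * D ^ 4) ^ 5 := Nat.pow_le_pow_left hm 5
      _ = 38685626227668133590597632 * D ^ 20 := by ring
  have p1 : D ^ 8 ≤ D ^ 20 := Nat.pow_le_pow_right hD (by norm_num)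
  have p2 : D ^ 12 ≤ D ^ 20 := Nat.pow_le_pow_right hD (by norm_num)
  have p3 : D ^ 16 ≤ D ^ 20 := Nat.pow_le_pow_right hD (by norm_num)
  have p4 : 1 ≤ D ^ 20 := Nat.one_le_pow _ _ hD
  set E := D ^ 20 with hE
  have q1 : m ^ 3 * Δ ≤ 2251799813685248 * (E * Δ) := by
    calc m ^ 3 * Δ ≤ (2251799813685248 * E) * Δ := by
          refine Nat.mul_le_mul_right Δ (le_trans m3 ?_)
          exact Nat.mul_le_mul_left _ p2
      _ = _ := by ring
  have q2 : m ^ 4 ≤ 295147905179352825856 * (E * Δ) := by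
    calc m ^ 4 ≤ 295147905179352825856 * E := le_trans m4 (Nat.mul_le_mul_left _ p3)
      _ = 295147905179352825856 * (E * 1) := by ring
      _ ≤ _ := Nat.mul_le_mul_left _ (Nat.mul_le_mul_left _ hΔ)
  have q3 : m ^ 5 * Δ ≤ 38685626227668133590597632 * (E * Δ) := by
    calc m ^ 5 * Δ ≤ (38685626227668133590597632 * E) * Δ := Nat.mul_le_mul_right Δ m5
      _ = _ := by ring
  have q4 : m ^ 2 ≤ 17179869184 * (E * Δ) := by
    calc m ^ 2 ≤ 17179869184 * E := le_trans m2 (Nat.mul_le_mul_left _ p1)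
      _ = 17179869184 * (E * 1) := by ring
      _ ≤ _ := Nat.mul_le_mul_left _ (Nat.mul_le_mul_left _ hΔ)
  have q5 : Δ ≤ E * Δ := Nat.le_mul_of_pos_left Δ p4
  have q6 : m ^ 2 * k ≤ 17179869184 * (D ^ 8 * k) := by
    calc m ^ 2 * k ≤ (17179869184 * D ^ 8) * k := Nat.mul_le_mul_right k m2
      _ = _ := by ring
  have h1' : 1267650600228229401496703205376 * (E * Δ) ≤ Mc := by
    rw [← mul_assoc]; exact h1
  have h2' : 4398046511104 * (D ^ 8 * k) ≤ Mc := by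
    rw [← mul_assoc]; exact h2
  have r1 : 0 < E * Δ := Nat.mul_pos p4 hΔ
  constructor
  · have : 8 * Δ * (2 * m) ^ 3 + 4 * (2 * m) ^ 4 + 4 * Δ =
        64 * (m ^ 3 * Δ) + 64 * m ^ 4 + 4 * Δ := by ring
    rw [this]
    omega
  · have : 2 * (2 * m) ^ 2 * (4 * k + 8 * m ^ 3 * Δ + 1) + 4 * Δ =
        32 * (m ^ 2 * k) + 64 * (m ^ 5 * Δ) + 8 * m ^ 2 + 4 * Δ := by ring
    rw [this]
    omega

/-- the number of clusters -/
theorem clusters_le {d q : ℕ} (hq2 : q ≤ 2 * 2 ^ (3 * d + 15)) :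
    2 ^ d * q + 2 ≤ 131072 * (2 ^ d) ^ 4 := by
  have h1 : 2 * 2 ^ (3 * d + 15) = 2 ^ 16 * (2 ^ d) ^ 3 := by
    rw [← pow_mul, ← pow_add, ← pow_succ']
    congr 1
    ring
  rw [h1] at hq2
  have h2 : 1 ≤ 2 ^ d := Nat.one_le_two_pow
  calc 2 ^ d * q + 2 ≤ 2 ^ d * (2 ^ 16 * (2 ^ d) ^ 3) + 2 := by gcongr
    _ = 2 ^ 16 * (2 ^ d) ^ 4 + 2 := by ring
    _ ≤ 2 ^ 16 * (2 ^ d) ^ 4 + 2 ^ 16 * (2 ^ d) ^ 4 := by
        have : 1 ≤ (2 ^ d) ^ 4 := Nat.one_le_pow _ _ (by positivity)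
        omega
    _ = 131072 * (2 ^ d) ^ 4 := by ring

universe u

/-- the lower bound; the arcs outside `M` are fixed -/
theorem explicit_fixed (d n Δ k : ℕ) (hΔ : 0 < Δ) (s t : Fin n) (hst : s ≠ t)
    (M : Finset (Fin n × Fin n)) (hloop : ∀ e ∈ M, e.1 ≠ e.2)
    (hout : ∀ v, (M.filter (fun e => e.1 = v)).card ≤ Δ)
    (hin : ∀ v, (M.filter (fun e => e.2 = v)).card ≤ Δ)
    (hM : 2 ^ (20 * d + 100) * Δ ≤ M.card) (hk : 2 ^ (8 * d + 42) * k ≤ M.card) :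
    ∃ B : Set (Fin n × Fin n), Disjoint B (M : Set (Fin n × Fin n)) ∧
      ∀ (W : Type u) [Fintype W] (N : SwitchingNetwork (Fin n × Fin n) W),
      (∀ G : Set (Fin n × Fin n), SparseDag G → G \ M = B →
        (N.Connects G Gᶜ ↔ Reachable G s t)) →
      (∀ G : Set (Fin n × Fin n), SparseDag G → G \ M = B → Reachable G s t →
        ∃ F ⊆ Gᶜ, (F ∩ (M : Set (Fin n × Fin n))).ncard ≤ k ∧ N.Connects G F) →
      2 ^ (d * d) ≤ Fintype.card W := by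
  rcases Nat.lt_or_ge d 2 with hd | hd
  · -- small cases
    refine ⟨∅, Set.empty_disjoint _, fun W _ N hN _ => ?_⟩
    have hne : N.source ≠ N.sink := by
      intro h
      apply not_reach_empty hst
      refine (hN ∅ sparse_empty (Set.empty_sdiff _)).mp ?_
      unfold SwitchingNetwork.Connects
      rw [h]
      exact Relation.EqvGen.refl _
    have h2 : 1 < Fintype.card W := Fintype.one_lt_card_iff.mpr ⟨_, _, hne⟩
    have h3 : d * d ≤ 1 := by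
      have : d ≤ 1 := by omega
      nlinarith
    calc 2 ^ (d * d) ≤ 2 ^ 1 := Nat.pow_le_pow_right (by norm_num) h3
      _ ≤ Fintype.card W := h2
  · obtain ⟨q, hqp, hq1, hq2⟩ :=
      Nat.exists_prime_lt_and_le_two_mul (2 ^ (3 * d + 15)) (by positivity)
    have : Fact q.Prime := ⟨hqp⟩
    have hlq : 2 ^ d ≤ q := by
      refine le_trans ?_ hq1.le
      exact Nat.pow_le_pow_right (by norm_num) (by omega)
    have hD : 1 ≤ 2 ^ d := Nat.one_le_two_pow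
    have hM' : 1267650600228229401496703205376 * (2 ^ d) ^ 20 * Δ ≤ M.card := by
      refine le_trans (le_of_eq ?_) hM
      have : 2 ^ (20 * d + 100) = 1267650600228229401496703205376 * (2 ^ d) ^ 20 := by
        rw [pow_add, mul_comm 20 d, pow_mul, mul_comm ((2 ^ d) ^ 20)]
        norm_num
      rw [this]
    have hk' : 4398046511104 * (2 ^ d) ^ 8 * k ≤ M.card := by
      refine le_trans (le_of_eq ?_) hk
      have : 2 ^ (8 * d + 42) = 4398046511104 * (2 ^ d) ^ 8 := by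
        rw [pow_add, mul_comm 8 d, pow_mul, mul_comm ((2 ^ d) ^ 8)]
        norm_num
      rw [this]
    obtain ⟨hA, hB⟩ := conditions (m := 2 ^ d * q + 2) hD (clusters_le hq2) hM' hk' hΔ
    obtain ⟨B, hBM, hmain⟩ := param2 (n := n) (d := d) (l := 2 ^ d) (q := q) hd le_rfl hlq
      hst M hloop (Δ := Δ) (k := k) (by convert hout) (by convert hin) hA hB
    refine ⟨B, hBM, fun W _ N hN hneg => ?_⟩
    have := states_of_param2 (w := Fintype.card W) (Nat.cast_nonneg _) hd hq1 (hmain W N hN hneg)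
    exact_mod_cast this

theorem explicit_bound (d n Δ k : ℕ) (hΔ : 0 < Δ) (s t : Fin n) (hst : s ≠ t)
    (M : Finset (Fin n × Fin n)) (hloop : ∀ e ∈ M, e.1 ≠ e.2)
    (hout : ∀ v, (M.filter (fun e => e.1 = v)).card ≤ Δ)
    (hin : ∀ v, (M.filter (fun e => e.2 = v)).card ≤ Δ)
    (hM : 2 ^ (20 * d + 100) * Δ ≤ M.card) (hk : 2 ^ (8 * d + 42) * k ≤ M.card)
    (W : Type*) [Fintype W] (N : SwitchingNetwork (Fin n × Fin n) W) (hN : N.DecidesSparse s t)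
    (hneg : ∀ G : Set (Fin n × Fin n), SparseDag G → Reachable G s t →
      ∃ F ⊆ Gᶜ, (F ∩ (M : Set (Fin n × Fin n))).ncard ≤ k ∧ N.Connects G F) :
    2 ^ (d * d) ≤ Fintype.card W := by
  obtain ⟨B, _, h⟩ := explicit_fixed d n Δ k hΔ s t hst M hloop hout hin hM hk
  exact h W N (fun G hG _ => hN G hG) (fun G hG _ => hneg G hG)

end Pool.Agent.Lib.Pe46137
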