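import Pool.Agent.Lib.Pe46137.Price
import Pool.Agent.Lib.Pe46137.Explicit

/-!
The exact cost, up to a constant power, of avoiding the negations of a set of arcs.
-/

namespace Pool.Agent.Lib.Pe46137

open Finset

set_option linter.unusedSectionVars false

section

variable {V : Type} [Fintype V] [DecidableEq V]

theorem nu_spec (M : Set (V × V)) : ∃ P : Finset (V × V), Matching M P ∧ P.card = nu M ∧
    ∀ P', Matching M P' → P'.card ≤ nu M := by
  have hne : {r | ∃ P : Finset (V × V), Matching M P ∧ P.card = r}.Nonempty :=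
    ⟨0, ∅, ⟨by simp, by simp, by simp, by simp⟩, rfl⟩
  have hbd : BddAbove {r | ∃ P : Finset (V × V), Matching M P ∧ P.card = r} := by
    refine ⟨Fintype.card (V × V), ?_⟩
    rintro r ⟨P, _, rfl⟩
    exact card_le_univ P
  obtain ⟨P, h1, h2⟩ := Nat.sSup_mem hne hbd
  exact ⟨P, h1, h2, fun P' h => le_csSup hbd ⟨P', h, rfl⟩⟩

/-- a vertex cover from a maximum matching -/
theorem exists_cover (M : Set (V × V)) (s t : V) : ∃ X : Finset V, s ∈ X ∧ t ∈ X ∧
    X.card ≤ 2 * nu M + 2 ∧ ∀ e ∈ M, e.1 ≠ e.2 → e.1 ∈ X ∨ e.2 ∈ X := by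
  obtain ⟨P, hP, hc, hmax⟩ := nu_spec M
  refine ⟨insert s (insert t (P.image Prod.fst ∪ P.image Prod.snd)), by simp, by simp, ?_, ?_⟩
  · have h1 := card_insert_le s (insert t (P.image Prod.fst ∪ P.image Prod.snd))
    have h2 := card_insert_le t (P.image Prod.fst ∪ P.image Prod.snd)
    have h3 := card_union_le (P.image Prod.fst) (P.image Prod.snd)
    have h4 : (P.image Prod.fst).card ≤ P.card := card_image_le
    have h5 : (P.image Prod.snd).card ≤ P.card := card_image_le
    omega
  · intro e he hne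
    by_contra hc'
    rw [not_or] at hc'
    simp only [mem_insert, mem_union, mem_image, not_or, not_exists, not_and] at hc'
    obtain ⟨⟨_, _, h1, _⟩, ⟨_, _, _, h2⟩⟩ := hc'
    have heP : e ∉ P := fun h => h1 e h rfl
    have hm : Matching M (insert e P) := by
      refine ⟨?_, ?_, ?_, ?_⟩
      · intro e' he'
        rcases mem_insert.mp he' with rfl | h
        · exact he
        · exact hP.sub e' h
      · intro e' he'
        rcases mem_insert.mp he' with rfl | h
        · exact hne
        · exact hP.loopless e' h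
      · intro e' he' e'' he'' hee
        rcases mem_insert.mp he' with rfl | h <;> rcases mem_insert.mp he'' with rfl | h'
        · rfl
        · exact absurd hee.symm (h1 e'' h')
        · exact absurd hee (h1 e' h)
        · exact hP.tails _ h _ h' hee
      · intro e' he' e'' he'' hee
        rcases mem_insert.mp he' with rfl | h <;> rcases mem_insert.mp he'' with rfl | h'
        · rfl
        · exact absurd hee.symm (h2 e'' h')
        · exact absurd hee (h2 e' h)
        · exact hP.heads _ h _ h' hee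
    have := hmax _ hm
    rw [card_insert_of_notMem heP] at this
    omega

theorem exists_fin_of_comp {M : Set (V × V)} {𝒢 : Set (Set (V × V))} {s t : V} {m : ℕ}
    (h : Comp M 𝒢 (fun G => Reachable G s t) m) : ∃ m' ≤ m,
      ∃ N : SwitchingNetwork (V × V) (Fin m'), N.DecidesOn 𝒢 s t ∧ N.Avoids M := by
  obtain ⟨W, _, N, h1, h2, h3⟩ := h
  set φ := Fintype.equivFin W
  refine ⟨Fintype.card W, h1, ⟨φ N.source, φ N.sink, fun v w => N.wire (φ.symm v) (φ.symm w),
    fun e v w => N.pos e (φ.symm v) (φ.symm w), fun e v w => N.neg e (φ.symm v) (φ.symm w)⟩,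
    fun G hG => Iff.trans ?_ (h3 G hG), fun e he v w h => h2 e he _ _ h⟩
  unfold SwitchingNetwork.Connects
  constructor
  · intro h
    have := eqv_map (r' := N.Closed G Gᶜ) φ.symm (fun v w h => h) h
    simpa using this
  · intro h
    refine eqv_map φ (fun v w h => ?_) h
    simpa [SwitchingNetwork.Closed] using h

theorem cost_le_of_comp {M : Set (V × V)} {𝒢 : Set (Set (V × V))} {s t : V} {m : ℕ}
    (h : Comp M 𝒢 (fun G => Reachable G s t) m) : cost 𝒢 s t M ≤ m := by
  obtain ⟨m', h1, h2⟩ := exists_fin_of_comp h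
  exact le_trans (Nat.sInf_le h2) h1

/-- the smallest number of states is attained -/
theorem cost_spec {𝒢 : Set (Set (V × V))} (s t : V) (M : Set (V × V)) :
    ∃ N : SwitchingNetwork (V × V) (Fin (cost 𝒢 s t M)), N.DecidesOn 𝒢 s t ∧ N.Avoids M := by
  have hne : {m | ∃ N : SwitchingNetwork (V × V) (Fin m), N.DecidesOn 𝒢 s t ∧
      N.Avoids M}.Nonempty := by
    have h1 := comp_lev (M := M) (𝒢 := 𝒢) (univ : Finset V)
      {e | e.1 ∉ (univ : Finset V) ∧ e.2 ∉ (univ : Finset V) ∧ e.1 ≠ e.2} (m := 2)
      (fun a b hab => (comp_false M 𝒢).congr fun G _ => by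
        simp only [false_iff]
        intro h
        rcases Relation.ReflTransGen.cases_tail h with h | ⟨_, _, h⟩
        · exact hab h.symm
        · exact h.2.1 (mem_univ _)) (by norm_num) (Fintype.card V) s t
    obtain ⟨m', _, h2⟩ := exists_fin_of_comp (h1.congr fun G _ =>
      lev_iff (X := univ) (mem_univ s) (mem_univ t) (j := Fintype.card V)
        (by rw [card_univ]; exact (Nat.lt_two_pow_self).le))
    exact ⟨m', h2⟩
  exact Nat.sInf_mem hne

theorem cost_le_cost {𝒢 : Set (Set (V × V))} (s t : V) (M : Set (V × V)) :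
    cost 𝒢 s t ∅ ≤ cost 𝒢 s t M := by
  obtain ⟨N, h1, _⟩ := cost_spec (𝒢 := 𝒢) s t M
  exact Nat.sInf_le ⟨N, h1, fun e he => absurd he (Set.notMem_empty e)⟩

theorem cost_upper {𝒢 : Set (Set (V × V))} (h𝒢 : Hereditary 𝒢) {s t : V} (hst : s ≠ t)
    (M : Set (V × V)) : cost 𝒢 s t M ≤ (4 * nu M + 5) ^ (Nat.clog 2 (2 * nu M + 2)) *
      (Fintype.card V * Fintype.card V * (cost 𝒢 s t ∅ + 4) + 4) := by
  obtain ⟨N, h1, _⟩ := cost_spec (𝒢 := 𝒢) s t (∅ : Set (V × V))
  obtain ⟨X, hs, ht, hX, hM⟩ := exists_cover M s t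
  refine le_trans (cost_le_of_comp (avoid_vertices h𝒢 hst N h1 M X hs ht hM
    (j := Nat.clog 2 (2 * nu M + 2)) (le_trans hX (Nat.le_pow_clog (by norm_num) _)))) ?_
  rw [Fintype.card_fin]
  refine Nat.mul_le_mul_right _ (Nat.pow_le_pow_left ?_ _)
  omega

end

/-- the contacts closed on a digraph, when one arc is deleted -/
theorem intermediate {W : Type*} {r : W → W → Prop} (h : W → ℕ)
    (hr : ∀ v w, r v w → h v ≤ h w + 1 ∧ h w ≤ h v + 1) {a b : W} (hab : Relation.EqvGen r a b)
    (k : ℕ) (ha : h a ≤ k) (hb : k ≤ h b) : ∃ v, h v = k := by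
  by_contra hc
  push Not at hc
  have := eqv_closed {v | h v < k} (fun v w hvw => by
    have h1 := hr v w hvw
    have h2 := hc v
    have h3 := hc w
    simp only [Set.mem_ofPred_eq]
    omega) hab
  simp only [Set.mem_ofPred_eq] at this
  have h1 := hc a
  omega

theorem sparse_subset {V : Type*} {G H : Set (V × V)} (h : SparseDag G) (hHG : H ⊆ G) :
    SparseDag H := by
  refine ⟨fun v hv => h.1 v (Relation.TransGen.mono (fun a b hab => hHG hab) _ _ hv), fun v => ⟨?_, ?_⟩⟩
  · exact le_trans (Set.encard_le_encard fun w hw => hHG hw) (h.2 v).1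
  · exact le_trans (Set.encard_le_encard fun w hw => hHG hw) (h.2 v).2

open Classical in
/-- a network has at least as many states as the digraphs have vertices -/
theorem card_le_states {n : ℕ} {W : Type} [Fintype W] {s t : Fin n} (hst : s ≠ t)
    (N : SwitchingNetwork (Fin n × Fin n) W) (hN : N.DecidesSparse s t) :
    n ≤ Fintype.card W := by
  have hn : 2 ≤ n := by
    by_contra hc
    exact hst (Fin.ext (by have := s.2; have := t.2; omega))
  obtain ⟨ρ, hρ0, hρ1⟩ := exists_perm (a := (⟨0, by omega⟩ : Fin n)) (b := ⟨n - 1, by omega⟩)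
    (s := s) (t := t) (by intro h; have := congrArg Fin.val h; simp at this; omega) hst
  have hs : ((ρ.symm s : Fin n) : ℕ) = 0 := by rw [← hρ0, Equiv.symm_apply_apply]
  have ht : ((ρ.symm t : Fin n) : ℕ) = n - 1 := by rw [← hρ1, Equiv.symm_apply_apply]
  set G : Set (Fin n × Fin n) := {e | ((ρ.symm e.2 : Fin n) : ℕ) = (ρ.symm e.1 : Fin n) + 1}
    with hG
  have hGs : SparseDag G := by
    constructor
    · intro v hv
      have key : ∀ a b, Relation.TransGen (fun a b => (a, b) ∈ G) a b →
          ((ρ.symm a : Fin n) : ℕ) < (ρ.symm b : Fin n) := by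
        intro a b h
        induction h with
        | single h =>
          simp only [hG, Set.mem_ofPred_eq] at h
          omega
        | tail _ h ih =>
          simp only [hG, Set.mem_ofPred_eq] at h
          omega
      exact absurd (key v v hv) (lt_irrefl _)
    · intro v
      have h12 : (1 : ℕ∞) ≤ 2 := by norm_num
      constructor
      · refine le_trans (Set.encard_le_one_iff.mpr fun a b ha hb => ?_) h12
        simp only [hG, Set.mem_ofPred_eq] at ha hb
        exact ρ.symm.injective (Fin.ext (ha.trans hb.symm))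
      · refine le_trans (Set.encard_le_one_iff.mpr fun a b ha hb => ?_) h12
        simp only [hG, Set.mem_ofPred_eq] at ha hb
        exact ρ.symm.injective (Fin.ext (by omega))
  have hGr : Reachable G s t := by
    have key : ∀ k (hk : k < n), Reachable G s (ρ ⟨k, hk⟩) := by
      intro k
      induction k with
      | zero => intro hk; rw [hρ0]; exact Relation.ReflTransGen.refl
      | succ k ih =>
        intro hk
        refine (ih (by omega)).tail ?_
        simp [hG]
    rw [← hρ1]
    exact key _ _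
  set Gj : ℕ → Set (Fin n × Fin n) := fun j => {e | e ∈ G ∧ ((ρ.symm e.1 : Fin n) : ℕ) ≠ j}
    with hGj
  have hGjr : ∀ j < n - 1, ¬ Reachable (Gj j) s t := by
    intro j hj h
    have key : ∀ v, Reachable (Gj j) s v → ((ρ.symm v : Fin n) : ℕ) ≤ j := by
      intro v hv
      induction hv with
      | refl => rw [hs]; omega
      | tail _ h ih =>
        have h1 : _ = _ + 1 := h.1
        have h2 := h.2
        simp only at h1 h2
        omega
    have := key t h
    rw [ht] at this
    omega
  set A : W → Finset ℕ := fun v =>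
    (range (n - 1)).filter (fun j => ¬ Relation.EqvGen (N.Closed (Gj j) (Gj j)ᶜ) N.source v) with hA
  have hstep : ∀ v w, N.Closed G Gᶜ v w → (A v).card ≤ (A w).card + 1 ∧
      (A w).card ≤ (A v).card + 1 := by
    intro v w hvw
    have hex : ∃ j₀, ∀ j, j ≠ j₀ → N.Closed (Gj j) (Gj j)ᶜ v w := by
      rcases hvw with h | ⟨e, he, h⟩ | ⟨e, he, h⟩
      · exact ⟨0, fun j _ => Or.inl h⟩
      · exact ⟨((ρ.symm e.1 : Fin n) : ℕ), fun j hj =>
          Or.inr (Or.inl ⟨e, ⟨he, fun h' => hj h'.symm⟩, h⟩)⟩
      · exact ⟨0, fun j _ => Or.inr (Or.inr ⟨e, fun h' => he h'.1, h⟩)⟩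
    obtain ⟨j₀, hj₀⟩ := hex
    have h1 : ∀ j, j ≠ j₀ → (j ∈ A v ↔ j ∈ A w) := by
      intro j hj
      simp only [hA, mem_filter]
      rw [eqv_iff (hj₀ j hj)]
    constructor
    · refine le_trans (card_le_card (t := insert j₀ (A w)) fun j hj => ?_) (card_insert_le _ _)
      by_cases h : j = j₀
      · rw [h]; exact mem_insert_self _ _
      · exact mem_insert_of_mem ((h1 j h).mp hj)
    · refine le_trans (card_le_card (t := insert j₀ (A v)) fun j hj => ?_) (card_insert_le _ _)
      by_cases h : j = j₀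
      · rw [h]; exact mem_insert_self _ _
      · exact mem_insert_of_mem ((h1 j h).mpr hj)
  have hAs : A N.source = ∅ := by
    simp only [hA]
    rw [filter_eq_empty_iff]
    intro j _ h
    exact h (Relation.EqvGen.refl _)
  have hAt : A N.sink = range (n - 1) := by
    simp only [hA]
    rw [filter_eq_self]
    intro j hj h
    exact hGjr j (mem_range.mp hj) ((hN (Gj j) (sparse_subset hGs fun e he => he.1)).mp h)
  have hval : ∀ k < n, ∃ v, (A v).card = k := by
    intro k hk
    refine intermediate (fun v => (A v).card) hstep ((hN G hGs).mpr hGr) k ?_ ?_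
    · rw [hAs]; simp
    · rw [hAt, card_range]; omega
  have : Nonempty W := ⟨N.source⟩
  choose! f hf using hval
  have hinj : Set.InjOn f (range n : Finset ℕ) := by
    intro a ha b hb hab
    have ha' : a < n := by simpa using ha
    have hb' : b < n := by simpa using hb
    rw [← hf a ha', ← hf b hb', hab]
  have := card_le_card_of_injOn (s := range n) (t := (univ : Finset W)) f
    (fun _ _ => mem_univ _) hinj
  rwa [card_range, card_univ] at this

theorem decidesSparse_of_on {n : ℕ} {W : Type} {𝒢 : Set (Set (Fin n × Fin n))}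
    (hsp : ∀ G, SparseDag G → G ∈ 𝒢) {s t : Fin n} {N : SwitchingNetwork (Fin n × Fin n) W}
    (h : N.DecidesOn 𝒢 s t) : N.DecidesSparse s t := fun G hG => h G (hsp G hG)

theorem vertices_le_cost {n : ℕ} {𝒢 : Set (Set (Fin n × Fin n))}
    (hsp : ∀ G, SparseDag G → G ∈ 𝒢) {s t : Fin n} (hst : s ≠ t) (M : Set (Fin n × Fin n)) :
    n ≤ cost 𝒢 s t M := by
  obtain ⟨N, h1, _⟩ := cost_spec (𝒢 := 𝒢) s t M
  have := card_le_states hst N (decidesSparse_of_on hsp h1)
  rwa [Fintype.card_fin] at this

theorem cost_lower {n : ℕ} {𝒢 : Set (Set (Fin n × Fin n))}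
    (hsp : ∀ G, SparseDag G → G ∈ 𝒢) {s t : Fin n} (hst : s ≠ t) (M : Set (Fin n × Fin n)) (d : ℕ)
    (hd : 2 ^ (20 * d + 100) ≤ nu M) : 2 ^ (d * d) ≤ cost 𝒢 s t M := by
  obtain ⟨N, h1, h2⟩ := cost_spec (𝒢 := 𝒢) s t M
  obtain ⟨P, hP, hc, _⟩ := nu_spec M
  have := explicit_bound d n 1 0 one_pos s t hst P hP.loopless
    (fun v => by
      rw [card_le_one]
      intro a ha b hb
      rw [mem_filter] at ha hb
      exact hP.tails a ha.1 b hb.1 (ha.2.trans hb.2.symm))
    (fun v => by
      rw [card_le_one]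
      intro a ha b hb
      rw [mem_filter] at ha hb
      exact hP.heads a ha.1 b hb.1 (ha.2.trans hb.2.symm))
    (by rw [hc, mul_one]; exact hd) (by simp) _ N (decidesSparse_of_on hsp h1) (by
      intro G hG hr
      refine ⟨Gᶜ \ M, Set.sdiff_subset, ?_, ?_⟩
      · have : (Gᶜ \ M) ∩ (P : Set (Fin n × Fin n)) = ∅ := by
          ext e
          simp only [Set.mem_inter_iff, Set.mem_sdiff, Set.mem_compl_iff, mem_coe,
            Set.mem_empty_iff_false, iff_false, not_and]
          exact fun h1 h2 => h1.2 (hP.sub e h2)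
        rw [this]; simp
      · have h3 := (h1 G (hsp G hG)).mpr hr
        unfold SwitchingNetwork.Connects at h3 ⊢
        refine eqv_map id (fun v w h => ?_) h3
        rcases h with h | h | ⟨e, he, h⟩
        · exact Or.inl h
        · exact Or.inr (Or.inl h)
        · exact Or.inr (Or.inr ⟨e, ⟨he, fun h' => h2 e h' v w h⟩, h⟩))
  rwa [Fintype.card_fin] at this

end Pool.Agent.Lib.Pe46137
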