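import Pool.Agent.Lib.Pe46137.Defs

/-!
The background paths through the clusters.
-/

namespace Pool.Agent.Lib.Pe46137

open Finset

variable {n : ℕ} {C : Type*}

/-- position of a vertex inside its cluster: first the entry vertices, then the exit vertices -/
def ord (ty : Fin n → Bool) (v : Fin n) : ℕ := (if ty v then n else 0) + v

theorem ord_lt (ty : Fin n → Bool) (v : Fin n) : ord ty v < 2 * n := by
  unfold ord
  have := v.2
  split_ifs <;> omega

theorem ord_inj {ty : Fin n → Bool} {v w : Fin n} (h : ord ty v = ord ty w) : v = w := by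
  unfold ord at h
  have h1 := v.2
  have h2 := w.2
  apply Fin.ext
  split_ifs at h <;> omega

theorem ord_lt_of_ty {ty : Fin n → Bool} {v w : Fin n} (hv : ty v = false) (hw : ty w = true) :
    ord ty v < ord ty w := by
  unfold ord
  have h1 := v.2
  rw [hv, hw]
  simp; omega

/-- consecutive vertices of a cluster -/
def Step (cl : Fin n → C) (ty : Fin n → Bool) (a b : Fin n) : Prop :=
  cl a = cl b ∧ ord ty a < ord ty b ∧ ∀ c, cl c = cl a → ord ty a < ord ty c → ord ty b ≤ ord ty c

theorem step_right_unique {cl : Fin n → C} {ty : Fin n → Bool} {a b b' : Fin n}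
    (h : Step cl ty a b) (h' : Step cl ty a b') : b = b' := by
  obtain ⟨h1, h2, h3⟩ := h
  obtain ⟨h1', h2', h3'⟩ := h'
  exact ord_inj (le_antisymm (h3 b' h1'.symm h2') (h3' b h1.symm h2))

theorem step_left_unique {cl : Fin n → C} {ty : Fin n → Bool} {a a' b : Fin n}
    (h : Step cl ty a b) (h' : Step cl ty a' b) : a = a' := by
  obtain ⟨h1, h2, h3⟩ := h
  obtain ⟨h1', h2', h3'⟩ := h'
  apply ord_inj (ty := ty)
  rcases lt_trichotomy (ord ty a) (ord ty a') with h | h | h
  · have := h3 a' (h1'.trans h1.symm) h
    omega
  · exact h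
  · have := h3' a (h1.trans h1'.symm) h
    omega

theorem reach_step (cl : Fin n → C) (ty : Fin n → Bool) (b : Fin n) :
    ∀ k : ℕ, ∀ a : Fin n, cl a = cl b → ord ty a ≤ ord ty b → ord ty b - ord ty a = k →
      Relation.ReflTransGen (Step cl ty) a b := by
  classical
  intro k
  induction k using Nat.strong_induction_on with
  | _ k ih =>
    intro a hab hle hk
    rcases eq_or_lt_of_le hle with h | h
    · rw [ord_inj h]
    · obtain ⟨c, hc, hmin⟩ := Finset.exists_min_image
        (univ.filter (fun c : Fin n => cl c = cl a ∧ ord ty a < ord ty c)) (ord ty)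
        ⟨b, by simp [hab, h]⟩
      simp only [mem_filter, mem_univ, true_and] at hc hmin
      have hcb : ord ty c ≤ ord ty b := hmin b ⟨hab.symm, h⟩
      have hstep : Step cl ty a c := ⟨hc.1.symm, hc.2, fun c' h1 h2 => hmin c' ⟨h1, h2⟩⟩
      exact Relation.ReflTransGen.head hstep
        (ih (ord ty b - ord ty c) (by omega) c (hc.1.trans hab) hcb rfl)

/-- background paths plus a set of arcs with distinct tails and distinct heads, each going from a
layer to the next one, form a sparse acyclic digraph -/
theorem sparse_of_distinct (cl : Fin n → C) (ty : Fin n → Bool) (lay : C → ℕ)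
    (H : Set (Fin n × Fin n)) (hH1 : ∀ a b b', (a, b) ∈ H → (a, b') ∈ H → b = b')
    (hH2 : ∀ a a' b, (a, b) ∈ H → (a', b) ∈ H → a = a')
    (hH3 : ∀ a b, (a, b) ∈ H → lay (cl b) = lay (cl a) + 1)
    (G : Set (Fin n × Fin n)) (hG : ∀ a b, (a, b) ∈ G → Step cl ty a b ∨ (a, b) ∈ H) :
    SparseDag G := by
  constructor
  · intro v hv
    have key : ∀ a b, Relation.TransGen (fun a b => (a, b) ∈ G) a b →
        lay (cl a) * (2 * n) + ord ty a < lay (cl b) * (2 * n) + ord ty b := by
      have one : ∀ a b, (a, b) ∈ G →
          lay (cl a) * (2 * n) + ord ty a < lay (cl b) * (2 * n) + ord ty b := by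
        intro a b hab
        rcases hG a b hab with h | h
        · rw [h.1]
          have := h.2.1
          omega
        · rw [hH3 a b h]
          have := ord_lt ty a
          rw [Nat.add_mul]
          omega
      intro a b hab
      induction hab with
      | single h => exact one _ _ h
      | tail _ h ih => exact lt_trans ih (one _ _ h)
    exact absurd (key v v hv) (lt_irrefl _)
  · intro v
    constructor
    · have hsub : {w | (v, w) ∈ G} ⊆ {w | Step cl ty v w} ∪ {w | (v, w) ∈ H} := by
        intro w hw
        exact hG v w hw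
      refine le_trans (Set.encard_le_encard hsub) (le_trans (Set.encard_union_le _ _) ?_)
      have h1 : {w | Step cl ty v w}.encard ≤ 1 := Set.encard_le_one_iff.mpr
        fun a b ha hb => step_right_unique ha hb
      have h2 : {w | (v, w) ∈ H}.encard ≤ 1 := Set.encard_le_one_iff.mpr
        fun a b ha hb => hH1 v a b ha hb
      calc _ ≤ (1 : ℕ∞) + 1 := add_le_add h1 h2
        _ = 2 := by norm_num
    · have hsub : {u | (u, v) ∈ G} ⊆ {u | Step cl ty u v} ∪ {u | (u, v) ∈ H} := by
        intro w hw
        exact hG w v hw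
      refine le_trans (Set.encard_le_encard hsub) (le_trans (Set.encard_union_le _ _) ?_)
      have h1 : {u | Step cl ty u v}.encard ≤ 1 := Set.encard_le_one_iff.mpr
        fun a b ha hb => step_left_unique ha hb
      have h2 : {u | (u, v) ∈ H}.encard ≤ 1 := Set.encard_le_one_iff.mpr
        fun a b ha hb => hH2 a b v ha hb
      calc _ ≤ (1 : ℕ∞) + 1 := add_le_add h1 h2
        _ = 2 := by norm_num

end Pool.Agent.Lib.Pe46137
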