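import Mathlib

/-!
Switching networks (contact schemes) and directed reachability.
-/

namespace Pool.Agent.Lib.Pe46137

/-- A switching network over Boolean variables indexed by `E`, with set of states `W`: an
undirected graph on `W` with two distinguished states, whose contacts are permanently closed
(`wire`), or labelled by a variable (`pos e`, closed when variable `e` is `1`), or labelled by a
negated variable (`neg e`, closed when variable `e` is `0`). Any pair of states may carry any
set of contacts. The relations need not be symmetric: contacts are traversed in both directions,
see `Connects`. -/
structure SwitchingNetwork (E W : Type*) where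
  source : W
  sink : W
  wire : W → W → Prop
  pos : E → W → W → Prop
  neg : E → W → W → Prop

namespace SwitchingNetwork

variable {E W V : Type*}

/-- a contact between `v` and `w` that is permanently closed, or labelled by a variable in `P`, or
labelled by the negation of a variable in `F` -/
def Closed (N : SwitchingNetwork E W) (P F : Set E) (v w : W) : Prop :=
  N.wire v w ∨ (∃ e ∈ P, N.pos e v w) ∨ ∃ e ∈ F, N.neg e v w

/-- source and sink are joined by an undirected walk that uses only permanently closed contacts,
contacts labelled by variables in `P`, and contacts labelled by negations of variables in `F` -/
def Connects (N : SwitchingNetwork E W) (P F : Set E) : Prop :=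
  Relation.EqvGen (N.Closed P F) N.source N.sink

end SwitchingNetwork

/-- `t` is reachable from `s` in the digraph with arc set `G` -/
def Reachable {V : Type*} (G : Set (V × V)) (s t : V) : Prop :=
  Relation.ReflTransGen (fun a b => (a, b) ∈ G) s t

/-- the digraph with arc set `G` has no directed cycle, and all its out-degrees and in-degrees
are at most two -/
def SparseDag {V : Type*} (G : Set (V × V)) : Prop :=
  (∀ v, ¬ Relation.TransGen (fun a b => (a, b) ∈ G) v v) ∧
    ∀ v, {w | (v, w) ∈ G}.encard ≤ 2 ∧ {u | (u, v) ∈ G}.encard ≤ 2

/-- the network decides reachability from `s` to `t` on acyclic digraphs with in-degrees and
out-degrees at most two: on every such input digraph with arc set `G` (the variables in `G` are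
`1`, those outside are `0`) source and sink are connected exactly if `t` is reachable from `s`;
nothing is required on other inputs -/
def SwitchingNetwork.DecidesSparse {V W : Type*} (N : SwitchingNetwork (V × V) W) (s t : V) :
    Prop :=
  ∀ G : Set (V × V), SparseDag G → (N.Connects G Gᶜ ↔ Reachable G s t)

end Pool.Agent.Lib.Pe46137
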