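import Mathlib

/-!
Second moment argument: a dense set of arcs has a vertex partition with many arcs between any two
parts.
-/

namespace Pool.Agent.Lib.Pe46137

open Finset

variable {V C : Type*} [Fintype V] [DecidableEq V] [Fintype C] [DecidableEq C]

/-- number of colourings with prescribed colours on `T` -/
theorem count_prescribed (T : Finset V) (ψ : V → C) :
    (univ.filter (fun φ : V → C => ∀ v ∈ T, φ v = ψ v)).card * Fintype.card C ^ T.card =
      Fintype.card C ^ Fintype.card V := by
  have h1 : (univ.filter (fun φ : V → C => ∀ v ∈ T, φ v = ψ v)) =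
      Fintype.piFinset (fun v => if v ∈ T then {ψ v} else (univ : Finset C)) := by
    ext φ
    simp only [mem_filter, mem_univ, true_and, Fintype.mem_piFinset]
    refine forall_congr' fun v => ?_
    by_cases hv : v ∈ T <;> simp [hv]
  rw [h1, Fintype.card_piFinset]
  have h2 : ∀ v : V, (if v ∈ T then ({ψ v} : Finset C) else univ).card =
      if v ∈ T then 1 else Fintype.card C := by
    intro v; split_ifs <;> simp
  rw [prod_congr rfl fun v _ => h2 v, Finset.prod_ite]
  simp only [prod_const_one, one_mul, prod_const]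
  rw [← pow_add]
  congr 1
  have : (univ.filter (fun v => v ∉ T)).card + T.card = Fintype.card V := by
    rw [← card_univ, ← card_filter_add_card_filter_not (s := (univ : Finset V)) (fun v => v ∈ T)]
    have : univ.filter (fun v => v ∈ T) = T := by ext; simp
    rw [this]; ring
  exact this

/-- number of colourings giving both arcs the colours `(u, w)` -/
def cnt (u w : C) (e e' : V × V) : ℕ :=
  (univ.filter (fun φ : V → C => (φ e.1 = u ∧ φ e.2 = w) ∧ (φ e'.1 = u ∧ φ e'.2 = w))).card

theorem cnt_le {u w : C} (huw : u ≠ w) {e e' : V × V} (he : e.1 ≠ e.2) (he' : e'.1 ≠ e'.2) :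
    cnt u w e e' * Fintype.card C ^ 4 ≤ Fintype.card C ^ Fintype.card V *
      (1 + Fintype.card C * ((if e.1 = e'.1 then 1 else 0) + (if e.2 = e'.2 then 1 else 0)) +
        Fintype.card C ^ 2 * (if e = e' then 1 else 0)) := by
  obtain ⟨a, b⟩ := e
  obtain ⟨a', b'⟩ := e'
  simp only at he he'
  set m := Fintype.card C with hm
  -- bound through a set of prescribed vertices
  have key : ∀ T : Finset V, T ⊆ {a, b, a', b'} → cnt u w (a, b) (a', b') * m ^ T.card ≤
      m ^ Fintype.card V := by
    intro T hT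
    rcases Nat.eq_zero_or_pos (cnt u w (a, b) (a', b')) with h0 | h0
    · rw [h0]; simp
    · obtain ⟨ψ, hψ⟩ := card_pos.mp h0
      simp only [mem_filter, mem_univ, true_and] at hψ
      rw [← count_prescribed T ψ]
      refine Nat.mul_le_mul_right _ (card_le_card ?_)
      intro φ hφ
      simp only [mem_filter, mem_univ, true_and] at hφ ⊢
      intro v hv
      have := hT hv
      simp only [mem_insert, mem_singleton] at this
      rcases this with h | h | h | h <;> subst h
      · rw [hφ.1.1, hψ.1.1]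
      · rw [hφ.1.2, hψ.1.2]
      · rw [hφ.2.1, hψ.2.1]
      · rw [hφ.2.2, hψ.2.2]
  by_cases haa : a = a'
  · by_cases hbb : b = b'
    · -- same arc
      have h1 := key {a, b} (by intro v; simp only [mem_insert, mem_singleton]; tauto)
      rw [card_pair he] at h1
      have h2 : cnt u w (a, b) (a', b') * m ^ 4 ≤ m ^ Fintype.card V * m ^ 2 := by
        calc cnt u w (a, b) (a', b') * m ^ 4 = cnt u w (a, b) (a', b') * m ^ 2 * m ^ 2 := by ring
          _ ≤ m ^ Fintype.card V * m ^ 2 := Nat.mul_le_mul_right _ h1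
      refine le_trans h2 (Nat.mul_le_mul_left _ ?_)
      subst haa hbb
      simp only [if_true, mul_one]
      omega
    · have h1 := key {a, b, b'} (by intro v; simp only [mem_insert, mem_singleton]; tauto)
      have hc : ({a, b, b'} : Finset V).card = 3 := by
        rw [card_eq_three]
        exact ⟨a, b, b', he, by rw [haa]; exact he', hbb, rfl⟩
      rw [hc] at h1
      have h2 : cnt u w (a, b) (a', b') * m ^ 4 ≤ m ^ Fintype.card V * m := by
        calc cnt u w (a, b) (a', b') * m ^ 4 = cnt u w (a, b) (a', b') * m ^ 3 * m := by ring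
          _ ≤ m ^ Fintype.card V * m := Nat.mul_le_mul_right _ h1
      refine le_trans h2 (Nat.mul_le_mul_left _ ?_)
      simp only [haa, if_true]
      split_ifs <;> nlinarith [Nat.zero_le m]
  · by_cases hbb : b = b'
    · have h1 := key {a, b, a'} (by intro v; simp only [mem_insert, mem_singleton]; tauto)
      have hc : ({a, b, a'} : Finset V).card = 3 := by
        rw [card_eq_three]
        exact ⟨a, b, a', he, haa, by rw [hbb]; exact he'.symm, rfl⟩
      rw [hc] at h1
      have h2 : cnt u w (a, b) (a', b') * m ^ 4 ≤ m ^ Fintype.card V * m := by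
        calc cnt u w (a, b) (a', b') * m ^ 4 = cnt u w (a, b) (a', b') * m ^ 3 * m := by ring
          _ ≤ m ^ Fintype.card V * m := Nat.mul_le_mul_right _ h1
      refine le_trans h2 (Nat.mul_le_mul_left _ ?_)
      simp only [hbb, if_true]
      split_ifs <;> nlinarith [Nat.zero_le m]
    · by_cases hab : a = b' ∨ b = a'
      · have h0 : cnt u w (a, b) (a', b') = 0 := by
          unfold cnt
          rw [card_eq_zero, filter_eq_empty_iff]
          intro φ _ h
          rcases hab with h' | h'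
          · exact huw (by rw [← h.1.1, ← h.2.2, h'])
          · exact huw (by rw [← h.1.2, ← h.2.1, h'])
        rw [h0]; simp
      · push Not at hab
        have h1 := key {a, b, a', b'} (fun v h => h)
        have hc : ({a, b, a', b'} : Finset V).card = 4 := by
          rw [card_eq_four]
          exact ⟨a, b, a', b', he, haa, hab.1, hab.2, hbb, he', rfl⟩
        rw [hc] at h1
        refine le_trans h1 ?_
        calc m ^ Fintype.card V = m ^ Fintype.card V * 1 := by ring
          _ ≤ _ := Nat.mul_le_mul_left _ (by omega)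

theorem count_arc {u w : C} {e : V × V} (he : e.1 ≠ e.2) :
    (univ.filter (fun φ : V → C => φ e.1 = u ∧ φ e.2 = w)).card * Fintype.card C ^ 2 =
      Fintype.card C ^ Fintype.card V := by
  have h := count_prescribed {e.1, e.2} (fun v => if v = e.1 then u else w)
  rw [card_pair he] at h
  rw [← h]
  congr 2
  ext φ
  simp only [mem_filter, mem_univ, true_and, mem_insert, mem_singleton, forall_eq_or_imp,
    forall_eq, if_true, if_neg he.symm]

theorem exists_partition [Nonempty C] (M : Finset (V × V)) (hM : ∀ e ∈ M, e.1 ≠ e.2) (Δ : ℕ)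
    (hout : ∀ v, (M.filter (fun e => e.1 = v)).card ≤ Δ)
    (hin : ∀ v, (M.filter (fun e => e.2 = v)).card ≤ Δ) (R : ℕ)
    (hR : 2 * (Fintype.card C) ^ 2 * R ≤ M.card)
    (hbig : 8 * Δ * (Fintype.card C) ^ 3 + 4 * (Fintype.card C) ^ 4 < M.card) :
    ∃ φ : V → C, ∀ u w, u ≠ w → R ≤ (M.filter (fun e => φ e.1 = u ∧ φ e.2 = w)).card := by
  set m := Fintype.card C with hm
  set n := Fintype.card V with hn
  by_contra hc
  push Not at hc
  -- every colouring is bad for some pair
  have hMpos : (0 : ℝ) < M.card := by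
    have : 0 < M.card := by omega
    exact_mod_cast this
  have hbad : ∀ u w : C, u ≠ w →
      ((univ.filter (fun φ : V → C =>
        (M.filter (fun e => φ e.1 = u ∧ φ e.2 = w)).card < R)).card : ℝ) * M.card ≤
        4 * (m : ℝ) ^ n * (2 * Δ * m + m ^ 2) := by
    intro u w huw
    set Nf : (V → C) → ℝ := fun φ => ((M.filter (fun e => φ e.1 = u ∧ φ e.2 = w)).card : ℝ) with hNf
    have hN1 : ∀ φ, Nf φ = ∑ e ∈ M, (if φ e.1 = u ∧ φ e.2 = w then (1 : ℝ) else 0) := by
      intro φ
      simp only [hNf]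
      rw [card_filter]
      push_cast
      rfl
    have s1 : (∑ φ, Nf φ) * (m : ℝ) ^ 2 = (m : ℝ) ^ n * M.card := by
      simp_rw [hN1]
      rw [sum_comm, sum_mul]
      have : ∀ e ∈ M, (∑ φ : V → C, (if φ e.1 = u ∧ φ e.2 = w then (1 : ℝ) else 0)) * (m : ℝ) ^ 2 =
          (m : ℝ) ^ n := by
        intro e he
        have h1 := count_arc (C := C) (u := u) (w := w) (hM e he)
        rw [← Finset.sum_filter, sum_const, nsmul_eq_mul, mul_one]
        exact_mod_cast h1
      rw [sum_congr rfl this, sum_const, nsmul_eq_mul, mul_comm]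
    have s2 : (∑ φ, Nf φ * Nf φ) * (m : ℝ) ^ 4 ≤
        (m : ℝ) ^ n * ((M.card : ℝ) ^ 2 + m * (2 * Δ * M.card) + m ^ 2 * M.card) := by
      have e1 : ∑ φ, Nf φ * Nf φ = ∑ e ∈ M, ∑ e' ∈ M, (cnt u w e e' : ℝ) := by
        simp_rw [hN1, sum_mul_sum]
        rw [sum_comm]
        refine sum_congr rfl fun e _ => ?_
        rw [sum_comm]
        refine sum_congr rfl fun e' _ => ?_
        unfold cnt
        rw [card_filter]
        push_cast
        refine sum_congr rfl fun φ _ => ?_
        by_cases h1 : φ e.1 = u ∧ φ e.2 = w <;> by_cases h2 : φ e'.1 = u ∧ φ e'.2 = w <;>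
          simp [h1, h2]
      rw [e1, sum_mul]
      simp_rw [sum_mul]
      have e2 : ∀ e ∈ M, ∀ e' ∈ M, (cnt u w e e' : ℝ) * (m : ℝ) ^ 4 ≤
          (m : ℝ) ^ n * (1 + m * ((if e.1 = e'.1 then 1 else 0) + (if e.2 = e'.2 then 1 else 0)) +
            m ^ 2 * (if e = e' then 1 else 0)) := by
        intro e he e' he'
        have := cnt_le huw (hM e he) (hM e' he')
        exact_mod_cast this
      refine le_trans (sum_le_sum fun e he => sum_le_sum fun e' he' => e2 e he e' he') ?_
      simp_rw [← mul_sum]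
      refine mul_le_mul_of_nonneg_left ?_ (by positivity)
      simp_rw [sum_add_distrib, ← mul_sum, sum_add_distrib]
      have t1 : ∑ _e ∈ M, ∑ _e' ∈ M, (1 : ℝ) = (M.card : ℝ) ^ 2 := by
        simp; ring
      have t2 : ∑ e ∈ M, ∑ e' ∈ M, (if e.1 = e'.1 then (1 : ℝ) else 0) ≤ Δ * M.card := by
        have : ∀ e ∈ M, ∑ e' ∈ M, (if e.1 = e'.1 then (1 : ℝ) else 0) ≤ Δ := by
          intro e _
          rw [← Finset.sum_filter, sum_const, nsmul_eq_mul, mul_one]
          have h1 : (M.filter (fun e' => e.1 = e'.1)).card ≤ Δ := by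
            have : M.filter (fun e' => e.1 = e'.1) = M.filter (fun e' => e'.1 = e.1) :=
              filter_congr fun x _ => eq_comm
            rw [this]; exact hout e.1
          exact_mod_cast h1
        refine le_trans (sum_le_sum this) ?_
        rw [sum_const, nsmul_eq_mul, mul_comm]
      have t3 : ∑ e ∈ M, ∑ e' ∈ M, (if e.2 = e'.2 then (1 : ℝ) else 0) ≤ Δ * M.card := by
        have : ∀ e ∈ M, ∑ e' ∈ M, (if e.2 = e'.2 then (1 : ℝ) else 0) ≤ Δ := by
          intro e _
          rw [← Finset.sum_filter, sum_const, nsmul_eq_mul, mul_one]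
          have h1 : (M.filter (fun e' => e.2 = e'.2)).card ≤ Δ := by
            have : M.filter (fun e' => e.2 = e'.2) = M.filter (fun e' => e'.2 = e.2) :=
              filter_congr fun x _ => eq_comm
            rw [this]; exact hin e.2
          exact_mod_cast h1
        refine le_trans (sum_le_sum this) ?_
        rw [sum_const, nsmul_eq_mul, mul_comm]
      have t4 : ∑ e ∈ M, ∑ e' ∈ M, (if e = e' then (1 : ℝ) else 0) = M.card := by
        have : ∀ e ∈ M, ∑ e' ∈ M, (if e = e' then (1 : ℝ) else 0) = 1 := by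
          intro e he
          rw [sum_ite_eq, if_pos he]
        rw [sum_congr rfl this]; simp
      rw [t1, t4]
      have hm0 : (0 : ℝ) ≤ m := by positivity
      nlinarith [mul_le_mul_of_nonneg_left t2 hm0, mul_le_mul_of_nonneg_left t3 hm0]
    have s3 : ∑ φ : V → C, ((m : ℝ) ^ 2 * Nf φ - M.card) ^ 2 ≤
        (m : ℝ) ^ n * (2 * Δ * m + m ^ 2) * M.card := by
      have e1 : ∑ φ : V → C, ((m : ℝ) ^ 2 * Nf φ - M.card) ^ 2 =
          (∑ φ, Nf φ * Nf φ) * (m : ℝ) ^ 4 - 2 * M.card * ((∑ φ, Nf φ) * (m : ℝ) ^ 2) +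
            (m : ℝ) ^ n * (M.card : ℝ) ^ 2 := by
        have : ∀ φ : V → C, ((m : ℝ) ^ 2 * Nf φ - M.card) ^ 2 =
            (Nf φ * Nf φ) * (m : ℝ) ^ 4 - 2 * M.card * (Nf φ * (m : ℝ) ^ 2) + (M.card : ℝ) ^ 2 := by
          intro φ; ring
        rw [sum_congr rfl fun φ _ => this φ, sum_add_distrib, sum_sub_distrib, ← sum_mul,
          ← mul_sum, ← sum_mul, sum_const, card_univ, Fintype.card_fun, nsmul_eq_mul]
        push_cast
        rfl
      rw [e1, s1]
      nlinarith
    have s4 : ((univ.filter (fun φ : V → C =>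
        (M.filter (fun e => φ e.1 = u ∧ φ e.2 = w)).card < R)).card : ℝ) * ((M.card : ℝ) / 2) ^ 2 ≤
        ∑ φ : V → C, ((m : ℝ) ^ 2 * Nf φ - M.card) ^ 2 := by
      rw [← nsmul_eq_mul, ← sum_const]
      refine le_trans (sum_le_sum (f := fun _ => ((M.card : ℝ) / 2) ^ 2)
        (g := fun φ => ((m : ℝ) ^ 2 * Nf φ - M.card) ^ 2) ?_)
        (sum_le_sum_of_subset_of_nonneg (subset_univ _) fun _ _ _ => sq_nonneg _)
      intro φ hφ
      simp only [mem_filter, mem_univ, true_and] at hφ
      have h1 : Nf φ ≤ R := by simp only [hNf]; exact_mod_cast hφ.le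
      have h2 : 2 * (m : ℝ) ^ 2 * R ≤ M.card := by exact_mod_cast hR
      have h3 : (m : ℝ) ^ 2 * Nf φ ≤ M.card / 2 := by
        have : (m : ℝ) ^ 2 * Nf φ ≤ (m : ℝ) ^ 2 * R := by gcongr
        linarith
      have h4 : ((m : ℝ) ^ 2 * Nf φ - M.card) ^ 2 = ((M.card : ℝ) - (m : ℝ) ^ 2 * Nf φ) ^ 2 := by ring
      rw [h4]
      have h5 : (M.card : ℝ) / 2 ≤ M.card - (m : ℝ) ^ 2 * Nf φ := by linarith
      gcongr
    have s5 := le_trans s4 s3
    have s6 : (((univ.filter (fun φ : V → C =>
        (M.filter (fun e => φ e.1 = u ∧ φ e.2 = w)).card < R)).card : ℝ) * M.card) * M.card ≤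
        (4 * (m : ℝ) ^ n * (2 * Δ * m + m ^ 2)) * M.card := by nlinarith
    exact le_of_mul_le_mul_right s6 hMpos
  -- union bound
  have hcover : (univ : Finset (V → C)) ⊆ (univ.filter (fun p : C × C => p.1 ≠ p.2)).biUnion
      (fun p => univ.filter (fun φ : V → C =>
        (M.filter (fun e => φ e.1 = p.1 ∧ φ e.2 = p.2)).card < R)) := by
    intro φ _
    obtain ⟨u, w, huw, h⟩ := hc φ
    simp only [mem_biUnion, mem_filter, mem_univ, true_and]
    exact ⟨(u, w), huw, h⟩
  have h1 : ((m : ℝ) ^ n) * M.card ≤ (m : ℝ) ^ 2 * (4 * (m : ℝ) ^ n * (2 * Δ * m + m ^ 2)) := by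
    have h2 := le_trans (card_le_card hcover) card_biUnion_le
    rw [card_univ, Fintype.card_fun] at h2
    have h3 : ((m : ℝ) ^ n) ≤ ∑ p ∈ univ.filter (fun p : C × C => p.1 ≠ p.2),
        ((univ.filter (fun φ : V → C =>
        (M.filter (fun e => φ e.1 = p.1 ∧ φ e.2 = p.2)).card < R)).card : ℝ) := by
      exact_mod_cast h2
    calc ((m : ℝ) ^ n) * M.card ≤ (∑ p ∈ univ.filter (fun p : C × C => p.1 ≠ p.2),
        ((univ.filter (fun φ : V → C =>
        (M.filter (fun e => φ e.1 = p.1 ∧ φ e.2 = p.2)).card < R)).card : ℝ)) * M.card := by gcongr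
      _ ≤ ∑ _p ∈ univ.filter (fun p : C × C => p.1 ≠ p.2),
          (4 * (m : ℝ) ^ n * (2 * Δ * m + m ^ 2)) := by
          rw [sum_mul]
          refine sum_le_sum fun p hp => ?_
          simp only [mem_filter, mem_univ, true_and] at hp
          exact hbad p.1 p.2 hp
      _ ≤ ∑ _p : C × C, (4 * (m : ℝ) ^ n * (2 * Δ * m + m ^ 2)) :=
          sum_le_sum_of_subset_of_nonneg (filter_subset _ _) fun _ _ _ => by positivity
      _ = (m : ℝ) ^ 2 * (4 * (m : ℝ) ^ n * (2 * Δ * m + m ^ 2)) := by
          rw [sum_const, card_univ, Fintype.card_prod, nsmul_eq_mul]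
          push_cast
          ring
  have hm0 : (0 : ℝ) < (m : ℝ) ^ n := by
    have : 0 < m := Fintype.card_pos
    positivity
  have h2 : (M.card : ℝ) ≤ 8 * Δ * m ^ 3 + 4 * m ^ 4 := by
    have h3 : ((m : ℝ) ^ n) * M.card ≤ ((m : ℝ) ^ n) * (8 * Δ * m ^ 3 + 4 * m ^ 4) := by nlinarith
    exact le_of_mul_le_mul_left h3 hm0
  have h4 : (M.card : ℝ) ≤ ((8 * Δ * m ^ 3 + 4 * m ^ 4 : ℕ) : ℝ) := by push_cast; exact h2
  have h5 : M.card ≤ 8 * Δ * m ^ 3 + 4 * m ^ 4 := by exact_mod_cast h4
  omega

end Pool.Agent.Lib.Pe46137
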