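import Pool.Agent.Lib.Pe46137.Assembly
import Pool.Agent.Lib.Pe46137.Partition

/-!
The parametric lower bound for an arbitrary dense set of arcs.
-/

namespace Pool.Agent.Lib.Pe46137

open Finset

universe u

open Classical in
/-- the parametric bound for an arbitrary set of arcs with many arcs compared to its degrees; the
arcs outside the set are fixed -/
theorem param2 {n : ℕ} {d l q : ℕ} [Fact q.Prime] (hd : 2 ≤ d) (hl : 2 ^ d ≤ l) (hlq : l ≤ q)
    {s t : Fin n} (hst : s ≠ t) (M : Finset (Fin n × Fin n)) (hloop : ∀ e ∈ M, e.1 ≠ e.2)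
    {Δ k : ℕ} (hout : ∀ v, (M.filter (fun e => e.1 = v)).card ≤ Δ)
    (hin : ∀ v, (M.filter (fun e => e.2 = v)).card ≤ Δ)
    (hA : 8 * Δ * (2 * (l * q + 2)) ^ 3 + 4 * (2 * (l * q + 2)) ^ 4 + 4 * Δ < M.card)
    (hB : 2 * (2 * (l * q + 2)) ^ 2 * (4 * k + 8 * (l * q + 2) ^ 3 * Δ + 1) + 4 * Δ ≤ M.card)
    : ∃ B : Set (Fin n × Fin n), Disjoint B (M : Set (Fin n × Fin n)) ∧
      ∀ (W : Type u) [Fintype W] (N : SwitchingNetwork (Fin n × Fin n) W),
      (∀ G : Set (Fin n × Fin n), SparseDag G → G \ M = B →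
        (N.Connects G Gᶜ ↔ Reachable G s t)) →
      (∀ G : Set (Fin n × Fin n), SparseDag G → G \ M = B → Reachable G s t →
        ∃ F ⊆ Gᶜ, (F ∩ (M : Set (Fin n × Fin n))).ncard ≤ k ∧ N.Connects G F) →
      (q : ℝ) ^ (d - 1) ≤ 2 * ((Fintype.card W : ℝ) ^ 2 * (9 * l + 1) ^ d) := by
  have : NeZero q := ⟨(Fact.out : q.Prime).ne_zero⟩
  have hcC : Fintype.card (Cl l q × Bool) = 2 * (l * q + 2) := by
    rw [Fintype.card_prod, card_Cl, Fintype.card_bool, mul_comm]
  set M' := M.filter (fun e => e.1 ≠ s ∧ e.1 ≠ t ∧ e.2 ≠ s ∧ e.2 ≠ t) with hM'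
  have hcard : M.card ≤ M'.card + 4 * Δ := by
    have h1 : M ⊆ M' ∪ (M.filter (fun e => e.1 = s) ∪ (M.filter (fun e => e.1 = t) ∪
          (M.filter (fun e => e.2 = s) ∪ M.filter (fun e => e.2 = t)))) := by
      intro e he
      simp only [hM', mem_union, mem_filter]
      by_cases h2 : e.1 = s
      · right; left; exact ⟨he, h2⟩
      by_cases h3 : e.1 = t
      · right; right; left; exact ⟨he, h3⟩
      by_cases h4 : e.2 = s
      · right; right; right; left; exact ⟨he, h4⟩
      by_cases h5 : e.2 = t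
      · right; right; right; right; exact ⟨he, h5⟩
      left; exact ⟨he, h2, h3, h4, h5⟩
    have h2 := card_le_card h1
    have u1 := card_union_le M' (M.filter (fun e => e.1 = s) ∪ (M.filter (fun e => e.1 = t) ∪
          (M.filter (fun e => e.2 = s) ∪ M.filter (fun e => e.2 = t))))
    have u2 := card_union_le (M.filter (fun e => e.1 = s)) (M.filter (fun e => e.1 = t) ∪
          (M.filter (fun e => e.2 = s) ∪ M.filter (fun e => e.2 = t)))
    have u3 := card_union_le (M.filter (fun e => e.1 = t))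
          (M.filter (fun e => e.2 = s) ∪ M.filter (fun e => e.2 = t))
    have u4 := card_union_le (M.filter (fun e => e.2 = s)) (M.filter (fun e => e.2 = t))
    have c1 := hout s
    have c2 := hout t
    have c3 := hin s
    have c4 := hin t
    omega
  have hM'sub : M' ⊆ M := filter_subset _ _
  obtain ⟨φ₀, hφ₀⟩ := exists_partition (C := Cl l q × Bool) M'
    (fun e he => hloop e (hM'sub he)) Δ
    (fun v => le_trans (card_le_card (filter_subset_filter _ hM'sub)) (hout v))
    (fun v => le_trans (card_le_card (filter_subset_filter _ hM'sub)) (hin v))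
    (4 * k + 8 * (l * q + 2) ^ 3 * Δ + 1)
    (by rw [hcC]; omega) (by rw [hcC]; omega)
  set φ : Fin n → Cl l q × Bool :=
    Function.update (Function.update φ₀ s (Sum.inr true, false)) t (Sum.inr false, true)
    with hφ
  have hφs : φ s = (Sum.inr true, false) := by
    rw [hφ, Function.update_of_ne hst, Function.update_self]
  have hφt : φ t = (Sum.inr false, true) := by
    rw [hφ, Function.update_self]
  have hφo : ∀ v, v ≠ s → v ≠ t → φ v = φ₀ v := by
    intro v h1 h2
    rw [hφ, Function.update_of_ne h2, Function.update_of_ne h1]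
  refine ⟨{a | Step (fun v => (φ v).1) (fun v => (φ v).2) a.1 a.2} \ M, Set.disjoint_sdiff_left,
    fun W _ N hN hneg => ?_⟩
  refine param hd hl hlq (fun v => (φ v).1) (fun v => (φ v).2) (s := s) (t := t)
    (by simp only [hφs]) (by simp only [hφs]) (by simp only [hφt]) (by simp only [hφt]) M
    (Δ := Δ) (R := 4 * k + 8 * (l * q + 2) ^ 3 * Δ + 1) (k := k) hout hin
    (by omega) (by omega) (by omega) ?_ N hN hneg
  intro u w
  refine le_trans (hφ₀ (u, true) (w, false) (by simp)) (card_le_card ?_)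
  intro e he
  simp only [hM', mem_filter] at he ⊢
  obtain ⟨⟨h1, h2, h3, h4, h5⟩, h6, h7⟩ := he
  rw [hφo _ h2 h3, hφo _ h4 h5, h6, h7]
  exact ⟨h1, ⟨rfl, rfl⟩, rfl, rfl⟩

end Pool.Agent.Lib.Pe46137
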