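import Mathlib

/-!
Elementary Fourier analysis on `Q → Bool` for the uniform average.
-/

namespace Pool.Agent.Lib.Pe46137

open Finset

set_option linter.unusedSectionVars false

variable {Q : Type*} [Fintype Q] [DecidableEq Q]

/-- the `±1` character of a set of coordinates -/
def chi {Q : Type*} (S : Finset Q) (x : Q → Bool) : ℝ := ∏ i ∈ S, (if x i then -1 else 1)

/-- the `0/1` monomial of a set of coordinates -/
def mono {Q : Type*} (S : Finset Q) (x : Q → Bool) : ℝ := ∏ i ∈ S, (if x i then 1 else 0)

/-- the uniform average -/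
noncomputable def avg (g : (Q → Bool) → ℝ) : ℝ := (∑ x, g x) / 2 ^ Fintype.card Q

theorem avg_add (g h : (Q → Bool) → ℝ) : avg (fun x => g x + h x) = avg g + avg h := by
  simp [avg, sum_add_distrib, add_div]

theorem avg_sub (g h : (Q → Bool) → ℝ) : avg (fun x => g x - h x) = avg g - avg h := by
  simp [avg, sum_sub_distrib, sub_div]

theorem avg_const_mul (c : ℝ) (g : (Q → Bool) → ℝ) : avg (fun x => c * g x) = c * avg g := by
  simp [avg, ← mul_sum, mul_div_assoc]

theorem avg_sum {ι : Type*} (s : Finset ι) (g : ι → (Q → Bool) → ℝ) :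
    avg (fun x => ∑ i ∈ s, g i x) = ∑ i ∈ s, avg (g i) := by
  simp only [avg]
  rw [sum_comm, sum_div]

theorem avg_const (c : ℝ) : avg (fun _ : Q → Bool => c) = c := by
  simp [avg]

theorem avg_mono {g h : (Q → Bool) → ℝ} (H : ∀ x, g x ≤ h x) : avg g ≤ avg h := by
  unfold avg
  exact div_le_div_of_nonneg_right (sum_le_sum fun x _ => H x) (by positivity)

theorem avg_nonneg {g : (Q → Bool) → ℝ} (H : ∀ x, 0 ≤ g x) : 0 ≤ avg g := by
  unfold avg
  exact div_nonneg (sum_nonneg fun x _ => H x) (by positivity)

/-- sum over the cube of a product over all coordinates -/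
theorem sum_prod_cube (a : Q → Bool → ℝ) :
    ∑ x : Q → Bool, ∏ i, a i (x i) = ∏ i, (a i true + a i false) := by
  have := Finset.prod_univ_sum (fun _ : Q => (Finset.univ : Finset Bool)) a
  rw [Fintype.piFinset_univ] at this
  rw [← this]
  exact prod_congr rfl fun i _ => by simp

theorem chi_eq_prod_univ (S : Finset Q) (x : Q → Bool) :
    chi S x = ∏ i, (if i ∈ S then (if x i then (-1 : ℝ) else 1) else 1) := by
  unfold chi
  rw [Finset.prod_ite_mem, univ_inter]

theorem avg_chi_mul (S T : Finset Q) :
    avg (fun x => chi S x * chi T x) = if S = T then 1 else 0 := by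
  unfold avg
  have h1 := sum_prod_cube (Q := Q) (fun (i : Q) (b : Bool) =>
      (if i ∈ S then (if b then (-1 : ℝ) else 1) else 1) *
        (if i ∈ T then (if b then (-1 : ℝ) else 1) else 1))
  have h2 : ∑ x : Q → Bool, chi S x * chi T x = _ :=
    (sum_congr rfl fun x _ => by
      rw [chi_eq_prod_univ, chi_eq_prod_univ, ← prod_mul_distrib]).trans h1
  rw [h2]
  by_cases h : S = T
  · subst h
    have : ∀ i : Q, ((if i ∈ S then (if true then (-1 : ℝ) else 1) else 1) *
        (if i ∈ S then (if true then (-1 : ℝ) else 1) else 1) +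
        (if i ∈ S then (if false then (-1 : ℝ) else 1) else 1) *
        (if i ∈ S then (if false then (-1 : ℝ) else 1) else 1)) = 2 := by
      intro i
      by_cases hi : i ∈ S <;> simp [hi] <;> norm_num
    rw [prod_congr rfl fun i _ => this i, prod_const, card_univ, if_pos rfl]
    field_simp
  · rw [if_neg h]
    obtain ⟨i, hi⟩ : ∃ i, ¬ (i ∈ S ↔ i ∈ T) := by
      by_contra hc
      push Not at hc
      exact h (Finset.ext hc)
    rw [prod_eq_zero (mem_univ i), zero_div]
    by_cases hS : i ∈ S <;> by_cases hT : i ∈ T <;> simp_all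

/-- the Fourier coefficient -/
noncomputable def coef (g : (Q → Bool) → ℝ) (S : Finset Q) : ℝ := avg (fun x => g x * chi S x)

theorem sum_chi_mul (x y : Q → Bool) :
    ∑ S : Finset Q, chi S x * chi S y = if x = y then 2 ^ Fintype.card Q else 0 := by
  have h1 : ∀ S : Finset Q, chi S x * chi S y =
      ∏ i ∈ S, ((if x i then (-1 : ℝ) else 1) * (if y i then (-1 : ℝ) else 1)) := by
    intro S
    unfold chi
    rw [prod_mul_distrib]
  simp_rw [h1]
  rw [← Finset.powerset_univ, ← Finset.prod_one_add]
  split_ifs with h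
  · subst h
    rw [prod_congr rfl (g := fun _ => (2 : ℝ)) (fun i _ => by split_ifs <;> norm_num), prod_const,
      card_univ]
  · obtain ⟨i, hi⟩ : ∃ i, x i ≠ y i := by
      by_contra hc
      push Not at hc
      exact h (funext hc)
    refine prod_eq_zero (mem_univ i) ?_
    cases hx : x i <;> cases hy : y i <;> simp_all

/-- Fourier expansion -/
theorem expand (g : (Q → Bool) → ℝ) (x : Q → Bool) : g x = ∑ S : Finset Q, coef g S * chi S x := by
  unfold coef avg
  have h1 : ∀ S : Finset Q, (∑ y, g y * chi S y) / 2 ^ Fintype.card Q * chi S x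
      = ∑ y, g y / 2 ^ Fintype.card Q * (chi S y * chi S x) := by
    intro S
    rw [sum_div, sum_mul]
    exact sum_congr rfl fun y _ => by ring
  simp_rw [h1]
  rw [sum_comm]
  simp_rw [← mul_sum, sum_chi_mul]
  simp [Finset.sum_ite_eq']

/-- transported character -/
theorem chi_comp {R : Type*} [Fintype R] [DecidableEq R] (p : Q ↪ R) (S : Finset Q)
    (x : R → Bool) : chi S (fun i => x (p i)) = chi (S.map p) x := by
  unfold chi
  rw [prod_map]

/-- inner products of functions of transported coordinates -/
theorem avg_comp_mul {R : Type*} [Fintype R] [DecidableEq R] {Q' : Type*} [Fintype Q']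
    [DecidableEq Q'] (p : Q ↪ R) (p' : Q' ↪ R)
    (g : (Q → Bool) → ℝ) (g' : (Q' → Bool) → ℝ) :
    avg (fun x : R → Bool => g (fun i => x (p i)) * g' (fun i => x (p' i))) =
      ∑ S : Finset Q, ∑ S' : Finset Q', if S.map p = S'.map p' then coef g S * coef g' S' else 0 := by
  have h1 : (fun x : R → Bool => g (fun i => x (p i)) * g' (fun i => x (p' i))) =
      fun x => ∑ S : Finset Q, ∑ S' : Finset Q',
        (coef g S * coef g' S') * (chi (S.map p) x * chi (S'.map p') x) := by
    funext x
    rw [expand g, expand g', sum_mul_sum]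
    refine sum_congr rfl fun S _ => sum_congr rfl fun S' _ => ?_
    rw [chi_comp, chi_comp]
    ring
  rw [h1, avg_sum]
  refine sum_congr rfl fun S _ => ?_
  rw [avg_sum]
  refine sum_congr rfl fun S' _ => ?_
  rw [avg_const_mul, avg_chi_mul]
  split_ifs <;> simp

/-- the second moment of a function of transported coordinates -/
theorem avg_comp_sq {R : Type*} [Fintype R] [DecidableEq R] (p : Q ↪ R) (g : (Q → Bool) → ℝ) :
    avg (fun x : R → Bool => g (fun i => x (p i)) * g (fun i => x (p i))) =
      avg (fun y => g y * g y) := by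
  have h1 := avg_comp_mul p p g g
  have h2 := avg_comp_mul (Function.Embedding.refl Q) (Function.Embedding.refl Q) g g
  simp only [Function.Embedding.refl_apply, Finset.map_refl] at h2
  rw [h1]
  change _ = avg (fun x => g (fun i => x i) * g (fun i => x i))
  rw [h2]
  refine sum_congr rfl fun S _ => sum_congr rfl fun S' _ => ?_
  simp [Finset.map_inj]

theorem chi_eq_sum_mono (S : Finset Q) (x : Q → Bool) :
    chi S x = ∑ T ∈ S.powerset, (-2) ^ T.card * mono T x := by
  unfold chi mono
  rw [prod_congr rfl (g := fun i => 1 + (-2 : ℝ) * (if x i then 1 else 0))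
    (fun i _ => by split_ifs <;> norm_num), Finset.prod_one_add]
  exact sum_congr rfl fun T _ => by rw [prod_mul_distrib, prod_const]

theorem mono_eq_sum_chi (S : Finset Q) (x : Q → Bool) :
    mono S x = (1 / 2) ^ S.card * ∑ T ∈ S.powerset, (-1) ^ T.card * chi T x := by
  unfold chi mono
  rw [prod_congr rfl (g := fun i => (1 / 2) * (1 + (-1 : ℝ) * (if x i then -1 else 1)))
    (fun i _ => by split_ifs <;> norm_num), prod_mul_distrib, prod_const, Finset.prod_one_add]
  congr 1
  exact sum_congr rfl fun T _ => by rw [prod_mul_distrib, prod_const]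

/-- Moebius inversion on the subset lattice -/
theorem moebius (U : Finset Q) : ∀ F : Finset Q → ℝ,
    ∑ W ∈ U.powerset, (-1) ^ W.card * ∑ T ∈ W.powerset, F T = (-1) ^ U.card * F U := by
  induction U using Finset.induction_on with
  | empty => intro F; simp
  | insert a U ha ih =>
    intro F
    rw [sum_powerset_insert ha, ← sum_add_distrib]
    have h1 : ∀ W ∈ U.powerset, ((-1 : ℝ) ^ W.card * ∑ T ∈ W.powerset, F T +
        (-1) ^ (insert a W).card * ∑ T ∈ (insert a W).powerset, F T) =
        - ((-1) ^ W.card * ∑ T ∈ W.powerset, F (insert a T)) := by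
      intro W hW
      have haW : a ∉ W := fun h => ha (mem_powerset.mp hW h)
      rw [card_insert_of_notMem haW, sum_powerset_insert haW]
      ring
    rw [sum_congr rfl h1, sum_neg_distrib, ih (fun T => F (insert a T)), card_insert_of_notMem ha]
    ring

/-- if a function annihilates all monomials of degree at most `m`, its Fourier coefficients up to
level `m` vanish -/
theorem coef_eq_zero_of_mono {g : (Q → Bool) → ℝ} {m : ℕ}
    (h : ∀ T : Finset Q, T.card ≤ m → avg (fun x => g x * mono T x) = 0)
    {S : Finset Q} (hS : S.card ≤ m) : coef g S = 0 := by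
  unfold coef
  have h1 : (fun x => g x * chi S x) =
      fun x => ∑ T ∈ S.powerset, (-2 : ℝ) ^ T.card * (g x * mono T x) := by
    funext x
    rw [chi_eq_sum_mono, mul_sum]
    exact sum_congr rfl fun T _ => by ring
  rw [h1, avg_sum]
  refine sum_eq_zero fun T hT => ?_
  rw [avg_const_mul, h T (le_trans (card_le_card (mem_powerset.mp hT)) hS), mul_zero]

/-- Cauchy-Schwarz for the average -/
theorem avg_mul_sq_le (g h : (Q → Bool) → ℝ) :
    (avg (fun x => g x * h x)) ^ 2 ≤ avg (fun x => g x * g x) * avg (fun x => h x * h x) := by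
  unfold avg
  rw [div_pow, div_mul_div_comm, ← sq]
  refine div_le_div_of_nonneg_right ?_ (by positivity)
  have := Finset.sum_mul_sq_le_sq_mul_sq (univ : Finset (Q → Bool)) g h
  simpa [sq] using this

end Pool.Agent.Lib.Pe46137
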