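import Mathlib

/-!
Few random positions hit a small set often, and averaging over a finite family.
-/

namespace Pool.Agent.Lib.Pe46137

open Finset

/-- independent uniform positions `lam j` in blocks of length `b` rarely hit prescribed sets of
total size at most `ρ` more than `h` times -/
theorem hits_bound {t b ρ β : ℕ} (hβ : 1 ≤ β) (hb : β * ρ ≤ b) (I : Fin t → Finset (Fin b))
    (hI : ∑ j, (I j).card ≤ ρ) (h : ℕ) :
    ((univ.filter (fun lam : Fin t → Fin b =>
      h ≤ (univ.filter (fun j => lam j ∈ I j)).card)).card : ℝ) * (β : ℝ) ^ h ≤ 3 * (b : ℝ) ^ t := by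
  classical
  have hβ' : (1 : ℝ) ≤ β := by exact_mod_cast hβ
  have e1 : ∑ lam : Fin t → Fin b, ∏ j, (if lam j ∈ I j then (β : ℝ) else 1) =
      ∏ j, ((b : ℝ) + (β - 1) * (I j).card) := by
    have := Finset.prod_univ_sum (fun _ : Fin t => (Finset.univ : Finset (Fin b)))
      (fun j a => if a ∈ I j then (β : ℝ) else 1)
    rw [Fintype.piFinset_univ] at this
    rw [← this]
    refine prod_congr rfl fun j _ => ?_
    have h1 : ∀ a : Fin b, (if a ∈ I j then (β : ℝ) else 1) =
        1 + (if a ∈ I j then ((β : ℝ) - 1) else 0) := by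
      intro a; split_ifs <;> ring
    rw [sum_congr rfl fun a _ => h1 a, sum_add_distrib, sum_const, card_univ, Fintype.card_fin,
      Finset.sum_ite_mem, univ_inter, sum_const, nsmul_eq_mul, nsmul_eq_mul, mul_one]
    ring
  have e2 : ((univ.filter (fun lam : Fin t → Fin b =>
      h ≤ (univ.filter (fun j => lam j ∈ I j)).card)).card : ℝ) * (β : ℝ) ^ h ≤
      ∑ lam : Fin t → Fin b, ∏ j, (if lam j ∈ I j then (β : ℝ) else 1) := by
    rw [← nsmul_eq_mul, ← sum_const]
    refine le_trans (sum_le_sum (g := fun lam => ∏ j, (if lam j ∈ I j then (β : ℝ) else 1)) ?_)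
      (sum_le_sum_of_subset_of_nonneg (subset_univ _) fun lam _ _ => prod_nonneg fun j _ => by
        split_ifs <;> linarith)
    intro lam hlam
    rw [mem_filter] at hlam
    rw [prod_ite, prod_const, prod_const_one, mul_one]
    exact pow_le_pow_right₀ hβ' hlam.2
  refine le_trans e2 ?_
  rw [e1]
  rcases Nat.eq_zero_or_pos b with hb0 | hb0
  · subst hb0
    rcases Nat.eq_zero_or_pos t with ht | ht
    · subst ht; simp
    · have : ∀ j : Fin t, (I j).card = 0 := by
        intro j
        have := card_le_univ (I j)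
        simpa using this
      have h2 : ∏ j : Fin t, (((0 : ℕ) : ℝ) + (β - 1) * (I j).card) = 0 := by
        refine prod_eq_zero (mem_univ (⟨0, ht⟩ : Fin t)) ?_
        rw [this]; simp
      rw [h2]; positivity
  · have hb' : (0 : ℝ) < b := by exact_mod_cast hb0
    have e3 : ∀ j : Fin t, (b : ℝ) + (β - 1) * (I j).card ≤
        b * Real.exp (((β : ℝ) * (I j).card) / b) := by
      intro j
      have h3 := Real.add_one_le_exp (((β : ℝ) * (I j).card) / b)
      have h4 : (b : ℝ) * (((β : ℝ) * (I j).card) / b + 1) = β * (I j).card + b := by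
        field_simp
      have h5 : (0 : ℝ) ≤ (I j).card := Nat.cast_nonneg _
      nlinarith
    refine le_trans (prod_le_prod (fun j _ => ?_) fun j _ => e3 j) ?_
    · have h5 : (0 : ℝ) ≤ (I j).card := Nat.cast_nonneg _
      nlinarith
    · rw [prod_mul_distrib, prod_const, card_univ, Fintype.card_fin, ← Real.exp_sum, mul_comm]
      refine mul_le_mul_of_nonneg_right ?_ (by positivity)
      have h6 : ∑ j : Fin t, ((β : ℝ) * (I j).card) / b ≤ 1 := by
        rw [← sum_div, ← mul_sum, div_le_one hb']
        have h7 : (∑ j, ((I j).card : ℝ)) ≤ ρ := by exact_mod_cast hI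
        have h8 : (β : ℝ) * ρ ≤ b := by exact_mod_cast hb
        nlinarith
      have h9 : Real.exp 1 ≤ 3 := by
        have := Real.exp_one_lt_d9
        linarith
      exact le_trans (Real.exp_le_exp.mpr h6) h9

/-- averaging over a finite family -/
theorem average_family {Ω Fm : Type*} [DecidableEq Ω] [Fintype Fm] [Nonempty Fm] (P : Finset Ω)
    (hP : P.Nonempty) (Z : Finset Ω) (hZ : 4 * Z.card ≤ P.card) (bad : Fm → Ω → Prop)
    [∀ f, DecidablePred (bad f)] (hbad : ∀ f, 4 * (P.filter (bad f)).card ≤ P.card) :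
    ∃ ω ∈ P, ω ∉ Z ∧ Fintype.card Fm ≤ 2 * (univ.filter (fun f => ¬ bad f ω)).card := by
  classical
  by_contra hc
  push Not at hc
  have h0 : 0 < P.card := card_pos.mpr hP
  have h2 : ∑ f : Fm, 4 * (P.filter (bad f)).card =
      ∑ ω ∈ P, 4 * (univ.filter (fun f => bad f ω)).card := by
    rw [← mul_sum, ← mul_sum]
    congr 1
    simp_rw [card_filter]
    exact sum_comm
  have h3 : ∀ ω ∈ P \ Z, 2 * Fintype.card Fm ≤ 4 * (univ.filter (fun f => bad f ω)).card := by
    intro ω hω
    rw [mem_sdiff] at hω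
    have h4 := hc ω hω.1 hω.2
    have h5 : (univ.filter (fun f => bad f ω)).card + (univ.filter (fun f => ¬ bad f ω)).card =
        Fintype.card Fm := by
      rw [← card_univ, card_filter_add_card_filter_not]
    omega
  have h4 : ∑ ω ∈ P \ Z, 2 * Fintype.card Fm ≤
      ∑ ω ∈ P, 4 * (univ.filter (fun f => bad f ω)).card :=
    le_trans (sum_le_sum h3) (sum_le_sum_of_subset sdiff_subset)
  rw [← h2, sum_const, smul_eq_mul] at h4
  have h5 : ∑ f : Fm, 4 * (P.filter (bad f)).card ≤ ∑ _f : Fm, P.card :=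
    sum_le_sum fun f _ => hbad f
  rw [sum_const, card_univ, smul_eq_mul] at h5
  have h6 : P.card ≤ (P \ Z).card + Z.card := by
    have := le_card_sdiff Z P
    omega
  have h7 : 0 < Fintype.card Fm := Fintype.card_pos
  have h8 : (P \ Z).card * (2 * Fintype.card Fm) ≤ Fintype.card Fm * P.card := le_trans h4 h5
  have h9 : 3 * P.card ≤ 4 * (P \ Z).card := by omega
  have h10 : 3 * P.card * Fintype.card Fm ≤ 2 * (P.card * Fintype.card Fm) := by
    calc 3 * P.card * Fintype.card Fm
        ≤ 4 * (P \ Z).card * Fintype.card Fm := Nat.mul_le_mul_right _ h9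
      _ = 2 * ((P \ Z).card * (2 * Fintype.card Fm)) := by ring
      _ ≤ 2 * (Fintype.card Fm * P.card) := Nat.mul_le_mul_left _ h8
      _ = 2 * (P.card * Fintype.card Fm) := by ring
  have h11 : 0 < P.card * Fintype.card Fm := Nat.mul_pos h0 h7
  have h12 : 3 * P.card * Fintype.card Fm = 3 * (P.card * Fintype.card Fm) := by ring
  omega

end Pool.Agent.Lib.Pe46137
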