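import Pool.Agent.Lib.Pe46137.Cost

/-!
The logarithmic form of the bounds.
-/

namespace Pool.Agent.Lib.Pe46137

open Finset

theorem logb_cast_pow (a : ℕ) : Real.logb 2 (((2 : ℕ) ^ a : ℕ) : ℝ) = a := by
  rw [Nat.cast_pow, Real.logb_pow]
  simp

theorem logb_le_of_le {x y : ℕ} (hx : 0 < x) (h : x ≤ y) :
    Real.logb 2 (x : ℝ) ≤ Real.logb 2 (y : ℝ) :=
  Real.logb_le_logb_of_le (by norm_num) (by exact_mod_cast hx) (by exact_mod_cast h)

theorem log_form {n S T ν : ℕ} (hn : 2 ≤ n) (hnS : n ≤ S) (hST : S ≤ T)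
    (hup : T ≤ (4 * ν + 5) ^ (Nat.clog 2 (2 * ν + 2)) * (n * n * (S + 4) + 4))
    (hlow : ∀ d, 2 ^ (20 * d + 100) ≤ ν → 2 ^ (d * d) ≤ T) :
    Real.logb 2 S + (Real.logb 2 ν) ^ 2 ≤ 30000 * Real.logb 2 T ∧
    Real.logb 2 T ≤ 30000 * (Real.logb 2 S + (Real.logb 2 ν) ^ 2) := by
  set a := Nat.log 2 ν with ha
  have hS2 : 2 ≤ S := le_trans hn hnS
  have hLS : 1 ≤ Real.logb 2 S := by
    have := logb_le_of_le (by norm_num) hS2
    simpa using this
  have hLT : Real.logb 2 S ≤ Real.logb 2 T := logb_le_of_le (by omega) hST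
  have hνlt : ν < 2 ^ (a + 1) := Nat.lt_pow_succ_log_self (by norm_num) ν
  have hν0 : 0 ≤ Real.logb 2 ν := by
    rcases Nat.eq_zero_or_pos ν with h | h
    · rw [h]; simp
    · exact Real.logb_nonneg (by norm_num) (by exact_mod_cast h)
  have hνle : Real.logb 2 ν ≤ a + 1 := by
    rcases Nat.eq_zero_or_pos ν with h | h
    · rw [h]; simp; positivity
    · have := logb_le_of_le h hνlt.le
      rw [logb_cast_pow] at this
      push_cast at this
      exact this
  have haν : (a : ℝ) ≤ Real.logb 2 ν := by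
    rcases Nat.eq_zero_or_pos ν with h | h
    · rw [ha, h]; simp
    · have := logb_le_of_le (by positivity) (Nat.pow_log_le_self 2 h.ne')
      rw [logb_cast_pow] at this
      exact this
  constructor
  · -- lower bound
    have key : (Real.logb 2 ν) ^ 2 ≤ 29600 * Real.logb 2 T := by
      rcases Nat.lt_or_ge a 100 with h | h
      · have h1 : (a : ℝ) + 1 ≤ 100 := by
          have : a + 1 ≤ 100 := h
          exact_mod_cast this
        have h2 : Real.logb 2 ν ≤ 100 := le_trans hνle h1
        nlinarith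
      · set d := (a - 100) / 20 with hd
        have hν1 : ν ≠ 0 := by
          intro h0
          rw [ha, h0] at h
          simp at h
        have hda : 20 * d + 100 ≤ a := by omega
        have hda' : a + 1 ≤ 20 * d + 120 := by omega
        have h1 := hlow d (le_trans (Nat.pow_le_pow_right (by norm_num) hda)
          (Nat.pow_log_le_self 2 hν1))
        have h2 := logb_le_of_le (by positivity) h1
        rw [logb_cast_pow] at h2
        push_cast at h2
        have h3 : Real.logb 2 ν ≤ 20 * d + 120 := by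
          refine le_trans hνle ?_
          exact_mod_cast hda'
        have h4 : (Real.logb 2 ν) ^ 2 ≤ (20 * (d : ℝ) + 120) ^ 2 := by gcongr
        have h5 : (20 * (d : ℝ) + 120) ^ 2 ≤ 800 * (d * d) + 28800 := by nlinarith [sq_nonneg ((20 : ℝ) * d - 120)]
        nlinarith
    nlinarith
  · -- upper bound
    have h1 : Nat.clog 2 (2 * ν + 2) ≤ a + 2 := by
      refine Nat.clog_le_of_le_pow ?_
      rw [pow_succ]
      omega
    have h2 : 4 * ν + 5 ≤ 2 ^ (a + 4) := by
      have : 2 ^ (a + 4) = 8 * 2 ^ (a + 1) := by rw [pow_add, pow_add]; ring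
      rw [this]
      have : 1 ≤ 2 ^ (a + 1) := Nat.one_le_two_pow
      omega
    have h3 : n * n * (S + 4) + 4 ≤ S ^ 5 := by
      have e1 : n * n * (S + 4) ≤ S * S * (S + 4) := by gcongr
      have e2 : S * S * (S + 4) + 4 ≤ 4 * (S * S * S) := by nlinarith
      have e3 : 4 * (S * S * S) ≤ (S * S) * (S * S * S) := by
        refine Nat.mul_le_mul_right _ ?_
        nlinarith
      calc n * n * (S + 4) + 4 ≤ (S * S) * (S * S * S) := by omega
        _ = S ^ 5 := by ring
    have h4 : T ≤ 2 ^ ((a + 4) * (a + 2)) * S ^ 5 := by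
      refine le_trans hup (Nat.mul_le_mul ?_ h3)
      rw [pow_mul]
      exact le_trans (Nat.pow_le_pow_left h2 _) (Nat.pow_le_pow_right (by positivity) h1)
    have h5 := logb_le_of_le (by omega) h4
    rw [Nat.cast_mul, Real.logb_mul (by positivity) (by positivity), logb_cast_pow, Nat.cast_pow,
      Real.logb_pow] at h5
    push_cast at h5
    have h6 : ((a : ℝ) + 4) * (a + 2) ≤ (Real.logb 2 ν + 4) * (Real.logb 2 ν + 2) := by gcongr
    nlinarith [sq_nonneg (Real.logb 2 ν - 1)]

end Pool.Agent.Lib.Pe46137
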