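import Pool.Agent.Lib.Pe46137.Defs

/-!
Arbitrary reductions from directed to undirected reachability, and certificates of their edges.
-/

namespace Pool.Agent.Lib.Pe46137

/-- a reduction to undirected reachability on `W`: two marked vertices, and an arbitrary map that
assigns to every digraph on `V`, given by its arc set, a graph on `W` (`edge` need not be
symmetric, edges are traversed in both directions) -/
structure Reduction (V W : Type*) where
  source : W
  sink : W
  edge : Set (V × V) → W → W → Prop

namespace Reduction

variable {V W : Type*}

/-- on the digraphs in `𝒢`, source and sink are connected exactly if `t` is reachable from `s` -/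
def Correct (H : Reduction V W) (𝒢 : Set (Set (V × V))) (s t : V) : Prop :=
  ∀ G ∈ 𝒢, (Relation.EqvGen (H.edge G) H.source H.sink ↔ Reachable G s t)

/-- the edge `v w` of the graph assigned to `G` is certified by a set `I` of arcs of `G`, at most
`ρ` of them in `M`, and the absence of the arcs in `F`: every digraph of `𝒢` that contains `I` and
avoids `F` is assigned a graph with this edge -/
def Certified (H : Reduction V W) (𝒢 : Set (Set (V × V))) (M : Set (V × V)) (ρ : ℕ)
    (F G : Set (V × V)) (v w : W) : Prop :=
  ∃ I ⊆ G, (I ∩ M).ncard ≤ ρ ∧ ∀ G' ∈ 𝒢, I ⊆ G' → Disjoint F G' → H.edge G' v w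

/-- every digraph `G` in `𝒢` in which `t` is reachable from `s` has a set `F` of absent arcs, at
most `k` of them in `M`, and a walk from source to sink all of whose edges are certified by `F` and
at most `ρ` arcs of `M` in `G` (a set for each edge) -/
def Local (H : Reduction V W) (𝒢 : Set (Set (V × V))) (s t : V) (M : Set (V × V)) (ρ k : ℕ) :
    Prop :=
  ∀ G ∈ 𝒢, Reachable G s t → ∃ F ⊆ Gᶜ, (F ∩ M).ncard ≤ k ∧
    Relation.EqvGen (H.Certified 𝒢 M ρ F G) H.source H.sink

end Reduction

end Pool.Agent.Lib.Pe46137
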