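import Pool.Agent.Lib.Pe46137.LongPos
import Pool.Agent.Lib.Pe46137.RedDefs
import Pool.Agent.Lib.Pe46137.CoreSet
import Pool.Agent.Lib.Pe46137.Hits

/-!
Ingredients of the lower bound for reductions: collisions, seen positions, hidden inputs.
-/

namespace Pool.Agent.Lib.Pe46137

open Finset

set_option linter.unusedSectionVars false

variable {n L q : ℕ}

/-- the arcs in `M` that collide with a value of `σ` on a pair other than `e` -/
noncomputable def clash (M : Finset (Fin n × Fin n)) (e : Pr L q) (σ : Pr L q → Fin n × Fin n) :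
    Finset (Fin n × Fin n) := by
  classical
  exact M.filter (fun a => ∃ e' : Pr L q, e' ≠ e ∧ ((e'.1.1 = e.1.1 ∧ a.1 = (σ e').1) ∨
      (e'.1.2 = e.1.2 ∧ a.2 = (σ e').2)))

open Classical in
theorem clash_update (M : Finset (Fin n × Fin n)) (e : Pr L q) (σ : Pr L q → Fin n × Fin n)
    (y : Fin n × Fin n) : clash M e (Function.update σ e y) = clash M e σ := by
  unfold clash
  congr 1
  funext a
  refine propext (exists_congr fun e' => and_congr_right fun he' => ?_)
  rw [Function.update_of_ne he']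

open Classical in
theorem clash_card [NeZero q] {M : Finset (Fin n × Fin n)} {Δ : ℕ}
    (hout : ∀ v, (M.filter (fun e => e.1 = v)).card ≤ Δ)
    (hin : ∀ v, (M.filter (fun e => e.2 = v)).card ≤ Δ)
    (e : Pr L q) (σ : Pr L q → Fin n × Fin n) :
    (clash M e σ).card ≤ 2 * (L * q + 2) * Δ := by
  set m := L * q + 2 with hm
  have hmC : Fintype.card (Cl L q) = m := card_Cl L q
  set T1 : Finset (Fin n) := (univ.filter (fun e' : Pr L q => e'.1.1 = e.1.1)).image
    (fun e' => (σ e').1) with hT1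
  set T2 : Finset (Fin n) := (univ.filter (fun e' : Pr L q => e'.1.2 = e.1.2)).image
    (fun e' => (σ e').2) with hT2
  have hsub : clash M e σ ⊆ (T1.biUnion fun v => M.filter (fun e => e.1 = v)) ∪
      (T2.biUnion fun v => M.filter (fun e => e.2 = v)) := by
    intro a ha
    simp only [clash, mem_filter] at ha
    obtain ⟨haM, e', _, h | h⟩ := ha
    · refine mem_union_left _ (mem_biUnion.mpr ⟨a.1, ?_, mem_filter.mpr ⟨haM, rfl⟩⟩)
      exact mem_image.mpr ⟨e', by simp [h.1], h.2.symm⟩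
    · refine mem_union_right _ (mem_biUnion.mpr ⟨a.2, ?_, mem_filter.mpr ⟨haM, rfl⟩⟩)
      exact mem_image.mpr ⟨e', by simp [h.1], h.2.symm⟩
  have c1 : T1.card ≤ m := by
    refine le_trans card_image_le ?_
    rw [← hmC, ← card_univ]
    refine card_le_card_of_injOn (fun e' => e'.1.2) (fun _ _ => mem_univ _) ?_
    intro x hx y hy hxy
    simp only [coe_filter, mem_univ, true_and, Set.mem_ofPred_eq] at hx hy
    exact Subtype.ext (Prod.ext (hx.trans hy.symm) hxy)
  have c2 : T2.card ≤ m := by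
    refine le_trans card_image_le ?_
    rw [← hmC, ← card_univ]
    refine card_le_card_of_injOn (fun e' => e'.1.1) (fun _ _ => mem_univ _) ?_
    intro x hx y hy hxy
    simp only [coe_filter, mem_univ, true_and, Set.mem_ofPred_eq] at hx hy
    exact Subtype.ext (Prod.ext hxy (hx.trans hy.symm))
  refine le_trans (card_le_card hsub) (le_trans (card_union_le _ _) ?_)
  have d1 := card_biUnion_le_card_mul T1 (fun v => M.filter (fun e => e.1 = v)) Δ
    (fun v _ => hout v)
  have d2 := card_biUnion_le_card_mul T2 (fun v => M.filter (fun e => e.2 = v)) Δ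
    (fun v _ => hin v)
  calc _ ≤ T1.card * Δ + T2.card * Δ := Nat.add_le_add d1 d2
    _ ≤ m * Δ + m * Δ := by gcongr
    _ = 2 * m * Δ := by ring

open Classical in
/-- few choice functions collide -/
theorem clash_bound [NeZero q] {M : Finset (Fin n × Fin n)} {Δ R : ℕ}
    (hout : ∀ v, (M.filter (fun e => e.1 = v)).card ≤ Δ)
    (hin : ∀ v, (M.filter (fun e => e.2 = v)).card ≤ Δ) (hR0 : 0 < R)
    (hRn : 8 * (L * q + 2) ^ 3 * Δ ≤ R) (S : Pr L q → Finset (Fin n × Fin n))
    (hS : ∀ e, R ≤ (S e).card) :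
    4 * ((Fintype.piFinset S).filter (fun σ => ∃ e, σ e ∈ clash M e σ)).card ≤
      (Fintype.piFinset S).card := by
  set m := L * q + 2 with hm
  have hmC : Fintype.card (Cl L q) = m := card_Cl L q
  have hPr : Fintype.card (Pr L q) ≤ m * m := by
    have := Fintype.card_subtype_le (fun e : Cl L q × Cl L q => lay e.2 = lay e.1 + 1)
    rwa [Fintype.card_prod, hmC] at this
  have h1 := collide_bound S hS (fun e σ => clash M e σ) (fun e σ y => clash_update M e σ y)
    (c := 2 * m * Δ) (fun e σ _ => clash_card hout hin e σ)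
  have h2 : R * (4 * ((Fintype.piFinset S).filter (fun σ => ∃ e, σ e ∈ clash M e σ)).card) ≤
      R * (Fintype.piFinset S).card := by
    calc R * (4 * ((Fintype.piFinset S).filter (fun σ => ∃ e, σ e ∈ clash M e σ)).card)
        = 4 * (R * ((Fintype.piFinset S).filter (fun σ => ∃ e, σ e ∈ clash M e σ)).card) := by ring
      _ ≤ 4 * (Fintype.card (Pr L q) * (2 * m * Δ) * (Fintype.piFinset S).card) :=
          Nat.mul_le_mul_left _ h1
      _ ≤ 4 * ((m * m) * (2 * m * Δ) * (Fintype.piFinset S).card) := by gcongr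
      _ = (8 * m ^ 3 * Δ) * (Fintype.piFinset S).card := by ring
      _ ≤ R * (Fintype.piFinset S).card := Nat.mul_le_mul_right _ hRn
  exact Nat.le_of_mul_le_mul_left h2 hR0

/-- the positions in block `j` of the arcs of the path `w` that lie in `T` -/
noncomputable def seen {t b : ℕ} (σ : Pr L q → Fin n × Fin n) (w : Fin L → ZMod q)
    (T : Set (Fin n × Fin n)) (j : Fin t) : Finset (Fin b) := by
  classical
  exact univ.filter (fun a : Fin b => ∃ e : Pr L q,
      e.1 = (walk (pw w) ((j : ℕ) * b + (a : ℕ) + 1),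
        walk (pw w) ((j : ℕ) * b + (a : ℕ) + 1 + 1)) ∧ σ e ∈ T)

theorem mem_seen {t b : ℕ} (σ : Pr L q → Fin n × Fin n) (w : Fin L → ZMod q)
    (T : Set (Fin n × Fin n)) (j : Fin t) (a : Fin b) : a ∈ seen σ w T j ↔
      ∃ e : Pr L q, e.1 = (walk (pw w) ((j : ℕ) * b + (a : ℕ) + 1),
        walk (pw w) ((j : ℕ) * b + (a : ℕ) + 1 + 1)) ∧ σ e ∈ T := by
  unfold seen
  simp

/-- a set with few arcs of `M` sees few positions -/
theorem seen_sum {t b ρ : ℕ} (hL : L = t * b + 1) {σ : Pr L q → Fin n × Fin n}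
    (hσ : Function.Injective σ) {M : Set (Fin n × Fin n)} (hσM : ∀ e, σ e ∈ M)
    (w : Fin L → ZMod q) {T : Set (Fin n × Fin n)} (hT : (T ∩ M).ncard ≤ ρ) :
    ∑ j : Fin t, (seen (b := b) σ w T j).card ≤ ρ := by
  classical
  rw [← card_sigma]
  have hfin : (T ∩ M).Finite := Set.toFinite _
  refine le_trans ?_ hT
  rw [Set.ncard_eq_toFinset_card _ hfin]
  refine card_le_card_of_forall_subsingleton (fun z x => ∃ e : Pr L q,
    e.1 = (walk (pw w) ((z.1 : ℕ) * b + (z.2 : ℕ) + 1),
      walk (pw w) ((z.1 : ℕ) * b + (z.2 : ℕ) + 1 + 1)) ∧ σ e = x) ?_ ?_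
  · intro z hz
    obtain ⟨e, he1, he2⟩ := (mem_seen σ w T z.1 z.2).mp (mem_sigma.mp hz).2
    exact ⟨σ e, by rw [Set.Finite.mem_toFinset]; exact ⟨he2, hσM e⟩, e, he1, rfl⟩
  · rintro x _ z ⟨_, e, he1, he2⟩ z' ⟨_, e', he1', he2'⟩
    have hee : e = e' := hσ (he2.trans he2'.symm)
    rw [← hee, he1] at he1'
    have h3 := congrArg (fun e : Cl L q × Cl L q => lay e.1) he1'
    simp only at h3
    have bound : ∀ z : (Σ _ : Fin t, Fin b), (z.1 : ℕ) * b + (z.2 : ℕ) + 1 ≤ L + 1 := by
      intro z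
      have h4 := z.2.2
      have h5 : ((z.1 : ℕ) + 1) * b ≤ t * b := Nat.mul_le_mul_right _ z.1.2
      have e : ((z.1 : ℕ) + 1) * b = (z.1 : ℕ) * b + b := by ring
      omega
    rw [lay_walk_pw w (bound z), lay_walk_pw w (bound z')] at h3
    have h6 := z.2.2
    have h7 := z'.2.2
    have h8 : z.1 = z'.1 := pos_block (b := b) (a := z.2) (a' := z'.2) (by omega)
    obtain ⟨j, a⟩ := z
    obtain ⟨j', a'⟩ := z'
    simp only at h8 h3
    subst h8
    have h9 : a = a' := by
      apply Fin.ext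
      omega
    rw [h9]

/-- few position vectors hit some set of a family often -/
theorem many_hits {t b ρ β h : ℕ} (hβ : 1 ≤ β) (hb : β * ρ ≤ b) {Z : Type*} [Fintype Z]
    (I : Z → Fin t → Finset (Fin b)) (hI : ∀ z, ∑ j, (I z j).card ≤ ρ)
    (hZ : 24 * Fintype.card Z ≤ β ^ h) (bad : (Fin t → Fin b) → Prop) [DecidablePred bad]
    (hbad : ∀ lam, bad lam → ∃ z, h ≤ (univ.filter (fun j => lam j ∈ I z j)).card) :
    8 * (univ.filter bad).card ≤ b ^ t := by
  classical
  have h1 : (univ.filter bad) ⊆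
      (univ : Finset Z).biUnion (fun z => univ.filter (fun lam : Fin t → Fin b =>
        h ≤ (univ.filter (fun j => lam j ∈ I z j)).card)) := by
    intro lam hlam
    obtain ⟨z, hz⟩ := hbad lam (mem_filter.mp hlam).2
    exact mem_biUnion.mpr ⟨z, mem_univ _, mem_filter.mpr ⟨mem_univ _, hz⟩⟩
  have h2 := le_trans (card_le_card h1) card_biUnion_le
  have h3 : ∀ z : Z, ((univ.filter (fun lam : Fin t → Fin b =>
        h ≤ (univ.filter (fun j => lam j ∈ I z j)).card)).card : ℝ) * (β : ℝ) ^ h ≤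
        3 * (b : ℝ) ^ t := fun z => hits_bound hβ hb _ (hI z) h
  have h5 : ((univ.filter bad).card : ℝ) ≤
      ∑ z : Z, ((univ.filter (fun lam : Fin t → Fin b =>
        h ≤ (univ.filter (fun j => lam j ∈ I z j)).card)).card : ℝ) := by
    exact_mod_cast h2
  have h4 : ((univ.filter bad).card : ℝ) * (β : ℝ) ^ h ≤
      (Fintype.card Z : ℝ) * (3 * (b : ℝ) ^ t) := by
    calc ((univ.filter bad).card : ℝ) * (β : ℝ) ^ h
        ≤ (∑ z : Z, ((univ.filter (fun lam : Fin t → Fin b =>
          h ≤ (univ.filter (fun j => lam j ∈ I z j)).card)).card : ℝ)) *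
            (β : ℝ) ^ h := mul_le_mul_of_nonneg_right h5 (by positivity)
      _ = ∑ z : Z, ((univ.filter (fun lam : Fin t → Fin b =>
          h ≤ (univ.filter (fun j => lam j ∈ I z j)).card)).card : ℝ) *
            (β : ℝ) ^ h := by rw [sum_mul]
      _ ≤ ∑ _z : Z, 3 * (b : ℝ) ^ t := sum_le_sum fun z _ => h3 z
      _ = (Fintype.card Z : ℝ) * (3 * (b : ℝ) ^ t) := by
          rw [sum_const, card_univ, nsmul_eq_mul]
  have h6 : (24 : ℝ) * (Fintype.card Z : ℝ) ≤ (β : ℝ) ^ h := by exact_mod_cast hZ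
  have h7 : (0 : ℝ) < (β : ℝ) ^ h := by
    have : (0 : ℝ) < β := by exact_mod_cast hβ
    positivity
  have h8 : (8 : ℝ) * ((univ.filter bad).card : ℝ) ≤ (b : ℝ) ^ t := by
    have h9 : (0 : ℝ) ≤ (b : ℝ) ^ t := by positivity
    have h10 : (8 * ((univ.filter bad).card : ℝ)) *
        (β : ℝ) ^ h ≤ (b : ℝ) ^ t * (β : ℝ) ^ h := by nlinarith
    exact le_of_mul_le_mul_right h10 h7
  exact_mod_cast h8

/-- the pairs of consecutive clusters of a path -/
noncomputable def pathPairs (w : Fin L → ZMod q) [NeZero q] : Finset (Pr L q) := by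
  classical
  exact univ.filter (fun e => ∃ i ≤ L, e.1 = (walk (pw w) i, walk (pw w) (i + 1)))

theorem mem_pathPairs [NeZero q] (w : Fin L → ZMod q) (e : Pr L q) : e ∈ pathPairs w ↔
    ∃ i ≤ L, e.1 = (walk (pw w) i, walk (pw w) (i + 1)) := by
  unfold pathPairs
  simp

/-- the accepted input of a path -/
def pathInput [NeZero q] (cl : Fin n → Cl L q) (ty : Fin n → Bool)
    (σ : Pr L q → Fin n × Fin n) (w : Fin L → ZMod q) : Set (Fin n × Fin n) :=
  {a | Step cl ty a.1 a.2 ∨ ∃ e ∈ pathPairs w, σ e = a}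

/-- the rejected input of a cut -/
def cutInput (cl : Fin n → Cl L q) (ty : Fin n → Bool)
    (σ : Pr L q → Fin n × Fin n) (X : Fin L × ZMod q → Bool) : Set (Fin n × Fin n) :=
  {a | Step cl ty a.1 a.2 ∨
      ∃ e : Pr L q, σ e = a ∧ ¬ (hat X e.1.1 = true ∧ hat X e.1.2 = false)}

/-- the sparse acyclic digraphs with prescribed arcs outside `M` -/
def baseClass (cl : Fin n → Cl L q) (ty : Fin n → Bool) (M : Finset (Fin n × Fin n)) :
    Set (Set (Fin n × Fin n)) :=
  {G | SparseDag G ∧ G \ (M : Set (Fin n × Fin n)) = {a | Step cl ty a.1 a.2} \ M}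

/-- a choice of arcs between all pairs of clusters in consecutive layers, without collisions -/
structure Choice (cl : Fin n → Cl L q) (ty : Fin n → Bool) (M : Finset (Fin n × Fin n))
    (σ : Pr L q → Fin n × Fin n) : Prop where
  mem : ∀ e, σ e ∈ M
  tail : ∀ e, cl (σ e).1 = e.1.1 ∧ ty (σ e).1 = true
  head : ∀ e, cl (σ e).2 = e.1.2 ∧ ty (σ e).2 = false
  dist : ∀ e, σ e ∉ clash M e σ

namespace Choice

variable {cl : Fin n → Cl L q} {ty : Fin n → Bool} {M : Finset (Fin n × Fin n)}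
  {σ : Pr L q → Fin n × Fin n}

theorem inj (h : Choice cl ty M σ) : Function.Injective σ := by
  intro e e' hee
  refine Subtype.ext (Prod.ext ?_ ?_)
  · rw [← (h.tail e).1, ← (h.tail e').1, hee]
  · rw [← (h.head e).1, ← (h.head e').1, hee]

theorem sparse (h : Choice cl ty M σ) (G' : Set (Fin n × Fin n))
    (hG' : ∀ a b, (a, b) ∈ G' → Step cl ty a b ∨ (a, b) ∈ {a | ∃ e, σ e = a}) :
    SparseDag G' := by
  classical
  refine sparse_of_distinct cl ty lay {a | ∃ e, σ e = a} ?_ ?_ ?_ G' hG'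
  · rintro a b b' ⟨e, he⟩ ⟨e', he'⟩
    by_cases hee : e' = e
    · rw [hee, he] at he'; exact (Prod.ext_iff.mp he').2
    · exfalso
      have h1 := (h.tail e).1
      have h2 := (h.tail e').1
      rw [he] at h1
      rw [he'] at h2
      refine h.dist e ?_
      unfold clash
      refine mem_filter.mpr ⟨h.mem e, e', hee, Or.inl ⟨h2.symm.trans h1, ?_⟩⟩
      rw [he, he']
  · rintro a a' b ⟨e, he⟩ ⟨e', he'⟩
    by_cases hee : e' = e
    · rw [hee, he] at he'; exact (Prod.ext_iff.mp he').1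
    · exfalso
      have h1 := (h.head e).1
      have h2 := (h.head e').1
      rw [he] at h1
      rw [he'] at h2
      refine h.dist e ?_
      unfold clash
      refine mem_filter.mpr ⟨h.mem e, e', hee, Or.inr ⟨h2.symm.trans h1, ?_⟩⟩
      rw [he, he']
  · rintro a b ⟨e, he⟩
    have h1 := (h.tail e).1
    have h2 := (h.head e).1
    rw [he] at h1 h2
    simp only at h1 h2
    rw [h1, h2]
    exact e.2

theorem base (h : Choice cl ty M σ) (G' : Set (Fin n × Fin n))
    (h1 : ∀ a, Step cl ty a.1 a.2 → a ∈ G')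
    (h2 : ∀ a ∈ G', Step cl ty a.1 a.2 ∨ ∃ e, σ e = a) : G' ∈ baseClass cl ty M := by
  refine ⟨h.sparse _ fun a b hab => h2 (a, b) hab, ?_⟩
  ext a
  simp only [Set.mem_sdiff, Set.mem_ofPred_eq, mem_coe]
  constructor
  · rintro ⟨ha, haM⟩
    rcases h2 a ha with h' | ⟨e, he⟩
    · exact ⟨h', haM⟩
    · exact absurd (he ▸ h.mem e) haM
  · rintro ⟨ha, haM⟩
    exact ⟨h1 a ha, haM⟩

theorem path_mem [NeZero q] (h : Choice cl ty M σ) (w : Fin L → ZMod q) :
    pathInput cl ty σ w ∈ baseClass cl ty M := by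
  refine h.base _ (fun a h => Or.inl h) ?_
  rintro a (h | ⟨e, _, he⟩)
  · exact Or.inl h
  · exact Or.inr ⟨e, he⟩

theorem cut_mem (h : Choice cl ty M σ) (X : Fin L × ZMod q → Bool) :
    cutInput cl ty σ X ∈ baseClass cl ty M := by
  refine h.base _ (fun a h => Or.inl h) ?_
  rintro a (h | ⟨e, he, _⟩)
  · exact Or.inl h
  · exact Or.inr ⟨e, he⟩

theorem path_reach [NeZero q] (h : Choice cl ty M σ) {s u₀ : Fin n} (hs : cl s = Sum.inr true)
    (hs' : ty s = false) (ht : cl u₀ = Sum.inr false) (ht' : ty u₀ = true)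
    (w : Fin L → ZMod q) : Reachable (pathInput cl ty σ w) s u₀ := by
  refine reach_of_walk (pw w) cl ty hs hs' ht ht' _ (fun a b h => Or.inl h) ?_
  intro i hi
  have hlay : lay (walk (pw w) (i + 1)) = lay (walk (pw w) i) + 1 := by
    rw [lay_walk_pw w (by omega), lay_walk_pw w (by omega)]
  refine ⟨(σ ⟨(walk (pw w) i, walk (pw w) (i + 1)), hlay⟩).1,
    (σ ⟨(walk (pw w) i, walk (pw w) (i + 1)), hlay⟩).2, h.tail _, h.head _,
    Or.inr ⟨_, ?_, rfl⟩⟩
  rw [mem_pathPairs]
  exact ⟨i, hi, rfl⟩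

theorem cut_not_reach (h : Choice cl ty M σ) {s u₀ : Fin n} (hs : cl s = Sum.inr true)
    (ht : cl u₀ = Sum.inr false) (X : Fin L × ZMod q → Bool) :
    ¬ Reachable (cutInput cl ty σ X) s u₀ := by
  refine not_reach_of_cut cl hs ht _ X ?_
  intro a b hab ha
  rcases hab with h' | ⟨e, he, hcr⟩
  · have h' := h'.1
    simp only at h'
    rw [← h']; exact ha
  · have h1 := (h.tail e).1
    have h2 := (h.head e).1
    rw [he] at h1 h2
    simp only at h1 h2
    rw [h2]
    rw [h1] at ha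
    by_contra hc
    exact hcr ⟨ha, by simpa using hc⟩

end Choice

end Pool.Agent.Lib.Pe46137
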