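import Pool.Agent.Lib.Pe46137.LongA

/-!
The core of the lower bound for reductions, for a fixed choice of arcs, shifts and positions.
-/

namespace Pool.Agent.Lib.Pe46137

open Finset

set_option linter.unusedSectionVars false

variable {n : ℕ} {W : Type*} [Fintype W]

/-- the real path of the polynomial `P`, for shifts `tau` and hidden positions `lam` -/
def wv {t b q L : ℕ} (P : Polynomial (ZMod q)) (lam : Fin t → Fin b)
    (tau : Fin L → ZMod q) : Fin L → ZMod q :=
  fun i => P.eval ((J lam i : ℕ) : ZMod q) + tau i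

/-- the cut of the long grid given by a cut of the short grid -/
def longCut {t b q L : ℕ} (lam : Fin t → Fin b) (tau : Fin L → ZMod q)
    (x : Fin (t + 1) × ZMod q → Bool) : Fin L × ZMod q → Bool :=
  fun u => x (⟨J lam u.1, J_lt lam u.1⟩, u.2 - tau u.1)

theorem longCut_wv {t b q L : ℕ} (P : Polynomial (ZMod q)) (lam : Fin t → Fin b)
    (tau : Fin L → ZMod q) (x : Fin (t + 1) × ZMod q → Bool) (j : Fin L) :
    longCut lam tau x (pw (wv P lam tau) j) = x (pathOf (t + 1) q P ⟨J lam j, J_lt lam j⟩) := by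
  simp only [longCut, pw, pathOf, wv, Function.Embedding.coeFn_mk, add_sub_cancel_right]

theorem hat_longCut {t b q L : ℕ} (hL : L = t * b + 1) (P : Polynomial (ZMod q))
    (lam : Fin t → Fin b) (tau : Fin L → ZMod q) (x : Fin (t + 1) × ZMod q → Bool) {i : ℕ}
    (hi : i ≤ L + 1) :
    hat (longCut lam tau x) (walk (pw (wv P lam tau)) i) =
      ext (fun j' : Fin (t + 1) => x (pathOf (t + 1) q P j')) (phi lam i) := by
  subst hL
  rw [hat_walk]
  have hval : (fun j : Fin (t * b + 1) => longCut lam tau x (pw (wv P lam tau) j)) =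
      fun j : Fin (t * b + 1) =>
        (fun j' : Fin (t + 1) => x (pathOf (t + 1) q P j')) ⟨J lam j, J_lt lam j⟩ := by
    funext j
    exact longCut_wv P lam tau x j
  rw [hval]
  exact ext_phi lam (fun j' : Fin (t + 1) => x (pathOf (t + 1) q P j')) hi

theorem core_fixed {d t b q L h m : ℕ} [Fact q.Prime] (hL : L = t * b + 1)
    (hm : m + 2 * h + 1 = d) (hm1 : 1 ≤ m)
    (hl : 2 ^ d ≤ t + 1) (hlq : t + 1 ≤ q)
    {cl : Fin n → Cl L q} {ty : Fin n → Bool} {M : Finset (Fin n × Fin n)}
    {σ : Pr L q → Fin n × Fin n} (hc : Choice cl ty M σ) {s u₀ : Fin n}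
    (hs : cl s = Sum.inr true) (ht : cl u₀ = Sum.inr false)
    (H : Reduction (Fin n) W) (hN : H.Correct (baseClass cl ty M) s u₀) {ρ : ℕ}
    (Fs : (Fin L → ZMod q) → Set (Fin n × Fin n))
    (Is : (Fin L → ZMod q) → W → W → Set (Fin n × Fin n))
    (lam : Fin t → Fin b) (tau : Fin L → ZMod q)
    (good : Finset (Polynomial.degreeLT (ZMod q) m))
    (hF : ∀ f ∈ good, Fs (wv f.1 lam tau) ⊆ (pathInput cl ty σ (wv f.1 lam tau))ᶜ ∧
      Relation.EqvGen (H.Certified (baseClass cl ty M) M ρ (Fs (wv f.1 lam tau))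
        (pathInput cl ty σ (wv f.1 lam tau))) H.source H.sink)
    (hI : ∀ f ∈ good, ∀ v u, H.Certified (baseClass cl ty M) M ρ (Fs (wv f.1 lam tau))
        (pathInput cl ty σ (wv f.1 lam tau)) v u →
        Is (wv f.1 lam tau) v u ⊆ pathInput cl ty σ (wv f.1 lam tau) ∧
        ∀ G' ∈ baseClass cl ty M, Is (wv f.1 lam tau) v u ⊆ G' →
          Disjoint (Fs (wv f.1 lam tau)) G' → H.edge G' v u)
    (h1 : ∀ f ∈ good, ∀ e ∉ pathPairs (wv f.1 lam tau), σ e ∉ Fs (wv f.1 lam tau))
    (h2 : ∀ f ∈ good, ∀ v u, (univ.filter (fun j =>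
      lam j ∈ seen σ (wv f.1 lam tau) (Is (wv f.1 lam tau) v u) j)).card < h) :
    (good.card : ℝ) ≤ (Fintype.card W : ℝ) ^ 2 * (9 * (t + 1 : ℕ) + 1) ^ d := by
  classical
  set Jf : W → (Fin (t + 1) × ZMod q → Bool) → ℝ := fun v x =>
    if Relation.EqvGen (H.edge (cutInput cl ty σ (longCut lam tau x))) H.source v then 1 else 0
    with hJ
  have hJstep : ∀ v w x, H.edge (cutInput cl ty σ (longCut lam tau x)) v w → Jf v x = Jf w x := by
    intro v w x h
    have : Relation.EqvGen (H.edge (cutInput cl ty σ (longCut lam tau x))) H.source v ↔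
        Relation.EqvGen (H.edge (cutInput cl ty σ (longCut lam tau x))) H.source w :=
      ⟨fun h' => h'.trans _ _ _ (Relation.EqvGen.rel _ _ h),
        fun h' => h'.trans _ _ _ ((Relation.EqvGen.rel _ _ h).symm _ _)⟩
    simp only [hJ, this]
  have hJsq : ∀ v x, Jf v x * Jf v x ≤ 1 := by
    intro v x
    simp only [hJ]
    split_ifs <;> norm_num
  have hJs : ∀ x, Jf H.source x = 1 := fun x => if_pos (Relation.EqvGen.refl _)
  have hJt : ∀ x, Jf H.sink x = 0 := fun x =>
    if_neg (fun h => hc.cut_not_reach hs ht (longCut lam tau x)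
      ((hN _ (hc.cut_mem (longCut lam tau x))).mp h))
  have hdis : ∀ f f' : {x // x ∈ good}, f ≠ f' → ∀ S S' : Finset (Fin (t + 1)),
      S.map (pathOf (t + 1) q f.1.1) = S'.map (pathOf (t + 1) q f'.1.1) →
      S.card + 2 * (h + 1) ≤ d := by
    intro f f' hne S S' hSS
    have := family (m := m) hlq f.1 f'.1 (fun h => hne (Subtype.ext h)) S S' hSS
    omega
  have hLc : ∀ (f : {x // x ∈ good}) (v u : W),
      H.Certified (baseClass cl ty M) M ρ (Fs (wv f.1.1 lam tau))
      (pathInput cl ty σ (wv f.1.1 lam tau)) v u →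
      ∃ I : Finset ℕ, I.card ≤ h + 1 ∧ (∀ i ∈ I, i ≤ t + 1) ∧
        ∀ x, (∀ i ∈ I, ¬ Cross i (fun j => x (pathOf (t + 1) q f.1.1 j))) → Jf v x = Jf u x := by
    intro f v u hvu
    obtain ⟨hI1, hI2⟩ := hI f.1 f.2 v u hvu
    obtain ⟨hFsub, -⟩ := hF f.1 f.2
    have hg1 := h1 f.1 f.2
    have hg2 := h2 f.1 f.2 v u
    generalize hw : wv f.1.1 lam tau = w at *
    set I0 : Finset ℕ := (range (L + 1)).filter (fun i =>
      phi lam (i + 1) ≠ phi lam i ∧ ∃ e : Pr L q,
        e.1 = (walk (pw w) i, walk (pw w) (i + 1)) ∧ σ e ∈ Is w v u) with hI0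
    refine ⟨I0.image (phi lam), ?_, ?_, ?_⟩
    · -- few crossing positions
      have hsub : I0.image (phi lam) ⊆ insert (phi lam 0) (insert (phi lam L)
          ((univ.filter (fun j => lam j ∈ seen σ w (Is w v u) j)).image
            (fun j : Fin t => phi lam ((j : ℕ) * b + (lam j : ℕ) + 1)))) := by
        intro z hz
        obtain ⟨i, hi, rfl⟩ := mem_image.mp hz
        obtain ⟨hi1, hi2, e, he1, he2⟩ := mem_filter.mp hi
        have hiL : i ≤ t * b + 1 := by have := mem_range.mp hi1; omega
        rcases (phi_step lam hiL).2 with h1 | ⟨_, h1 | h1 | ⟨j, hj⟩⟩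
        · exact absurd h1 hi2
        · rw [h1]; exact mem_insert_self _ _
        · have h5 : phi lam i = phi lam L := by rw [h1, hL]
          rw [h5]; exact mem_insert_of_mem (mem_insert_self _ _)
        · refine mem_insert_of_mem (mem_insert_of_mem (mem_image.mpr ⟨j, ?_, by rw [hj]⟩))
          refine mem_filter.mpr ⟨mem_univ _, (mem_seen _ _ _ _ _).mpr ⟨e, ?_, he2⟩⟩
          rw [hj]; exact he1
      have h1 := card_le_card hsub
      have h2 := card_insert_le (phi lam 0) (insert (phi lam L)
          ((univ.filter (fun j => lam j ∈ seen σ w (Is w v u) j)).image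
            (fun j : Fin t => phi lam ((j : ℕ) * b + (lam j : ℕ) + 1))))
      have h3 := card_insert_le (phi lam L)
          ((univ.filter (fun j => lam j ∈ seen σ w (Is w v u) j)).image
            (fun j : Fin t => phi lam ((j : ℕ) * b + (lam j : ℕ) + 1)))
      have h4 : ((univ.filter (fun j => lam j ∈ seen σ w (Is w v u) j)).image
            (fun j : Fin t => phi lam ((j : ℕ) * b + (lam j : ℕ) + 1))).card ≤
            (univ.filter (fun j => lam j ∈ seen σ w (Is w v u) j)).card := card_image_le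
      omega
    · intro z hz
      obtain ⟨i, hi, rfl⟩ := mem_image.mp hz
      have := mem_range.mp (mem_filter.mp hi).1
      exact (phi_step lam (by omega)).1
    · intro x hx
      refine hJstep v u x (hI2 _ (hc.cut_mem (longCut lam tau x)) ?_ ?_)
      · -- the certificate is present
        intro a ha
        rcases hI1 ha with hst' | ⟨e, heE, hea⟩
        · exact Or.inl hst'
        · refine Or.inr ⟨e, hea, ?_⟩
          obtain ⟨i, hi, hei'⟩ := (mem_pathPairs _ _).mp heE
          rw [hei']
          simp only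
          rw [← hw, hat_longCut hL f.1.1 lam tau x (by omega),
            hat_longCut hL f.1.1 lam tau x (by omega)]
          rcases (phi_step lam (show i ≤ t * b + 1 by omega)).2 with h1 | ⟨h1, _⟩
          · rw [h1]
            rintro ⟨h2, h3⟩
            rw [h2] at h3
            exact absurd h3 (by simp)
          · rw [h1]
            refine hx (phi lam i) (mem_image.mpr ⟨i, mem_filter.mpr ⟨mem_range.mpr (by omega), ?_, e,
              hei', ?_⟩, rfl⟩)
            · omega
            · rw [hea]; exact ha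
      · -- the absent arcs are absent
        rw [Set.disjoint_left]
        intro a haF hax
        have hnot : a ∉ pathInput cl ty σ w := hFsub haF
        rcases hax with h' | ⟨e, he, _⟩
        · exact hnot (Or.inl h')
        · by_cases heE : e ∈ pathPairs w
          · exact hnot (Or.inr ⟨e, heE, he⟩)
          · exact hg1 e heE (by rw [he]; exact haF)
  have hcore := core_set (W := W) (d := d) (l := t + 1) (j := h + 1) (by omega) hl
    (fun f : {x // x ∈ good} => pathOf (t + 1) q f.1.1) hdis Jf hJsq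
    (fun f => H.Certified (baseClass cl ty M) M ρ (Fs (wv f.1.1 lam tau))
      (pathInput cl ty σ (wv f.1.1 lam tau)))
    hLc hJs hJt (fun f => (hF f.1 f.2).2)
  rwa [Fintype.card_coe] at hcore

end Pool.Agent.Lib.Pe46137
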