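import Pool.Agent.Lib.Pe46137.LongB

/-!
The parametric lower bound for arbitrary reductions to undirected reachability.
-/

namespace Pool.Agent.Lib.Pe46137

open Finset

set_option linter.unusedSectionVars false

/-- averaging over choices of arcs, shifts and positions -/
theorem exists_choice {D A : Type*} [Fintype D] [DecidableEq D] [DecidableEq A]
    {L q t b : ℕ} [NeZero q]
    {Fm : Type*} [Fintype Fm] [Nonempty Fm] (PS : Finset (D → A)) (hne : PS.Nonempty)
    (hb0 : 0 < b) (Z : Finset (D → A)) (hZ : 4 * Z.card ≤ PS.card)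
    (bad1 : (D → A) → (Fin L → ZMod q) → Prop)
    (bad2 : (D → A) → (Fin L → ZMod q) → (Fin t → Fin b) → Prop)
    [∀ w, DecidablePred fun σ => bad1 σ w] [∀ σ w, DecidablePred (bad2 σ w)]
    (hc1 : ∀ w, 8 * (PS.filter (fun σ => bad1 σ w)).card ≤ PS.card)
    (hc2 : ∀ σ ∈ PS, ∀ w, 8 * (univ.filter (fun lam => bad2 σ w lam)).card ≤ b ^ t)
    (v : Fm → (Fin t → Fin b) → Fin L → ZMod q) :
    ∃ σ ∈ PS, σ ∉ Z ∧ ∃ (tau : Fin L → ZMod q) (lam : Fin t → Fin b) (good : Finset Fm),
      Fintype.card Fm ≤ 2 * good.card ∧ ∀ f ∈ good, ¬ bad1 σ (fun i => v f lam i + tau i) ∧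
        ¬ bad2 σ (fun i => v f lam i + tau i) lam := by
  classical
  set P : Finset ((D → A) × ((Fin L → ZMod q) × (Fin t → Fin b))) := PS ×ˢ univ with hP
  have hlam : Fintype.card (Fin t → Fin b) = b ^ t := by simp
  have hw : Fintype.card (Fin L → ZMod q) = q ^ L := by simp [ZMod.card]
  have hPne : P.Nonempty := by
    have : Nonempty (Fin b) := ⟨⟨0, hb0⟩⟩
    exact hne.product ⟨(0, fun _ => Classical.arbitrary _), mem_univ _⟩
  have hPcard : P.card = PS.card * (q ^ L * b ^ t) := by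
    rw [hP, card_product, card_univ, Fintype.card_prod, hlam, hw]
  have hZ' : 4 * (Z ×ˢ (univ : Finset ((Fin L → ZMod q) × (Fin t → Fin b)))).card ≤ P.card := by
    rw [card_product, hP, card_product, ← mul_assoc]
    exact Nat.mul_le_mul_right _ hZ
  set bad : Fm → ((D → A) × ((Fin L → ZMod q) × (Fin t → Fin b))) → Prop := fun f ω =>
    bad1 ω.1 (fun i => v f ω.2.2 i + ω.2.1 i) ∨
      bad2 ω.1 (fun i => v f ω.2.2 i + ω.2.1 i) ω.2.2 with hbad
  have h3 : 8 * (P.filter (fun ω => bad1 ω.1 ω.2.1)).card ≤ P.card := by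
    have e1 : (P.filter (fun ω => bad1 ω.1 ω.2.1)).card =
        ∑ z : (Fin L → ZMod q) × (Fin t → Fin b), (PS.filter (fun σ => bad1 σ z.1)).card := by
      rw [card_filter, hP, sum_product_right]
      refine sum_congr rfl fun z _ => ?_
      rw [card_filter]
    rw [e1, mul_sum, hPcard]
    calc ∑ z : (Fin L → ZMod q) × (Fin t → Fin b), 8 * (PS.filter (fun σ => bad1 σ z.1)).card
        ≤ ∑ _z : (Fin L → ZMod q) × (Fin t → Fin b), PS.card := sum_le_sum fun z _ => hc1 z.1
      _ = PS.card * (q ^ L * b ^ t) := by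
          rw [sum_const, card_univ, Fintype.card_prod, hlam, hw, smul_eq_mul, mul_comm]
  have h4 : 8 * (P.filter (fun ω => bad2 ω.1 ω.2.1 ω.2.2)).card ≤ P.card := by
    have e1 : (P.filter (fun ω => bad2 ω.1 ω.2.1 ω.2.2)).card =
        ∑ σ ∈ PS, ∑ w : Fin L → ZMod q,
          (univ.filter (fun lam : Fin t → Fin b => bad2 σ w lam)).card := by
      rw [card_filter, hP, sum_product]
      refine sum_congr rfl fun σ _ => ?_
      rw [← univ_product_univ, sum_product]
      refine sum_congr rfl fun w _ => ?_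
      rw [card_filter]
    rw [e1, mul_sum, hPcard]
    calc ∑ σ ∈ PS, 8 * ∑ w : Fin L → ZMod q,
          (univ.filter (fun lam : Fin t → Fin b => bad2 σ w lam)).card
        ≤ ∑ σ ∈ PS, ∑ _w : Fin L → ZMod q, b ^ t := by
          refine sum_le_sum fun σ hσ => ?_
          rw [mul_sum]
          exact sum_le_sum fun w _ => hc2 σ hσ w
      _ = PS.card * (q ^ L * b ^ t) := by
          rw [sum_const, sum_const, card_univ, hw, smul_eq_mul, smul_eq_mul]
  have hbadc : ∀ f, 4 * (P.filter (bad f)).card ≤ P.card := by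
    intro f
    set Φ : ((D → A) × ((Fin L → ZMod q) × (Fin t → Fin b))) →
      ((D → A) × ((Fin L → ZMod q) × (Fin t → Fin b))) :=
      fun ω => (ω.1, ((fun i => v f ω.2.2 i + ω.2.1 i), ω.2.2)) with hΦ
    have hΦinj : Function.Injective Φ := by
      rintro ⟨a1, a2, a3⟩ ⟨b1, b2, b3⟩ hab
      simp only [hΦ, Prod.mk.injEq] at hab
      obtain ⟨h1, h2, h3⟩ := hab
      subst h3
      refine Prod.ext h1 (Prod.ext ?_ rfl)
      funext i
      exact add_left_cancel (congrFun h2 i)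
    have h1 : (P.filter (bad f)).card ≤
        (P.filter (fun ω => bad1 ω.1 ω.2.1 ∨ bad2 ω.1 ω.2.1 ω.2.2)).card := by
      refine card_le_card_of_injOn Φ ?_ hΦinj.injOn
      intro ω hω
      rw [mem_coe, mem_filter] at hω ⊢
      refine ⟨?_, hω.2⟩
      exact mem_product.mpr ⟨(mem_product.mp hω.1).1, mem_univ _⟩
    have h2 : (P.filter (fun ω => bad1 ω.1 ω.2.1 ∨ bad2 ω.1 ω.2.1 ω.2.2)).card ≤
        (P.filter (fun ω => bad1 ω.1 ω.2.1)).card +
          (P.filter (fun ω => bad2 ω.1 ω.2.1 ω.2.2)).card := by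
      rw [filter_or]
      exact card_union_le _ _
    omega
  obtain ⟨⟨σ, tau, lam⟩, hωP, hωZ, hgood⟩ := average_family P hPne _ hZ' bad hbadc
  refine ⟨σ, (mem_product.mp hωP).1, fun h => hωZ (mem_product.mpr ⟨h, mem_univ _⟩), tau, lam,
    univ.filter (fun f => ¬ bad f (σ, tau, lam)), hgood, ?_⟩
  intro f hf
  have := (mem_filter.mp hf).2
  simp only [hbad, not_or] at this
  exact this

/-- hiding, with an arbitrary description of the bad choices -/
theorem hide_eighth {D A : Type*} [Fintype D] [DecidableEq D] [DecidableEq A] (S : D → Finset A)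
    (hS : ∀ e e', e ≠ e' → Disjoint (S e) (S e')) {R k : ℕ}
    (hR : ∀ e, R ≤ (S e).card) (hR0 : 0 < R) (hRk : 8 * k ≤ R) (M : Finset A)
    (hSM : ∀ e, S e ⊆ M) (E : Finset D)
    (N : (D → A) → Finset A) (hN : ∀ e ∉ E, ∀ σ y, N (Function.update σ e y) = N σ)
    (hk : ∀ σ ∈ Fintype.piFinset S, (N σ ∩ M).card ≤ k) (bad : (D → A) → Prop)
    [DecidablePred bad] (hbad : ∀ σ, bad σ → ∃ e ∉ E, σ e ∈ N σ) :
    8 * ((Fintype.piFinset S).filter bad).card ≤ (Fintype.piFinset S).card := by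
  classical
  have h1 := hide_bound S hS hR M hSM E N hN hk
  have h0 : ((Fintype.piFinset S).filter bad).card ≤
      ((Fintype.piFinset S).filter (fun σ => ∃ e ∉ E, σ e ∈ N σ)).card := by
    refine card_le_card ?_
    intro σ hσ
    rw [mem_filter] at hσ ⊢
    exact ⟨hσ.1, hbad σ hσ.2⟩
  generalize ((Fintype.piFinset S).filter (fun σ => ∃ e ∉ E, σ e ∈ N σ)).card = x at h1 h0
  have h2 : R * (8 * ((Fintype.piFinset S).filter bad).card) ≤ R * (Fintype.piFinset S).card := by
    calc R * (8 * ((Fintype.piFinset S).filter bad).card)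
        ≤ R * (8 * x) := by gcongr
      _ = 8 * (R * x) := by ring
      _ ≤ 8 * (k * (Fintype.piFinset S).card) := Nat.mul_le_mul_left _ h1
      _ = (8 * k) * (Fintype.piFinset S).card := by ring
      _ ≤ R * (Fintype.piFinset S).card := Nat.mul_le_mul_right _ hRk
  exact Nat.le_of_mul_le_mul_left h2 hR0

variable {n : ℕ} {W : Type*} [Fintype W]

open Classical in
theorem paramR {d t b q ρ β h m L : ℕ} [Fact q.Prime] (hL : L = t * b + 1)
    (hm : m + 2 * h + 1 = d) (hm1 : 1 ≤ m)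
    (hl : 2 ^ d ≤ t + 1) (hlq : t + 1 ≤ q) (hβ : 1 ≤ β) (hb0 : 0 < b) (hb : β * ρ ≤ b)
    (hW : 24 * (Fintype.card W) ^ 2 ≤ β ^ h)
    (cl : Fin n → Cl L q) (ty : Fin n → Bool) {s u₀ : Fin n}
    (hs : cl s = Sum.inr true)
    (hs' : ty s = false) (ht : cl u₀ = Sum.inr false) (ht' : ty u₀ = true)
    (M : Finset (Fin n × Fin n)) {Δ R k : ℕ}
    (hout : ∀ v, (M.filter (fun e => e.1 = v)).card ≤ Δ)
    (hin : ∀ v, (M.filter (fun e => e.2 = v)).card ≤ Δ) (hR0 : 0 < R) (hRk : 8 * k ≤ R)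
    (hRn : 8 * (L * q + 2) ^ 3 * Δ ≤ R)
    (hM : ∀ u w, R ≤ (M.filter (fun e => (cl e.1 = u ∧ ty e.1 = true) ∧
      (cl e.2 = w ∧ ty e.2 = false))).card)
    (H : Reduction (Fin n) W)
    (hN : H.Correct (baseClass cl ty M) s u₀)
    (hneg : H.Local (baseClass cl ty M) s u₀ M ρ k) :
    (q : ℝ) ^ m ≤ 2 * ((Fintype.card W : ℝ) ^ 2 * (9 * (t + 1 : ℕ) + 1) ^ d) := by
  have hq0 : NeZero q := ⟨(Fact.out : q.Prime).ne_zero⟩
  -- the candidate arcs of every pair of clusters
  set S : Pr L q → Finset (Fin n × Fin n) := fun e =>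
    M.filter (fun a => (cl a.1 = e.1.1 ∧ ty a.1 = true) ∧ (cl a.2 = e.1.2 ∧ ty a.2 = false))
    with hS
  have hScard : ∀ e, R ≤ (S e).card := fun e => hM e.1.1 e.1.2
  have hS1 : ∀ e, ∀ a ∈ S e, (cl a.1 = e.1.1 ∧ ty a.1 = true) ∧
      (cl a.2 = e.1.2 ∧ ty a.2 = false) := fun e a ha => (mem_filter.mp ha).2
  have hSM : ∀ e, S e ⊆ M := fun e => filter_subset _ _
  have hSdisj : ∀ e e', e ≠ e' → Disjoint (S e) (S e') := by
    intro e e' hne
    rw [Finset.disjoint_left]
    intro a ha ha'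
    apply hne
    obtain ⟨⟨h1, _⟩, ⟨h2, _⟩⟩ := hS1 e a ha
    obtain ⟨⟨h3, _⟩, ⟨h4, _⟩⟩ := hS1 e' a ha'
    exact Subtype.ext (Prod.ext (h1.symm.trans h3) (h2.symm.trans h4))
  have hPSne : (Fintype.piFinset S).Nonempty := by
    rw [Fintype.piFinset_nonempty]
    intro e
    rw [← card_pos]; exact lt_of_lt_of_le hR0 (hScard e)
  -- the absent arcs used by the reduction
  have hsel : ∀ G : Set (Fin n × Fin n), ∃ F : Finset (Fin n × Fin n), (F ∩ M).card ≤ k ∧
      (G ∈ baseClass cl ty M → Reachable G s u₀ → (F : Set (Fin n × Fin n)) ⊆ Gᶜ ∧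
        Relation.EqvGen (H.Certified (baseClass cl ty M) M ρ F G) H.source H.sink) := by
    intro G
    by_cases hG : G ∈ baseClass cl ty M ∧ Reachable G s u₀
    · obtain ⟨F, hF, hk, hc⟩ := hneg G hG.1 hG.2
      refine ⟨F.toFinset, ?_, fun _ _ => ⟨by simpa using hF, by simpa using hc⟩⟩
      rw [← Set.ncard_coe_finset]
      simpa using hk
    · exact ⟨∅, by simp, fun h1 h2 => absurd ⟨h1, h2⟩ hG⟩
  choose Fs hFs1 hFs2 using hsel
  -- the certificates
  have hcert : ∀ (G : Set (Fin n × Fin n)) (v u : W), ∃ I : Set (Fin n × Fin n),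
      (I ∩ M).ncard ≤ ρ ∧ (H.Certified (baseClass cl ty M) M ρ (Fs G) G v u → I ⊆ G ∧
        ∀ G' ∈ baseClass cl ty M, I ⊆ G' → Disjoint (Fs G : Set (Fin n × Fin n)) G' →
          H.edge G' v u) := by
    intro G v u
    by_cases hG : H.Certified (baseClass cl ty M) M ρ (Fs G) G v u
    · obtain ⟨I, h1, h2, h3⟩ := hG
      exact ⟨I, h2, fun _ => ⟨h1, h3⟩⟩
    · exact ⟨∅, by simp, fun h => absurd h hG⟩
  choose Is hIs1 hIs2 using hcert
  -- the family of paths
  have hfin : Finite (Polynomial.degreeLT (ZMod q) m) :=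
    Finite.of_equiv _ (Polynomial.degreeLTEquiv (ZMod q) m).toEquiv.symm
  have hfin' : Fintype (Polynomial.degreeLT (ZMod q) m) := Fintype.ofFinite _
  have hFmne : Nonempty (Polynomial.degreeLT (ZMod q) m) := ⟨0⟩
  -- first kind of bad choices: a hidden arc is read as absent
  have hc1 : ∀ w, 8 * ((Fintype.piFinset S).filter (fun σ =>
      ∃ e ∉ pathPairs w, σ e ∈ Fs (pathInput cl ty σ w))).card ≤ (Fintype.piFinset S).card := by
    intro w
    refine hide_eighth S hSdisj hScard hR0 hRk M hSM (pathPairs w)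
      (fun σ => Fs (pathInput cl ty σ w)) ?_ (fun σ _ => hFs1 _) _ (fun σ h => h)
    intro e he σ y
    have : pathInput cl ty (Function.update σ e y) w = pathInput cl ty σ w := by
      ext a
      simp only [pathInput, Set.mem_ofPred_eq]
      refine or_congr Iff.rfl (exists_congr fun e' => and_congr_right fun he' => ?_)
      rw [Function.update_of_ne (fun h : e' = e => he (by rw [← h]; exact he'))]
    simp only [this]
  -- second kind of bad choices: a certificate sees many hidden positions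
  have hc2 : ∀ σ ∈ Fintype.piFinset S, ∀ w : Fin L → ZMod q,
      8 * (univ.filter (fun lam : Fin t → Fin b => ∃ v u, h ≤ (univ.filter (fun j =>
        lam j ∈ seen σ w (Is (pathInput cl ty σ w) v u) j)).card)).card ≤ b ^ t := by
    intro σ hσ w
    have hσ' : ∀ e, σ e ∈ S e := Fintype.mem_piFinset.mp hσ
    have hinj : Function.Injective σ := by
      intro e e' hee
      by_contra hne
      have := Finset.disjoint_left.mp (hSdisj e e' hne) (hσ' e)
      rw [hee] at this
      exact this (hσ' e')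
    refine many_hits (Z := W × W) (h := h) hβ hb
      (fun z => seen σ w (Is (pathInput cl ty σ w) z.1 z.2)) (fun z => ?_) ?_ _ ?_
    · exact seen_sum hL hinj (M := (M : Set (Fin n × Fin n))) (fun e => hSM e (hσ' e)) w
        (hIs1 _ z.1 z.2)
    · rw [Fintype.card_prod, ← sq]; exact hW
    · rintro lam ⟨v, u, hvu⟩
      exact ⟨(v, u), hvu⟩
  obtain ⟨σ, hσP, hσZ, tau, lam, good, hcard, hgood⟩ := exists_choice
    (Fm := Polynomial.degreeLT (ZMod q) m) (Fintype.piFinset S) hPSne hb0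
    ((Fintype.piFinset S).filter (fun σ => ∃ e, σ e ∈ clash M e σ))
    (clash_bound hout hin hR0 hRn S hScard)
    (fun σ w => ∃ e ∉ pathPairs w, σ e ∈ Fs (pathInput cl ty σ w))
    (fun σ w lam => ∃ v u, h ≤ (univ.filter (fun j =>
        lam j ∈ seen σ w (Is (pathInput cl ty σ w) v u) j)).card) hc1 hc2
    (fun f lam i => f.1.eval ((J lam i : ℕ) : ZMod q))
  have hσ : ∀ e, σ e ∈ S e := Fintype.mem_piFinset.mp hσP
  have hch : Choice cl ty M σ := by
    refine ⟨fun e => hSM e (hσ e), fun e => (hS1 e _ (hσ e)).1, fun e => (hS1 e _ (hσ e)).2, ?_⟩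
    intro e he
    exact hσZ (mem_filter.mpr ⟨hσP, e, he⟩)
  have hcore := core_fixed (ρ := ρ) hL hm hm1 hl hlq hch hs ht H hN
    (fun w => (Fs (pathInput cl ty σ w) : Set (Fin n × Fin n)))
    (fun w => Is (pathInput cl ty σ w)) lam tau good
    (fun f _ => hFs2 _ (hch.path_mem _) (hch.path_reach hs hs' ht ht' _))
    (fun f _ v u hvu => hIs2 _ v u hvu)
    (fun f hf e he hmem => (hgood f hf).1 ⟨e, he, hmem⟩)
    (fun f hf v u => lt_of_not_ge fun hc => (hgood f hf).2 ⟨v, u, hc⟩)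
  have hcardF : Fintype.card (Polynomial.degreeLT (ZMod q) m) = q ^ m := by
    rw [← Nat.card_eq_fintype_card]; exact card_family
  rw [hcardF] at hcard
  have h1 : ((q ^ m : ℕ) : ℝ) ≤ ((2 * good.card : ℕ) : ℝ) := Nat.cast_le.mpr hcard
  push_cast at h1 hcore ⊢
  linarith

end Pool.Agent.Lib.Pe46137
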