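import Pool.Agent.Lib.Pe46137.LogForm

/-!
The number of states needed when every accepted digraph must have an accepting walk that uses at
most `k` negated variables of a set `M` of arcs.
-/

namespace Pool.Agent.Lib.Pe46137

open Finset

set_option linter.unusedSectionVars false

/-- every digraph in `𝒢` in which `t` is reachable from `s` has an accepting walk that uses at most
`k` distinct negated variables of `M` -/
def SwitchingNetwork.Limited {V W : Type*} (N : SwitchingNetwork (V × V) W)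
    (𝒢 : Set (Set (V × V))) (s t : V) (M : Set (V × V)) (k : ℕ) : Prop :=
  ∀ G ∈ 𝒢, Reachable G s t → ∃ F ⊆ Gᶜ, (F ∩ M).ncard ≤ k ∧ N.Connects G F

/-- the smallest number of states of a switching network that decides reachability from `s` to `t`
on the digraphs in `𝒢` -/
noncomputable def states {V : Type} (𝒢 : Set (Set (V × V))) (s t : V) : ℕ :=
  sInf {m | ∃ N : SwitchingNetwork (V × V) (Fin m), N.DecidesOn 𝒢 s t}

/-- the smallest number of states of a switching network that decides reachability from `s` to `t`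
on the digraphs in `𝒢` and has, on every digraph in `𝒢` it accepts, an accepting walk using at
most `k` distinct negated variables of `M` -/
noncomputable def limitedStates {V : Type} (𝒢 : Set (Set (V × V))) (s t : V) (M : Set (V × V))
    (k : ℕ) : ℕ :=
  sInf {m | ∃ N : SwitchingNetwork (V × V) (Fin m), N.DecidesOn 𝒢 s t ∧ N.Limited 𝒢 s t M k}

/-- some `r` vertices meet all but `k` of the arcs of `M` that are not loops -/
def Coverable {V : Type*} (M : Set (V × V)) (r k : ℕ) : Prop :=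
  ∃ X : Finset V, X.card ≤ r ∧ {e | e ∈ M ∧ e.1 ≠ e.2 ∧ e.1 ∉ X ∧ e.2 ∉ X}.ncard ≤ k

section

variable {V : Type} [Fintype V] [DecidableEq V]

theorem limited_of_avoids {W : Type} {N : SwitchingNetwork (V × V) W} {𝒢 : Set (Set (V × V))}
    {s t : V} {M M' : Set (V × V)} {k : ℕ} (hd : N.DecidesOn 𝒢 s t) (ha : N.Avoids M')
    (hk : (M \ M').ncard ≤ k) : N.Limited 𝒢 s t M k := by
  intro G hG hr
  refine ⟨Gᶜ \ M', Set.sdiff_subset, ?_, ?_⟩
  · refine le_trans (Set.ncard_le_ncard ?_ (Set.toFinite _)) hk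
    intro e he
    exact ⟨he.2, he.1.2⟩
  · have h3 := (hd G hG).mpr hr
    unfold SwitchingNetwork.Connects at h3 ⊢
    refine eqv_map id (fun v w h => ?_) h3
    rcases h with h | h | ⟨e, he, h⟩
    · exact Or.inl h
    · exact Or.inr (Or.inl h)
    · exact Or.inr (Or.inr ⟨e, ⟨he, fun h' => ha e h' v w h⟩, h⟩)

theorem limitedStates_spec (𝒢 : Set (Set (V × V))) (s t : V) (M : Set (V × V)) (k : ℕ) :
    ∃ N : SwitchingNetwork (V × V) (Fin (limitedStates 𝒢 s t M k)), N.DecidesOn 𝒢 s t ∧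
      N.Limited 𝒢 s t M k := by
  obtain ⟨N, h1, h2⟩ := cost_spec (𝒢 := 𝒢) s t M
  have hne : {m | ∃ N : SwitchingNetwork (V × V) (Fin m), N.DecidesOn 𝒢 s t ∧
      N.Limited 𝒢 s t M k}.Nonempty :=
    ⟨_, N, h1, limited_of_avoids h1 h2 (by simp)⟩
  exact Nat.sInf_mem hne

theorem states_eq (𝒢 : Set (Set (V × V))) (s t : V) : states 𝒢 s t = cost 𝒢 s t ∅ := by
  unfold states cost
  congr 1
  ext m
  simp [SwitchingNetwork.Avoids]

theorem states_le (𝒢 : Set (Set (V × V))) (s t : V) (M : Set (V × V)) (k : ℕ) :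
    states 𝒢 s t ≤ limitedStates 𝒢 s t M k := by
  obtain ⟨N, h1, _⟩ := limitedStates_spec 𝒢 s t M k
  exact Nat.sInf_le ⟨N, h1⟩

theorem states_pos (𝒢 : Set (Set (V × V))) (s t : V) : 0 < states 𝒢 s t := by
  obtain ⟨N, _⟩ := cost_spec (𝒢 := 𝒢) s t (∅ : Set (V × V))
  rw [states_eq]
  exact Fin.pos N.source

theorem limitedStates_le_cost {𝒢 : Set (Set (V × V))} (s t : V) {M M' : Set (V × V)} {k : ℕ}
    (hk : (M \ M').ncard ≤ k) : limitedStates 𝒢 s t M k ≤ cost 𝒢 s t M' := by
  obtain ⟨N, h1, h2⟩ := cost_spec (𝒢 := 𝒢) s t M'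
  exact Nat.sInf_le ⟨N, h1, limited_of_avoids h1 h2 hk⟩

/-- few vertices meeting a set of arcs bound its matching number -/
theorem nu_le_of_cover {M : Set (V × V)} (X : Finset V)
    (hX : ∀ e ∈ M, e.1 ≠ e.2 → e.1 ∈ X ∨ e.2 ∈ X) : nu M ≤ 2 * X.card := by
  obtain ⟨P, hP, hc, _⟩ := nu_spec M
  rw [← hc]
  have h1 : P ⊆ P.filter (fun e => e.1 ∈ X) ∪ P.filter (fun e => e.2 ∈ X) := by
    intro e he
    rw [mem_union, mem_filter, mem_filter]
    rcases hX e (hP.sub e he) (hP.loopless e he) with h | h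
    · exact Or.inl ⟨he, h⟩
    · exact Or.inr ⟨he, h⟩
  have h2 : (P.filter (fun e => e.1 ∈ X)).card ≤ X.card :=
    card_le_card_of_injOn Prod.fst (fun e he => (mem_filter.mp he).2)
      (fun a ha b hb h => hP.tails a (mem_filter.mp ha).1 b (mem_filter.mp hb).1 h)
  have h3 : (P.filter (fun e => e.2 ∈ X)).card ≤ X.card :=
    card_le_card_of_injOn Prod.snd (fun e he => (mem_filter.mp he).2)
      (fun a ha b hb h => hP.heads a (mem_filter.mp ha).1 b (mem_filter.mp hb).1 h)
  have h4 := card_le_card h1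
  have h5 := card_union_le (P.filter (fun e => e.1 ∈ X)) (P.filter (fun e => e.2 ∈ X))
  omega

theorem limited_upper {𝒢 : Set (Set (V × V))} (h𝒢 : Hereditary 𝒢) {s t : V} (hst : s ≠ t)
    {M : Set (V × V)} {r k : ℕ} (hc : Coverable M r k) :
    limitedStates 𝒢 s t M k ≤ (8 * r + 5) ^ (Nat.clog 2 (4 * r + 2)) *
      (Fintype.card V * Fintype.card V * (states 𝒢 s t + 4) + 4) := by
  obtain ⟨X, hX, hk⟩ := hc
  set F : Set (V × V) := {e | e ∈ M ∧ e.1 ≠ e.2 ∧ e.1 ∉ X ∧ e.2 ∉ X} with hF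
  have h1 : limitedStates 𝒢 s t M k ≤ cost 𝒢 s t (M \ F) := by
    refine limitedStates_le_cost s t (le_trans (Set.ncard_le_ncard ?_ (Set.toFinite _)) hk)
    intro e he
    by_contra h
    exact he.2 ⟨he.1, h⟩
  have h2 : nu (M \ F) ≤ 2 * r := by
    refine le_trans (nu_le_of_cover X fun e he hne => ?_) (by omega)
    by_contra h
    rw [not_or] at h
    exact he.2 ⟨he.1, hne, h.1, h.2⟩
  refine le_trans h1 (le_trans (cost_upper h𝒢 hst (M \ F)) ?_)
  rw [states_eq]
  refine Nat.mul_le_mul_right _ ?_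
  calc (4 * nu (M \ F) + 5) ^ (Nat.clog 2 (2 * nu (M \ F) + 2))
      ≤ (8 * r + 5) ^ (Nat.clog 2 (2 * nu (M \ F) + 2)) := Nat.pow_le_pow_left (by omega) _
    _ ≤ (8 * r + 5) ^ (Nat.clog 2 (4 * r + 2)) :=
        Nat.pow_le_pow_right (by omega) (Nat.clog_mono_right 2 (by omega))

/-- a large subset of bounded degree, or few vertices meeting all but few arcs -/
theorem exists_bounded (M : Set (V × V)) (D : ℕ) :
    ∃ (M' : Finset (V × V)) (X : Finset V), (∀ e ∈ M', e ∈ M ∧ e.1 ≠ e.2) ∧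
      (∀ v, (M'.filter (fun e => e.1 = v)).card ≤ D) ∧
      (∀ v, (M'.filter (fun e => e.2 = v)).card ≤ D) ∧
      D * X.card ≤ 2 * M'.card ∧
      {e | e ∈ M ∧ e.1 ≠ e.2 ∧ e.1 ∉ X ∧ e.2 ∉ X} ⊆ M' ∧
      (D = 1 → {e | e ∈ M ∧ e.1 ≠ e.2 ∧ e.1 ∉ X ∧ e.2 ∉ X} = ∅) := by
  classical
  set 𝒬 : Finset (Finset (V × V)) := univ.filter (fun M' =>
    (∀ e ∈ M', e ∈ M ∧ e.1 ≠ e.2) ∧ (∀ v, (M'.filter (fun e => e.1 = v)).card ≤ D) ∧
      (∀ v, (M'.filter (fun e => e.2 = v)).card ≤ D)) with h𝒬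
  have hne : 𝒬.Nonempty := ⟨∅, by simp [h𝒬]⟩
  obtain ⟨M', hM', hmax⟩ := exists_max_image 𝒬 card hne
  obtain ⟨-, h1, h2, h3⟩ := mem_filter.mp hM'
  set T : Finset V := univ.filter (fun v => (M'.filter (fun e => e.1 = v)).card = D) with hT
  set H : Finset V := univ.filter (fun v => (M'.filter (fun e => e.2 = v)).card = D) with hH
  have hTc : D * T.card ≤ M'.card := by
    calc D * T.card = ∑ v ∈ T, (M'.filter (fun e => e.1 = v)).card := by
          rw [sum_congr rfl fun v hv => (mem_filter.mp hv).2, sum_const, smul_eq_mul, mul_comm]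
      _ ≤ ∑ v : V, (M'.filter (fun e => e.1 = v)).card :=
          sum_le_sum_of_subset (subset_univ _)
      _ = M'.card := (card_eq_sum_card_fiberwise (fun _ _ => mem_univ _)).symm
  have hHc : D * H.card ≤ M'.card := by
    calc D * H.card = ∑ v ∈ H, (M'.filter (fun e => e.2 = v)).card := by
          rw [sum_congr rfl fun v hv => (mem_filter.mp hv).2, sum_const, smul_eq_mul, mul_comm]
      _ ≤ ∑ v : V, (M'.filter (fun e => e.2 = v)).card :=
          sum_le_sum_of_subset (subset_univ _)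
      _ = M'.card := (card_eq_sum_card_fiberwise (fun _ _ => mem_univ _)).symm
  have hins : ∀ e, e ∈ M → e.1 ≠ e.2 → e.1 ∉ T ∪ H → e.2 ∉ T ∪ H → e ∈ M' := by
    intro e he hne' h4 h5
    by_contra hc
    have hT' : (M'.filter (fun x => x.1 = e.1)).card < D := by
      refine lt_of_le_of_ne (h2 e.1) fun h => h4 ?_
      exact mem_union_left _ (mem_filter.mpr ⟨mem_univ _, h⟩)
    have hH' : (M'.filter (fun x => x.2 = e.2)).card < D := by
      refine lt_of_le_of_ne (h3 e.2) fun h => h5 ?_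
      exact mem_union_right _ (mem_filter.mpr ⟨mem_univ _, h⟩)
    have hin : insert e M' ∈ 𝒬 := by
      refine mem_filter.mpr ⟨mem_univ _, ?_, ?_, ?_⟩
      · intro x hx
        rcases mem_insert.mp hx with rfl | h
        · exact ⟨he, hne'⟩
        · exact h1 x h
      · intro v
        rw [filter_insert]
        split_ifs with hv
        · subst hv
          exact le_trans (card_insert_le _ _) hT'
        · exact h2 v
      · intro v
        rw [filter_insert]
        split_ifs with hv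
        · subst hv
          exact le_trans (card_insert_le _ _) hH'
        · exact h3 v
    have := hmax _ hin
    rw [card_insert_of_notMem hc] at this
    omega
  refine ⟨M', T ∪ H, h1, h2, h3, ?_, ?_, ?_⟩
  · have := card_union_le T H
    calc D * (T ∪ H).card ≤ D * (T.card + H.card) := Nat.mul_le_mul_left _ this
      _ = D * T.card + D * H.card := by ring
      _ ≤ 2 * M'.card := by omega
  · intro e he
    exact hins e he.1 he.2.1 he.2.2.1 he.2.2.2
  · rintro rfl
    rw [Set.eq_empty_iff_forall_notMem]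
    intro e he
    have h4 := hins e he.1 he.2.1 he.2.2.1 he.2.2.2
    have h5 : 0 < (M'.filter (fun x => x.1 = e.1)).card :=
      card_pos.mpr ⟨e, mem_filter.mpr ⟨h4, rfl⟩⟩
    refine he.2.2.1 (mem_union_left _ (mem_filter.mpr ⟨mem_univ _, ?_⟩))
    have := h2 e.1
    omega

/-- if `M` cannot be met by `r` vertices up to `k * r` arcs, it has a large subset of degree at
most `max k 1` -/
theorem exists_large {M : Set (V × V)} {r k : ℕ} (hc : ¬ Coverable M r (k * r)) :
    ∃ M' : Finset (V × V), (∀ e ∈ M', e ∈ M ∧ e.1 ≠ e.2) ∧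
      (∀ v, (M'.filter (fun e => e.1 = v)).card ≤ max k 1) ∧
      (∀ v, (M'.filter (fun e => e.2 = v)).card ≤ max k 1) ∧
      max k 1 * r ≤ 2 * M'.card := by
  obtain ⟨M', X, h1, h2, h3, h4, h5, h6⟩ := exists_bounded M (max k 1)
  refine ⟨M', h1, h2, h3, ?_⟩
  by_contra hlt
  push Not at hlt
  have hX : X.card ≤ r := by
    have : max k 1 * X.card < max k 1 * r := lt_of_le_of_lt h4 hlt
    exact (Nat.lt_of_mul_lt_mul_left this).le
  refine hc ⟨X, hX, ?_⟩
  rcases Nat.eq_zero_or_pos k with h0 | h0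
  · subst h0
    rw [h6 (by simp)]
    simp
  · have h7 := Set.ncard_le_ncard h5 (Set.toFinite _)
    rw [Set.ncard_coe_finset] at h7
    rw [max_eq_left h0] at hlt
    omega

end

theorem limited_lower {n : ℕ} {s t : Fin n} (hst : s ≠ t) {M : Set (Fin n × Fin n)} {r k : ℕ}
    (hc : ¬ Coverable M r (k * r)) {d : ℕ} (hd : 2 ^ (20 * d + 101) ≤ r) :
    ∃ B : Set (Fin n × Fin n), Disjoint B M ∧ ∀ 𝒢 : Set (Set (Fin n × Fin n)),
      (∀ G, SparseDag G → G \ M = B → G ∈ 𝒢) → 2 ^ (d * d) ≤ limitedStates 𝒢 s t M k := by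
  obtain ⟨M', h1, h2, h3, h4⟩ := exists_large hc
  have hpos : 0 < max k 1 := by positivity
  have e1 : 2 ^ (20 * d + 100) * max k 1 ≤ M'.card := by
    have : 2 * (2 ^ (20 * d + 100) * max k 1) ≤ max k 1 * r := by
      calc 2 * (2 ^ (20 * d + 100) * max k 1) = max k 1 * 2 ^ (20 * d + 101) := by ring
        _ ≤ max k 1 * r := Nat.mul_le_mul_left _ hd
    omega
  have e2 : 2 ^ (8 * d + 42) * k ≤ M'.card := by
    refine le_trans (Nat.mul_le_mul ?_ (le_max_left k 1)) e1
    exact Nat.pow_le_pow_right (by norm_num) (by omega)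
  obtain ⟨B, hB, hN⟩ := explicit_fixed d n (max k 1) k hpos s t hst M' (fun e he => (h1 e he).2)
    h2 h3 e1 e2
  refine ⟨B \ M, disjoint_sdiff_self_left, fun 𝒢 h𝒢 => ?_⟩
  have hin : ∀ G, SparseDag G → G \ M' = B → G ∈ 𝒢 := by
    intro G hG hGB
    refine h𝒢 G hG ?_
    rw [← hGB]
    ext e
    simp only [Set.mem_sdiff, mem_coe]
    constructor
    · exact fun h => ⟨⟨h.1, fun h' => h.2 (h1 e h').1⟩, h.2⟩
    · exact fun h => ⟨h.1.1, h.2⟩
  obtain ⟨N, hN1, hN2⟩ := limitedStates_spec 𝒢 s t M k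
  have := hN _ N (fun G hG hGB => hN1 G (hin G hG hGB)) (fun G hG hGB hr => by
    obtain ⟨F, hF, hk, hcon⟩ := hN2 G (hin G hG hGB) hr
    refine ⟨F, hF, le_trans (Set.ncard_le_ncard ?_ (Set.toFinite _)) hk, hcon⟩
    intro e he
    exact ⟨he.1, (h1 e he.2).1⟩)
  rwa [Fintype.card_fin] at this

/-- the logarithmic form of the upper bound -/
theorem log_upper {n S T ν : ℕ} (hn : 2 ≤ n) (hnS : n ≤ S) (hST : S ≤ T)
    (hup : T ≤ (4 * ν + 5) ^ (Nat.clog 2 (2 * ν + 2)) * (n * n * (S + 4) + 4)) :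
    Real.logb 2 T ≤ 100 * (Real.logb 2 S + (Real.logb 2 ν) ^ 2) := by
  set a := Nat.log 2 ν with ha
  have hS2 : 2 ≤ S := le_trans hn hnS
  have hLS : 1 ≤ Real.logb 2 S := by
    have := logb_le_of_le (by norm_num) hS2
    simpa using this
  have hνlt : ν < 2 ^ (a + 1) := Nat.lt_pow_succ_log_self (by norm_num) ν
  have hν0 : 0 ≤ Real.logb 2 ν := by
    rcases Nat.eq_zero_or_pos ν with h | h
    · rw [h]; simp
    · exact Real.logb_nonneg (by norm_num) (by exact_mod_cast h)
  have haν : (a : ℝ) ≤ Real.logb 2 ν := by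
    rcases Nat.eq_zero_or_pos ν with h | h
    · rw [ha, h]; simp
    · have := logb_le_of_le (by positivity) (Nat.pow_log_le_self 2 h.ne')
      rw [logb_cast_pow] at this
      exact this
  have h1 : Nat.clog 2 (2 * ν + 2) ≤ a + 2 := by
    refine Nat.clog_le_of_le_pow ?_
    rw [pow_succ]
    omega
  have h2 : 4 * ν + 5 ≤ 2 ^ (a + 4) := by
    have : 2 ^ (a + 4) = 8 * 2 ^ (a + 1) := by rw [pow_add, pow_add]; ring
    rw [this]
    have : 1 ≤ 2 ^ (a + 1) := Nat.one_le_two_pow
    omega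
  have h3 : n * n * (S + 4) + 4 ≤ S ^ 5 := by
    have e1 : n * n * (S + 4) ≤ S * S * (S + 4) := by gcongr
    have e2 : S * S * (S + 4) + 4 ≤ 4 * (S * S * S) := by nlinarith
    have e3 : 4 * (S * S * S) ≤ (S * S) * (S * S * S) := by
      refine Nat.mul_le_mul_right _ ?_
      nlinarith
    calc n * n * (S + 4) + 4 ≤ (S * S) * (S * S * S) := by omega
      _ = S ^ 5 := by ring
  have h4 : T ≤ 2 ^ ((a + 4) * (a + 2)) * S ^ 5 := by
    refine le_trans hup (Nat.mul_le_mul ?_ h3)
    rw [pow_mul]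
    exact le_trans (Nat.pow_le_pow_left h2 _) (Nat.pow_le_pow_right (by positivity) h1)
  have h5 := logb_le_of_le (by omega) h4
  rw [Nat.cast_mul, Real.logb_mul (by positivity) (by positivity), logb_cast_pow, Nat.cast_pow,
    Real.logb_pow] at h5
  push_cast at h5
  have h6 : ((a : ℝ) + 4) * (a + 2) ≤ (Real.logb 2 ν + 4) * (Real.logb 2 ν + 2) := by gcongr
  nlinarith [sq_nonneg (Real.logb 2 ν - 1)]

/-- both bounds, in logarithmic form -/
theorem tradeoff {n : ℕ} {s t : Fin n} (hst : s ≠ t) (M : Set (Fin n × Fin n)) (r k : ℕ) :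
    (Coverable M r k → ∀ 𝒢 : Set (Set (Fin n × Fin n)), Hereditary 𝒢 →
      (∀ G, SparseDag G → G ∈ 𝒢) →
      Real.logb 2 (limitedStates 𝒢 s t M k) ≤
        20000 * (Real.logb 2 (states 𝒢 s t) + Real.logb 2 r ^ 2)) ∧
    (¬ Coverable M r (k * r) → ∃ B : Set (Fin n × Fin n), Disjoint B M ∧
      ∀ 𝒢 : Set (Set (Fin n × Fin n)), (∀ G, SparseDag G → G \ M = B → G ∈ 𝒢) →
      Real.logb 2 (states 𝒢 s t) + Real.logb 2 r ^ 2 ≤
        20000 * (1 + Real.logb 2 (limitedStates 𝒢 s t M k))) := by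
  have hn : 2 ≤ n := by
    by_contra hc
    exact hst (Fin.ext (by have := s.2; have := t.2; omega))
  constructor
  · intro hc 𝒢 h𝒢 hsp
    have hup := limited_upper h𝒢 hst hc
    rw [Fintype.card_fin] at hup
    have hnS : n ≤ states 𝒢 s t := by
      rw [states_eq]; exact vertices_le_cost hsp hst ∅
    have h1 := log_upper (ν := 2 * r) hn hnS (states_le 𝒢 s t M k)
      (by convert hup using 4 <;> ring)
    have hLS : 1 ≤ Real.logb 2 (states 𝒢 s t) := by
      have := logb_le_of_le (by norm_num) (le_trans hn hnS)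
      simpa using this
    have h2 : Real.logb 2 ((2 * r : ℕ) : ℝ) ^ 2 ≤ 2 + 2 * Real.logb 2 r ^ 2 := by
      rcases Nat.eq_zero_or_pos r with h | h
      · subst h; simp
      · have h3 : Real.logb 2 ((2 * r : ℕ) : ℝ) = 1 + Real.logb 2 r := by
          push_cast
          rw [Real.logb_mul (by norm_num) (by positivity)]
          simp
        rw [h3]
        nlinarith [sq_nonneg (Real.logb 2 r - 1)]
    have h3 : 0 ≤ Real.logb 2 (r : ℝ) ^ 2 := sq_nonneg _
    nlinarith
  · intro hc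
    rcases Nat.lt_or_ge r (2 ^ 101) with hr | hr
    · refine ⟨∅, Set.empty_disjoint _, fun 𝒢 _ => ?_⟩
      have hpos := states_pos 𝒢 s t
      have h1 := logb_le_of_le hpos (states_le 𝒢 s t M k)
      have h2 : 0 ≤ Real.logb 2 (states 𝒢 s t) :=
        Real.logb_nonneg (by norm_num) (by exact_mod_cast hpos)
      have h3 : 0 ≤ Real.logb 2 (r : ℝ) ∧ Real.logb 2 (r : ℝ) ≤ 101 := by
        rcases Nat.eq_zero_or_pos r with h | h
        · subst h; simp
        · refine ⟨Real.logb_nonneg (by norm_num) (by exact_mod_cast h), ?_⟩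
          have := logb_le_of_le h hr.le
          rw [logb_cast_pow] at this
          exact_mod_cast this
      nlinarith [h3.1, h3.2]
    · set a := Nat.log 2 r with ha
      have hr0 : r ≠ 0 := by
        intro h; subst h; norm_num at hr
      have ha101 : 101 ≤ a := Nat.le_log_of_pow_le (by norm_num) hr
      set d := (a - 101) / 20 with hd
      have hda : 20 * d + 101 ≤ a := by omega
      have hda' : a + 1 ≤ 20 * d + 121 := by omega
      obtain ⟨B, hB, hlow⟩ := limited_lower hst hc (d := d)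
        (le_trans (Nat.pow_le_pow_right (by norm_num) hda) (Nat.pow_log_le_self 2 hr0))
      refine ⟨B, hB, fun 𝒢 h𝒢 => ?_⟩
      have hpos := states_pos 𝒢 s t
      have h1 := logb_le_of_le hpos (states_le 𝒢 s t M k)
      have h2 := logb_le_of_le (by positivity) (hlow 𝒢 h𝒢)
      rw [logb_cast_pow] at h2
      push_cast at h2
      have h3 : Real.logb 2 (r : ℝ) ≤ 20 * d + 121 := by
        have h4 : Real.logb 2 (r : ℝ) ≤ a + 1 := by
          have := logb_le_of_le (Nat.pos_of_ne_zero hr0)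
            (Nat.lt_pow_succ_log_self (by norm_num : 1 < 2) r).le
          rw [logb_cast_pow] at this
          push_cast at this
          exact this
        refine le_trans h4 ?_
        exact_mod_cast hda'
      have h5 : 0 ≤ Real.logb 2 (r : ℝ) :=
        Real.logb_nonneg (by norm_num) (by exact_mod_cast Nat.pos_of_ne_zero hr0)
      have h6 : (Real.logb 2 (r : ℝ)) ^ 2 ≤ (20 * (d : ℝ) + 121) ^ 2 := by gcongr
      nlinarith [sq_nonneg ((d : ℝ) - 3)]

end Pool.Agent.Lib.Pe46137
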