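import Pool.Agent.Lib.Pe46137.LongC
import Pool.Agent.Lib.Pe46137.Tradeoff

/-!
The explicit lower bound for arbitrary reductions to undirected reachability.
-/

namespace Pool.Agent.Lib.Pe46137

open Finset

universe u

open Classical in
/-- the parametric bound for an arbitrary set of arcs with many arcs compared to its degrees; the
arcs outside the set are fixed -/
theorem paramR2 {n : ℕ} {d t b q ρ β h m L : ℕ} [Fact q.Prime] (hL : L = t * b + 1)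
    (hm : m + 2 * h + 1 = d) (hm1 : 1 ≤ m)
    (hl : 2 ^ d ≤ t + 1) (hlq : t + 1 ≤ q) (hβ : 1 ≤ β) (hb0 : 0 < b) (hb : β * ρ ≤ b)
    {s u₀ : Fin n} (hst : s ≠ u₀) (M : Finset (Fin n × Fin n)) (hloop : ∀ e ∈ M, e.1 ≠ e.2)
    {Δ k : ℕ} (hout : ∀ v, (M.filter (fun e => e.1 = v)).card ≤ Δ)
    (hin : ∀ v, (M.filter (fun e => e.2 = v)).card ≤ Δ)
    (hA : 8 * Δ * (2 * (L * q + 2)) ^ 3 + 4 * (2 * (L * q + 2)) ^ 4 + 4 * Δ < M.card)
    (hB : 2 * (2 * (L * q + 2)) ^ 2 * (8 * k + 8 * (L * q + 2) ^ 3 * Δ + 1) + 4 * Δ ≤ M.card)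
    : ∃ B : Set (Fin n × Fin n), Disjoint B (M : Set (Fin n × Fin n)) ∧
      ∀ (W : Type u) [Fintype W] (H : Reduction (Fin n) W),
      24 * (Fintype.card W) ^ 2 ≤ β ^ h →
      H.Correct {G | SparseDag G ∧ G \ M = B} s u₀ →
      H.Local {G | SparseDag G ∧ G \ M = B} s u₀ M ρ k →
      (q : ℝ) ^ m ≤ 2 * ((Fintype.card W : ℝ) ^ 2 * (9 * (t + 1 : ℕ) + 1) ^ d) := by
  have : NeZero q := ⟨(Fact.out : q.Prime).ne_zero⟩
  have hcC : Fintype.card (Cl L q × Bool) = 2 * (L * q + 2) := by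
    rw [Fintype.card_prod, card_Cl, Fintype.card_bool, mul_comm]
  set M' := M.filter (fun e => e.1 ≠ s ∧ e.1 ≠ u₀ ∧ e.2 ≠ s ∧ e.2 ≠ u₀) with hM'
  have hcard : M.card ≤ M'.card + 4 * Δ := by
    have h1 : M ⊆ M' ∪ (M.filter (fun e => e.1 = s) ∪ (M.filter (fun e => e.1 = u₀) ∪
          (M.filter (fun e => e.2 = s) ∪ M.filter (fun e => e.2 = u₀)))) := by
      intro e he
      simp only [hM', mem_union, mem_filter]
      by_cases h2 : e.1 = s
      · right; left; exact ⟨he, h2⟩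
      by_cases h3 : e.1 = u₀
      · right; right; left; exact ⟨he, h3⟩
      by_cases h4 : e.2 = s
      · right; right; right; left; exact ⟨he, h4⟩
      by_cases h5 : e.2 = u₀
      · right; right; right; right; exact ⟨he, h5⟩
      left; exact ⟨he, h2, h3, h4, h5⟩
    have h2 := card_le_card h1
    have u1 := card_union_le M' (M.filter (fun e => e.1 = s) ∪ (M.filter (fun e => e.1 = u₀) ∪
          (M.filter (fun e => e.2 = s) ∪ M.filter (fun e => e.2 = u₀))))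
    have u2 := card_union_le (M.filter (fun e => e.1 = s)) (M.filter (fun e => e.1 = u₀) ∪
          (M.filter (fun e => e.2 = s) ∪ M.filter (fun e => e.2 = u₀)))
    have u3 := card_union_le (M.filter (fun e => e.1 = u₀))
          (M.filter (fun e => e.2 = s) ∪ M.filter (fun e => e.2 = u₀))
    have u4 := card_union_le (M.filter (fun e => e.2 = s)) (M.filter (fun e => e.2 = u₀))
    have c1 := hout s
    have c2 := hout u₀
    have c3 := hin s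
    have c4 := hin u₀
    omega
  have hM'sub : M' ⊆ M := filter_subset _ _
  obtain ⟨φ₀, hφ₀⟩ := exists_partition (C := Cl L q × Bool) M'
    (fun e he => hloop e (hM'sub he)) Δ
    (fun v => le_trans (card_le_card (filter_subset_filter _ hM'sub)) (hout v))
    (fun v => le_trans (card_le_card (filter_subset_filter _ hM'sub)) (hin v))
    (8 * k + 8 * (L * q + 2) ^ 3 * Δ + 1)
    (by rw [hcC]; omega) (by rw [hcC]; omega)
  set φ : Fin n → Cl L q × Bool :=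
    Function.update (Function.update φ₀ s (Sum.inr true, false)) u₀ (Sum.inr false, true)
    with hφ
  have hφs : φ s = (Sum.inr true, false) := by
    rw [hφ, Function.update_of_ne hst, Function.update_self]
  have hφt : φ u₀ = (Sum.inr false, true) := by
    rw [hφ, Function.update_self]
  have hφo : ∀ v, v ≠ s → v ≠ u₀ → φ v = φ₀ v := by
    intro v h1 h2
    rw [hφ, Function.update_of_ne h2, Function.update_of_ne h1]
  refine ⟨{a | Step (fun v => (φ v).1) (fun v => (φ v).2) a.1 a.2} \ M, Set.disjoint_sdiff_left,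
    fun W _ H hW hN hneg => ?_⟩
  refine paramR (β := β) (h := h) (ρ := ρ) hL hm hm1 hl hlq hβ hb0 hb hW
    (fun v => (φ v).1) (fun v => (φ v).2) (s := s) (u₀ := u₀)
    (by simp only [hφs]) (by simp only [hφs]) (by simp only [hφt]) (by simp only [hφt]) M
    (Δ := Δ) (R := 8 * k + 8 * (L * q + 2) ^ 3 * Δ + 1) (k := k) hout hin
    (by omega) (by omega) (by omega) ?_ H hN hneg
  intro u w
  refine le_trans (hφ₀ (u, true) (w, false) (by simp)) (card_le_card ?_)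
  intro e he
  simp only [hM', mem_filter] at he ⊢
  obtain ⟨⟨h1, h2, h3, h4, h5⟩, h6, h7⟩ := he
  rw [hφo _ h2 h3, hφo _ h4 h5, h6, h7]
  exact ⟨h1, ⟨rfl, rfl⟩, rfl, rfl⟩

theorem expR (e : ℕ) (he : 1 ≤ e) :
    1 + (4 * e + 4) * (4 * e) + 2 * (e * e) ≤ (18 * e + 17) * (2 * e - 1) := by
  obtain ⟨c, rfl⟩ : ∃ c, e = c + 1 := ⟨e - 1, by omega⟩
  have : 2 * (c + 1) - 1 = 2 * c + 1 := by omega
  rw [this]
  nlinarith

/-- the last step: from the parametric inequality to `2 ^ (e * e)` states -/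
theorem states_of_paramR {w : ℝ} (hw : 0 ≤ w) {e q : ℕ} (he : 1 ≤ e)
    (hq : 2 ^ (18 * e + 17) < q)
    (h : (q : ℝ) ^ (2 * e - 1) ≤ 2 * (w ^ 2 * (9 * ((2 ^ (4 * e) : ℕ) : ℝ) + 1) ^ (4 * e))) :
    (2 : ℝ) ^ (e * e) ≤ w := by
  have e1 : ((2 : ℝ) ^ (18 * e + 17)) ^ (2 * e - 1) ≤ (q : ℝ) ^ (2 * e - 1) := by
    have : ((2 : ℝ) ^ (18 * e + 17)) ≤ q := by exact_mod_cast hq.le
    gcongr
  have e2 : (9 * ((2 ^ (4 * e) : ℕ) : ℝ) + 1) ^ (4 * e) ≤ (2 : ℝ) ^ ((4 * e + 4) * (4 * e)) := by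
    rw [pow_mul (2 : ℝ) (4 * e + 4) (4 * e)]
    have h1 : 9 * ((2 ^ (4 * e) : ℕ) : ℝ) + 1 ≤ 2 ^ (4 * e + 4) := by
      push_cast
      have : (1 : ℝ) ≤ 2 ^ (4 * e) := one_le_pow₀ (by norm_num)
      rw [pow_add]
      linarith
    gcongr
  have e3 : (2 : ℝ) ^ ((18 * e + 17) * (2 * e - 1)) ≤
      2 * (w ^ 2 * (2 : ℝ) ^ ((4 * e + 4) * (4 * e))) := by
    rw [pow_mul]
    refine le_trans e1 (le_trans h ?_)
    gcongr
  have e4 : (2 : ℝ) ^ (1 + (4 * e + 4) * (4 * e)) * (2 : ℝ) ^ (2 * (e * e)) ≤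
      (2 : ℝ) ^ ((18 * e + 17) * (2 * e - 1)) := by
    rw [← pow_add]
    exact pow_le_pow_right₀ (by norm_num) (expR e he)
  have e5 : (2 : ℝ) ^ (1 + (4 * e + 4) * (4 * e)) * (2 : ℝ) ^ (2 * (e * e)) ≤
      (2 : ℝ) ^ (1 + (4 * e + 4) * (4 * e)) * w ^ 2 := by
    refine le_trans e4 (le_trans e3 (le_of_eq ?_))
    rw [pow_add]
    ring
  have e6 : (2 : ℝ) ^ (2 * (e * e)) ≤ w ^ 2 := le_of_mul_le_mul_left e5 (by positivity)
  have e7 : ((2 : ℝ) ^ (e * e)) ^ 2 ≤ w ^ 2 := by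
    rw [← pow_mul, mul_comm]; exact e6
  exact le_of_sq_le_sq e7 hw

theorem two_pow_congr {a b : ℕ} (h : a = b) : (2 : ℕ) ^ a = 2 ^ b := by rw [h]

theorem two_pow_mul_eq (a b c : ℕ) (h : a * b = c) : ((2 : ℕ) ^ a) ^ b = 2 ^ c := by
  rw [← pow_mul, h]

/-- numerical conditions -/
theorem conditionsR {e Δ k Mc m : ℕ} (hm : m ≤ 2 ^ (25 * e + 24))
    (h1 : 2 ^ (126 * e + 130) * Δ ≤ Mc)
    (h2 : 2 ^ (50 * e + 60) * k ≤ Mc) (hΔ : 0 < Δ) :
    8 * Δ * (2 * m) ^ 3 + 4 * (2 * m) ^ 4 + 4 * Δ < Mc ∧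
    2 * (2 * m) ^ 2 * (8 * k + 8 * m ^ 3 * Δ + 1) + 4 * Δ ≤ Mc := by
  set E := 2 ^ (125 * e + 120) with hE
  have p1 : 2 ^ (126 * e + 130) = 2 ^ e * (2 ^ 10 * E) := by
    rw [hE, ← pow_add, ← pow_add]; exact two_pow_congr (by ring)
  have p2 : 1 ≤ 2 ^ e := Nat.one_le_two_pow
  have p3 : 1 ≤ E := Nat.one_le_two_pow
  have m2 : m ^ 2 ≤ 2 ^ (50 * e + 48) := by
    calc m ^ 2 ≤ (2 ^ (25 * e + 24)) ^ 2 := Nat.pow_le_pow_left hm 2
      _ = 2 ^ (50 * e + 48) := two_pow_mul_eq _ _ _ (by ring)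
  have m3 : m ^ 3 ≤ 2 ^ (75 * e + 72) := by
    calc m ^ 3 ≤ (2 ^ (25 * e + 24)) ^ 3 := Nat.pow_le_pow_left hm 3
      _ = 2 ^ (75 * e + 72) := two_pow_mul_eq _ _ _ (by ring)
  have m4 : m ^ 4 ≤ 2 ^ (100 * e + 96) := by
    calc m ^ 4 ≤ (2 ^ (25 * e + 24)) ^ 4 := Nat.pow_le_pow_left hm 4
      _ = 2 ^ (100 * e + 96) := two_pow_mul_eq _ _ _ (by ring)
  have m5 : m ^ 5 ≤ E := by
    calc m ^ 5 ≤ (2 ^ (25 * e + 24)) ^ 5 := Nat.pow_le_pow_left hm 5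
      _ = 2 ^ (125 * e + 120) := two_pow_mul_eq _ _ _ (by ring)
  have m2' : m ^ 2 ≤ E := le_trans m2 (Nat.pow_le_pow_right (by norm_num) (by omega))
  have m3' : m ^ 3 ≤ E := le_trans m3 (Nat.pow_le_pow_right (by norm_num) (by omega))
  have m4' : m ^ 4 ≤ E := le_trans m4 (Nat.pow_le_pow_right (by norm_num) (by omega))
  have h1' : 1024 * (E * Δ) ≤ Mc := by
    refine le_trans ?_ h1
    rw [p1]
    calc 1024 * (E * Δ) = 1 * (2 ^ 10 * E) * Δ := by norm_num; ring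
      _ ≤ 2 ^ e * (2 ^ 10 * E) * Δ := by gcongr
  have q1 : m ^ 3 * Δ ≤ E * Δ := Nat.mul_le_mul_right Δ m3'
  have q3 : m ^ 5 * Δ ≤ E * Δ := Nat.mul_le_mul_right Δ m5
  have q0 : E ≤ E * Δ := Nat.le_mul_of_pos_right E hΔ
  have q5 : Δ ≤ E * Δ := Nat.le_mul_of_pos_left Δ p3
  have q6 : 4096 * (m ^ 2 * k) ≤ Mc := by
    refine le_trans ?_ h2
    calc 4096 * (m ^ 2 * k) ≤ 4096 * (2 ^ (50 * e + 48) * k) := by gcongr
      _ = 2 ^ (50 * e + 60) * k := by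
          have : 2 ^ (50 * e + 60) = 4096 * 2 ^ (50 * e + 48) := by
            rw [show 50 * e + 60 = 12 + (50 * e + 48) by ring, pow_add]; norm_num
          rw [this]; ring
  constructor
  · have : 8 * Δ * (2 * m) ^ 3 + 4 * (2 * m) ^ 4 + 4 * Δ =
        64 * (m ^ 3 * Δ) + 64 * m ^ 4 + 4 * Δ := by ring
    rw [this]
    omega
  · have : 2 * (2 * m) ^ 2 * (8 * k + 8 * m ^ 3 * Δ + 1) + 4 * Δ =
        64 * (m ^ 2 * k) + 64 * (m ^ 5 * Δ) + 8 * m ^ 2 + 4 * Δ := by ring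
    rw [this]
    omega

end Pool.Agent.Lib.Pe46137
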