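import Pool.Agent.Lib.Pe46137.LongD

/-!
The explicit lower bound for arbitrary reductions to undirected reachability.
-/

namespace Pool.Agent.Lib.Pe46137

open Finset

universe u

namespace Reduction

variable {V W : Type*} {H : Reduction V W}

theorem Correct.mono {𝒢 𝒢' : Set (Set (V × V))} {s t : V} (h : H.Correct 𝒢 s t)
    (hsub : 𝒢' ⊆ 𝒢) : H.Correct 𝒢' s t := fun G hG => h G (hsub hG)

theorem Local.mono [Finite V] {𝒢 𝒢' : Set (Set (V × V))} {s t : V} {M M' : Set (V × V)}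
    {ρ ρ' k : ℕ} (h : H.Local 𝒢 s t M ρ k) (hsub : 𝒢' ⊆ 𝒢) (hM : M' ⊆ M) (hρ : ρ ≤ ρ') :
    H.Local 𝒢' s t M' ρ' k := by
  intro G hG hr
  obtain ⟨F, hF, hk, hc⟩ := h G (hsub hG) hr
  refine ⟨F, hF, le_trans (Set.ncard_le_ncard (Set.inter_subset_inter_right _ hM)
    (Set.toFinite _)) hk, ?_⟩
  refine eqv_map id (fun v w hvw => ?_) hc
  obtain ⟨I, h1, h2, h3⟩ := hvw
  exact ⟨I, h1, le_trans (Set.ncard_le_ncard (Set.inter_subset_inter_right _ hM)
    (Set.toFinite _)) (h2.trans hρ), fun G' hG' => h3 G' (hsub hG')⟩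

end Reduction

/-- the reduction given by a switching network -/
def ofNetwork {V W : Type*} (N : SwitchingNetwork (V × V) W) : Reduction V W where
  source := N.source
  sink := N.sink
  edge G := N.Closed G Gᶜ

theorem ofNetwork_correct {V W : Type*} {N : SwitchingNetwork (V × V) W}
    {𝒢 : Set (Set (V × V))} {s t : V} (h : N.DecidesOn 𝒢 s t) : (ofNetwork N).Correct 𝒢 s t :=
  fun G hG => h G hG

theorem ofNetwork_local {V W : Type*} [Finite V] {N : SwitchingNetwork (V × V) W}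
    {𝒢 : Set (Set (V × V))} {s t : V} {M : Set (V × V)} {k : ℕ} (h : N.Limited 𝒢 s t M k) :
    (ofNetwork N).Local 𝒢 s t M 1 k := by
  intro G hG hr
  obtain ⟨F, hF, hk, hc⟩ := h G hG hr
  refine ⟨F, hF, hk, ?_⟩
  unfold SwitchingNetwork.Connects at hc
  refine eqv_map id (fun v w hvw => ?_) hc
  rcases hvw with h1 | ⟨e, he, h1⟩ | ⟨e, he, h1⟩
  · exact ⟨∅, by simp, by simp, fun G' _ _ _ => Or.inl h1⟩
  · refine ⟨{e}, by simpa using he, ?_, fun G' _ hI _ => Or.inr (Or.inl ⟨e, hI rfl, h1⟩)⟩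
    refine le_trans (Set.ncard_le_ncard Set.inter_subset_left (Set.toFinite _)) ?_
    simp
  · refine ⟨∅, by simp, by simp, fun G' _ _ hd => Or.inr (Or.inr ⟨e, ?_, h1⟩)⟩
    exact fun h' => Set.disjoint_left.mp hd he h'

theorem clustersR {e q : ℕ} (he : 1 ≤ e) (hq2 : q ≤ 2 * 2 ^ (18 * e + 17)) :
    ((2 ^ (4 * e) - 1) * 2 ^ (3 * e + 5) + 1) * q + 2 ≤ 2 ^ (25 * e + 24) := by
  have ht1 : 2 ^ (4 * e) - 1 + 1 = 2 ^ (4 * e) := Nat.sub_add_cancel Nat.one_le_two_pow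
  have h1 : (2 ^ (4 * e) - 1) * 2 ^ (3 * e + 5) + 1 ≤ 2 ^ (7 * e + 5) := by
    have h2 : 1 ≤ 2 ^ (3 * e + 5) := Nat.one_le_two_pow
    have h3 : 2 ^ (7 * e + 5) = (2 ^ (4 * e) - 1 + 1) * 2 ^ (3 * e + 5) := by
      rw [ht1, ← pow_add]; exact two_pow_congr (by ring)
    rw [h3, add_mul, one_mul]
    exact Nat.add_le_add_left h2 _
  have h4 : 2 * 2 ^ (18 * e + 17) = 2 ^ (18 * e + 18) := (pow_succ' 2 (18 * e + 17)).symm
  have h5 : 2 ^ (7 * e + 5) * 2 ^ (18 * e + 18) = 2 ^ (25 * e + 23) := by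
    rw [← pow_add]; exact two_pow_congr (by ring)
  have h6 : 2 ^ (25 * e + 24) = 2 ^ (25 * e + 23) + 2 ^ (25 * e + 23) := by
    rw [← two_mul]; exact pow_succ' 2 (25 * e + 23)
  have h7 : 2 ≤ 2 ^ (25 * e + 23) := by
    calc 2 = 2 ^ 1 := rfl
      _ ≤ 2 ^ (25 * e + 23) := Nat.pow_le_pow_right (by norm_num) (by omega)
  rw [h4] at hq2
  rw [h6]
  refine Nat.add_le_add ?_ h7
  rw [← h5]
  exact Nat.mul_le_mul h1 hq2

/-- the lower bound for reductions; the arcs outside `M` are fixed -/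
theorem explicitR (e n Δ k : ℕ) (hΔ : 0 < Δ) (s t : Fin n) (hst : s ≠ t)
    (M : Finset (Fin n × Fin n)) (hloop : ∀ e ∈ M, e.1 ≠ e.2)
    (hout : ∀ v, (M.filter (fun e => e.1 = v)).card ≤ Δ)
    (hin : ∀ v, (M.filter (fun e => e.2 = v)).card ≤ Δ)
    (hM : 2 ^ (126 * e + 130) * Δ ≤ M.card) (hk : 2 ^ (50 * e + 60) * k ≤ M.card) :
    ∃ B : Set (Fin n × Fin n), Disjoint B (M : Set (Fin n × Fin n)) ∧
      ∀ (W : Type u) [Fintype W] (H : Reduction (Fin n) W) (ρ : ℕ), ρ ≤ 2 ^ e →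
      H.Correct {G | SparseDag G ∧ G \ M = B} s t →
      H.Local {G | SparseDag G ∧ G \ M = B} s t M ρ k →
      2 ^ (e * e) ≤ Fintype.card W := by
  rcases Nat.eq_zero_or_pos e with he | he
  · -- trivial case
    subst he
    refine ⟨∅, Set.empty_disjoint _, fun W _ H _ _ _ _ => ?_⟩
    have : 0 < Fintype.card W := Fintype.card_pos_iff.mpr ⟨H.source⟩
    rw [Nat.zero_mul, pow_zero]
    exact this
  · obtain ⟨q, hqp, hq1, hq2⟩ :=
      Nat.exists_prime_lt_and_le_two_mul (2 ^ (18 * e + 17)) (by positivity)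
    have : Fact q.Prime := ⟨hqp⟩
    have ht1 : 2 ^ (4 * e) - 1 + 1 = 2 ^ (4 * e) := Nat.sub_add_cancel Nat.one_le_two_pow
    have hlq : 2 ^ (4 * e) - 1 + 1 ≤ q := by
      rw [ht1]
      refine le_trans ?_ hq1.le
      exact Nat.pow_le_pow_right (by norm_num) (by omega)
    have hβb : 2 ^ (2 * e + 5) * 2 ^ e ≤ 2 ^ (3 * e + 5) := by
      rw [← pow_add]
      exact Nat.pow_le_pow_right (by norm_num) (by omega)
    have hC := clustersR he hq2
    obtain ⟨hA, hB⟩ := conditionsR hC hM hk hΔ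
    obtain ⟨B, hBM, hmain⟩ := paramR2 (n := n) (d := 4 * e) (t := 2 ^ (4 * e) - 1)
      (b := 2 ^ (3 * e + 5)) (q := q) (ρ := 2 ^ e) (β := 2 ^ (2 * e + 5)) (h := e)
      (m := 2 * e - 1) rfl (by omega) (by omega) (by rw [ht1]) hlq Nat.one_le_two_pow
      (by positivity) hβb hst M hloop (Δ := Δ) (k := k) (by convert hout) (by convert hin) hA hB
    refine ⟨B, hBM, fun W _ H ρ hρ hN hneg => ?_⟩
    by_contra hc
    push Not at hc
    have hW : 24 * (Fintype.card W) ^ 2 ≤ (2 ^ (2 * e + 5)) ^ e := by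
      have h1 : (Fintype.card W) ^ 2 ≤ 2 ^ (e * e * 2) := by
        rw [pow_mul]
        exact Nat.pow_le_pow_left hc.le 2
      calc 24 * (Fintype.card W) ^ 2 ≤ 2 ^ 5 * 2 ^ (e * e * 2) := by
            refine Nat.mul_le_mul (by norm_num) h1
        _ = 2 ^ (5 + e * e * 2) := by rw [← pow_add]
        _ ≤ 2 ^ ((2 * e + 5) * e) := by
            refine Nat.pow_le_pow_right (by norm_num) ?_
            nlinarith
        _ = (2 ^ (2 * e + 5)) ^ e := by rw [pow_mul]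
    have h2 := hmain W H hW hN (hneg.mono le_rfl le_rfl hρ)
    rw [ht1] at h2
    have := states_of_paramR (w := Fintype.card W) (Nat.cast_nonneg _) he hq1 h2
    have h3 : 2 ^ (e * e) ≤ Fintype.card W := by exact_mod_cast this
    omega

theorem limited_lowerR {n : ℕ} {s t : Fin n} (hst : s ≠ t) {M : Set (Fin n × Fin n)} {r k : ℕ}
    (hc : ¬ Coverable M r (k * r)) {e : ℕ} (he : 2 ^ (126 * e + 131) ≤ r) :
    ∃ B : Set (Fin n × Fin n), Disjoint B M ∧ ∀ 𝒢 : Set (Set (Fin n × Fin n)),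
      (∀ G, SparseDag G → G \ M = B → G ∈ 𝒢) → ∀ (m ρ : ℕ) (H : Reduction (Fin n) (Fin m)),
      ρ ≤ 2 ^ e → H.Correct 𝒢 s t → H.Local 𝒢 s t M ρ k → 2 ^ (e * e) ≤ m := by
  obtain ⟨M', h1, h2, h3, h4⟩ := exists_large hc
  have hpos : 0 < max k 1 := by positivity
  have e1 : 2 ^ (126 * e + 130) * max k 1 ≤ M'.card := by
    have : 2 * (2 ^ (126 * e + 130) * max k 1) ≤ max k 1 * r := by
      calc 2 * (2 ^ (126 * e + 130) * max k 1) = max k 1 * 2 ^ (126 * e + 131) := by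
            rw [show 126 * e + 131 = (126 * e + 130) + 1 by rfl, pow_succ]; ring
        _ ≤ max k 1 * r := Nat.mul_le_mul_left _ he
    omega
  have e2 : 2 ^ (50 * e + 60) * k ≤ M'.card := by
    refine le_trans (Nat.mul_le_mul ?_ (le_max_left k 1)) e1
    exact Nat.pow_le_pow_right (by norm_num) (by omega)
  obtain ⟨B, hB, hN⟩ := explicitR e n (max k 1) k hpos s t hst M' (fun e he => (h1 e he).2)
    h2 h3 e1 e2
  refine ⟨B \ M, disjoint_sdiff_self_left, fun 𝒢 h𝒢 m ρ H hρ hcor hloc => ?_⟩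
  have hin : {G | SparseDag G ∧ G \ M' = B} ⊆ 𝒢 := by
    rintro G ⟨hG, hGB⟩
    refine h𝒢 G hG ?_
    rw [← hGB]
    ext e
    simp only [Set.mem_sdiff, mem_coe]
    constructor
    · exact fun h => ⟨⟨h.1, fun h' => h.2 (h1 e h').1⟩, h.2⟩
    · exact fun h => ⟨h.1.1, h.2⟩
  have := hN _ H ρ hρ (hcor.mono hin)
    (hloc.mono hin (fun e he => (h1 e he).1) le_rfl)
  rwa [Fintype.card_fin] at this

/-- both bounds, in logarithmic form -/
theorem tradeoffR {n : ℕ} {s t : Fin n} (hst : s ≠ t) (M : Set (Fin n × Fin n)) (r k : ℕ)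
    (hc : ¬ Coverable M r (k * r)) : ∃ B : Set (Fin n × Fin n), Disjoint B M ∧
      ∀ 𝒢 : Set (Set (Fin n × Fin n)), (∀ G, SparseDag G → G \ M = B → G ∈ 𝒢) →
        (∀ (m ρ : ℕ) (H : Reduction (Fin n) (Fin m)), H.Correct 𝒢 s t → H.Local 𝒢 s t M ρ k →
          Real.logb 2 r ^ 2 ≤ 200000 * (1 + Real.logb 2 m + Real.logb 2 ρ ^ 2)) ∧
        Real.logb 2 (states 𝒢 s t) + Real.logb 2 r ^ 2 ≤
          400000 * (1 + Real.logb 2 (limitedStates 𝒢 s t M k)) := by
  have key : ∃ B : Set (Fin n × Fin n), Disjoint B M ∧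
      ∀ 𝒢 : Set (Set (Fin n × Fin n)), (∀ G, SparseDag G → G \ M = B → G ∈ 𝒢) →
        ∀ (m ρ : ℕ) (H : Reduction (Fin n) (Fin m)), H.Correct 𝒢 s t → H.Local 𝒢 s t M ρ k →
          Real.logb 2 r ^ 2 ≤ 200000 * (1 + Real.logb 2 m + Real.logb 2 ρ ^ 2) := by
    have hm0 : ∀ {m : ℕ} (H : Reduction (Fin n) (Fin m)), 0 ≤ Real.logb 2 (m : ℝ) := by
      intro m H
      refine Real.logb_nonneg (by norm_num) ?_
      exact_mod_cast Fin.pos H.source
    rcases Nat.lt_or_ge r (2 ^ 131) with hr | hr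
    · refine ⟨∅, Set.empty_disjoint _, fun 𝒢 _ m ρ H _ _ => ?_⟩
      have h3 : 0 ≤ Real.logb 2 (r : ℝ) ∧ Real.logb 2 (r : ℝ) ≤ 131 := by
        rcases Nat.eq_zero_or_pos r with h | h
        · subst h; simp
        · refine ⟨Real.logb_nonneg (by norm_num) (by exact_mod_cast h), ?_⟩
          have := logb_le_of_le h hr.le
          rw [logb_cast_pow] at this
          exact_mod_cast this
      nlinarith [h3.1, h3.2, hm0 H, sq_nonneg (Real.logb 2 (ρ : ℝ))]
    · set a := Nat.log 2 r with ha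
      have hr0 : r ≠ 0 := by
        intro h; subst h; norm_num at hr
      have ha131 : 131 ≤ a := Nat.le_log_of_pow_le (by norm_num) hr
      set e := (a - 131) / 126 with he
      have hda : 126 * e + 131 ≤ a := by omega
      have hda' : a + 1 ≤ 126 * e + 257 := by omega
      obtain ⟨B, hB, hlow⟩ := limited_lowerR hst hc (e := e)
        (le_trans (Nat.pow_le_pow_right (by norm_num) hda) (Nat.pow_log_le_self 2 hr0))
      refine ⟨B, hB, fun 𝒢 h𝒢 m ρ H hcor hloc => ?_⟩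
      have h3 : Real.logb 2 (r : ℝ) ≤ 126 * e + 257 := by
        have h4 : Real.logb 2 (r : ℝ) ≤ a + 1 := by
          have := logb_le_of_le (Nat.pos_of_ne_zero hr0)
            (Nat.lt_pow_succ_log_self (by norm_num : 1 < 2) r).le
          rw [logb_cast_pow] at this
          push_cast at this
          exact this
        refine le_trans h4 ?_
        exact_mod_cast hda'
      have h5 : 0 ≤ Real.logb 2 (r : ℝ) :=
        Real.logb_nonneg (by norm_num) (by exact_mod_cast Nat.pos_of_ne_zero hr0)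
      have h6 : (Real.logb 2 (r : ℝ)) ^ 2 ≤ (126 * (e : ℝ) + 257) ^ 2 := by gcongr
      have h7 : (e : ℝ) * e ≤ Real.logb 2 (m : ℝ) + Real.logb 2 ρ ^ 2 := by
        rcases Nat.lt_or_ge (2 ^ e) ρ with h8 | h8
        · have h9 := logb_le_of_le (by positivity) h8.le
          rw [logb_cast_pow] at h9
          have h10 : (0 : ℝ) ≤ e := Nat.cast_nonneg _
          nlinarith [hm0 H]
        · have h9 := logb_le_of_le (by positivity) (hlow 𝒢 h𝒢 m ρ H h8 hcor hloc)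
          rw [logb_cast_pow] at h9
          push_cast at h9
          nlinarith [sq_nonneg (Real.logb 2 (ρ : ℝ))]
      have h11 := hm0 H
      have h12 := sq_nonneg (Real.logb 2 (ρ : ℝ))
      nlinarith [sq_nonneg ((126 : ℝ) * e - 257)]
  obtain ⟨B, hB, hlow⟩ := key
  refine ⟨B, hB, fun 𝒢 h𝒢 => ⟨hlow 𝒢 h𝒢, ?_⟩⟩
  obtain ⟨N, hN1, hN2⟩ := limitedStates_spec 𝒢 s t M k
  have h1 := hlow 𝒢 h𝒢 _ 1 (ofNetwork N) (ofNetwork_correct hN1) (ofNetwork_local hN2)
  have hpos := states_pos 𝒢 s t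
  have h2 := logb_le_of_le hpos (states_le 𝒢 s t M k)
  have h3 : 0 ≤ Real.logb 2 (states 𝒢 s t) :=
    Real.logb_nonneg (by norm_num) (by exact_mod_cast hpos)
  simp only [Nat.cast_one, Real.logb_one] at h1
  nlinarith

end Pool.Agent.Lib.Pe46137
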