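import Pool.Agent.Lib.Pe46137.Pebble
import Pool.Agent.Lib.Pe46137.Fourier

/-!
The low degree dual vector obtained from the reversible pebbling invariant.
-/

namespace Pool.Agent.Lib.Pe46137

open Finset

variable {l : ℕ}

open Classical in
/-- pseudo-expectation of the monomial with support `U` -/
noncomputable def pe (d : ℕ) (U : Finset (Fin l)) : ℝ :=
  if Inv d (U.map Fin.valEmbedding) then 1 else 0

/-- pseudo-expectation of a character -/
noncomputable def peHat (d : ℕ) (U : Finset (Fin l)) : ℝ :=
  ∑ T ∈ U.powerset, (-2) ^ T.card * pe d T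

/-- the dual vector -/
noncomputable def vec (d : ℕ) (y : Fin l → Bool) : ℝ :=
  ∑ U : Finset (Fin l) with U.card ≤ d, peHat d U * chi U y

theorem pe_nonneg (d : ℕ) (U : Finset (Fin l)) : 0 ≤ pe d U := by
  unfold pe; split_ifs <;> norm_num

theorem pe_le_one (d : ℕ) (U : Finset (Fin l)) : pe d U ≤ 1 := by
  unfold pe; split_ifs <;> norm_num

theorem pe_empty (d : ℕ) : pe d (∅ : Finset (Fin l)) = 1 := by
  unfold pe; rw [if_pos]; simpa using Inv_empty d

theorem pe_move {d : ℕ} {U : Finset (Fin l)} {i : Fin l} (hc : (insert i U).card ≤ d)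
    (hi : (i : ℕ) = 0 ∨ ∃ j ∈ U, (j : ℕ) + 1 = i) : pe d (insert i U) = pe d U := by
  unfold pe
  have h1 : (insert i U).map Fin.valEmbedding = insert (i : ℕ) (U.map Fin.valEmbedding) := by
    rw [Finset.map_insert]; rfl
  have h2 : (insert (i : ℕ) (U.map Fin.valEmbedding)).card ≤ d := by
    rw [← h1, card_map]; exact hc
  have := Inv_move h2 (by
    rcases hi with h | ⟨j, hj, hji⟩
    · exact Or.inl h
    · exact Or.inr ⟨(j : ℕ), Finset.mem_map_of_mem Fin.valEmbedding hj, hji⟩)
  rw [h1]
  by_cases hI : Inv d (U.map Fin.valEmbedding)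
  · rw [if_pos hI, if_pos (this.mp hI)]
  · rw [if_neg hI, if_neg (fun h => hI (this.mpr h))]

theorem pe_last {d : ℕ} {U : Finset (Fin l)} {i : Fin l} (hi : i ∈ U) (hl : 2 ^ d ≤ (i : ℕ) + 1) :
    pe d U = 0 := by
  unfold pe
  rw [if_neg]
  intro h
  have := Inv_lt h (i : ℕ) (Finset.mem_map_of_mem Fin.valEmbedding hi)
  omega

theorem avg_vec_chi {d : ℕ} {T : Finset (Fin l)} (hT : T.card ≤ d) :
    avg (fun y => vec d y * chi T y) = peHat d T := by
  have h1 : (fun y => vec d y * chi T y) =
      fun y => ∑ U : Finset (Fin l) with U.card ≤ d, peHat d U * (chi U y * chi T y) := by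
    funext y
    unfold vec
    rw [sum_mul]
    exact sum_congr rfl fun U _ => by ring
  rw [h1, avg_sum]
  simp_rw [avg_const_mul, avg_chi_mul]
  rw [sum_eq_single T]
  · simp
  · intro b _ hb
    simp [hb]
  · intro h
    simp [hT] at h

theorem avg_vec_mono {d : ℕ} {U : Finset (Fin l)} (hU : U.card ≤ d) :
    avg (fun y => vec d y * mono U y) = pe d U := by
  have h1 : (fun y => vec d y * mono U y) =
      fun y => (1 / 2) ^ U.card * ∑ T ∈ U.powerset, (-1) ^ T.card * (vec d y * chi T y) := by
    funext y
    rw [mono_eq_sum_chi]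
    rw [mul_left_comm, mul_sum]
    congr 1
    exact sum_congr rfl fun T _ => by ring
  rw [h1, avg_const_mul, avg_sum]
  have h2 : ∀ T ∈ U.powerset, avg (fun y => (-1) ^ T.card * (vec d y * chi T y)) =
      (-1) ^ T.card * ∑ S ∈ T.powerset, (fun S : Finset (Fin l) => (-2) ^ S.card * pe d S) S := by
    intro T hT
    rw [avg_const_mul, avg_vec_chi (le_trans (card_le_card (mem_powerset.mp hT)) hU)]
    rfl
  rw [sum_congr rfl h2, moebius]
  rw [← mul_assoc, ← mul_assoc, ← mul_pow, ← mul_pow]
  norm_num

theorem abs_peHat_le (d : ℕ) (U : Finset (Fin l)) : |peHat d U| ≤ 3 ^ U.card := by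
  unfold peHat
  refine le_trans (abs_sum_le_sum_abs _ _) ?_
  have h := sum_pow_mul_eq_add_pow (2 : ℝ) 1 U
  norm_num at h
  rw [← h]
  refine sum_le_sum fun T _ => ?_
  rw [abs_mul, abs_pow, abs_neg, abs_of_pos (by norm_num : (0 : ℝ) < 2),
    abs_of_nonneg (pe_nonneg d T)]
  exact mul_le_of_le_one_right (by positivity) (pe_le_one d T)

theorem avg_vec_sq_le (d : ℕ) : avg (fun y : Fin l → Bool => vec d y * vec d y) ≤ (9 * l + 1) ^ d := by
  have h1 : (fun y : Fin l → Bool => vec d y * vec d y) =
      fun y => ∑ U : Finset (Fin l) with U.card ≤ d, peHat d U * (vec d y * chi U y) := by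
    funext y
    conv_lhs => rw [mul_comm]
    conv_lhs => enter [1]; unfold vec
    rw [sum_mul]
    exact sum_congr rfl fun U _ => by ring
  rw [h1, avg_sum]
  have h2 : ∀ U ∈ (univ.filter (fun U : Finset (Fin l) => U.card ≤ d)),
      avg (fun y => peHat d U * (vec d y * chi U y)) ≤ 9 ^ U.card := by
    intro U hU
    rw [avg_const_mul, avg_vec_chi (by simpa using hU)]
    have := abs_peHat_le d U
    have h3 : peHat d U * peHat d U = |peHat d U| ^ 2 := by rw [sq_abs]; ring
    rw [h3]
    calc |peHat d U| ^ 2 ≤ (3 ^ U.card) ^ 2 := by gcongr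
      _ = 9 ^ U.card := by rw [← pow_mul, mul_comm, pow_mul]; norm_num
  refine le_trans (sum_le_sum h2) ?_
  have h3 : ∑ U : Finset (Fin l) with U.card ≤ d, (9 : ℝ) ^ U.card =
      ∑ j ∈ range (d + 1), (l.choose j : ℝ) * 9 ^ j := by
    rw [← sum_fiberwise_of_maps_to (s := univ.filter (fun U : Finset (Fin l) => U.card ≤ d))
      (t := range (d + 1)) (g := fun U => U.card) (by
        intro U hU; simp at hU; simp; omega)]
    refine sum_congr rfl fun j hj => ?_
    rw [sum_congr rfl (g := fun _ => (9 : ℝ) ^ j) (by
      intro U hU; simp at hU; rw [hU.2])]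
    rw [sum_const, nsmul_eq_mul]
    congr 2
    have : (univ.filter (fun U : Finset (Fin l) => U.card ≤ d)).filter (fun U => U.card = j)
        = powersetCard j univ := by
      ext U
      simp only [mem_filter, mem_univ, true_and, mem_powersetCard, subset_univ]
      simp at hj
      constructor
      · exact fun h => h.2
      · intro h; exact ⟨by omega, h⟩
    rw [this, card_powersetCard, card_univ, Fintype.card_fin]
  rw [h3, add_pow]
  refine sum_le_sum fun j hj => ?_
  simp at hj
  have h4 : (l.choose j : ℝ) ≤ l ^ j := by exact_mod_cast Nat.choose_le_pow l j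
  have h5 : (1 : ℝ) ≤ (d.choose j : ℝ) := by
    have : 0 < d.choose j := Nat.choose_pos (by omega)
    exact_mod_cast this
  rw [one_pow, mul_one, mul_pow]
  calc (l.choose j : ℝ) * 9 ^ j ≤ l ^ j * 9 ^ j := by gcongr
    _ = 9 ^ j * l ^ j * 1 := by ring
    _ ≤ 9 ^ j * l ^ j * d.choose j := by gcongr

/-- the cut values along the path, including both ends -/
def ext (y : Fin l → Bool) (i : ℕ) : Bool :=
  if i = 0 then true else if h : i - 1 < l then y ⟨i - 1, h⟩ else false

theorem ext_zero (y : Fin l → Bool) : ext y 0 = true := rfl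

theorem ext_succ (y : Fin l → Bool) {i : ℕ} (h : i < l) : ext y (i + 1) = y ⟨i, h⟩ := by
  unfold ext
  simp [h]

theorem ext_last (y : Fin l → Bool) {i : ℕ} (h : l ≤ i) : ext y (i + 1) = false := by
  unfold ext
  simp; omega

/-- the `i`-th edge of the path leaves the cut -/
def Cross (i : ℕ) (y : Fin l → Bool) : Prop := ext y i = true ∧ ext y (i + 1) = false

instance (i : ℕ) (y : Fin l → Bool) : Decidable (Cross i y) := by unfold Cross; infer_instance

theorem ind_mul_mono (j : Fin l) (T : Finset (Fin l)) (y : Fin l → Bool) :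
    (if y j then (1 : ℝ) else 0) * mono T y = mono (insert j T) y := by
  unfold mono
  by_cases hj : j ∈ T
  · rw [insert_eq_of_mem hj]
    by_cases hy : y j
    · simp [hy]
    · rw [prod_eq_zero hj] <;> simp [hy]
  · rw [prod_insert hj]

/-- the part of the dual vector on the crossing side is invisible to low degree monomials -/
theorem avg_cross {d : ℕ} (hl : 2 ^ d ≤ l) {i : ℕ} (hi : i ≤ l) {T : Finset (Fin l)}
    (hT : T.card + 2 ≤ d) :
    avg (fun y => (if Cross i y then vec d y else 0) * mono T y) = 0 := by
  have hl1 : 1 ≤ l := le_trans Nat.one_le_two_pow hl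
  by_cases h0 : i = 0
  · subst h0
    set j : Fin l := ⟨0, hl1⟩ with hj
    have h1 : (fun y : Fin l → Bool => (if Cross 0 y then vec d y else 0) * mono T y) =
        fun y => vec d y * mono T y - vec d y * mono (insert j T) y := by
      funext y
      rw [← ind_mul_mono]
      have : Cross 0 y ↔ ¬ (y j = true) := by
        unfold Cross
        rw [ext_zero, ext_succ y hl1]
        simp [hj]
      by_cases hy : y j = true
      · rw [if_neg (by rw [this]; simpa using hy)]; simp [hy]
      · rw [if_pos (by rw [this]; exact hy)]; simp [hy]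
    have hc : (insert j T).card ≤ d := le_trans (card_insert_le _ _) (by omega)
    rw [h1, avg_sub, avg_vec_mono (by omega), avg_vec_mono hc, pe_move hc (Or.inl rfl), sub_self]
  · by_cases hil : i = l
    · set j : Fin l := ⟨i - 1, by omega⟩ with hj
      have h1 : (fun y : Fin l → Bool => (if Cross i y then vec d y else 0) * mono T y) =
          fun y => vec d y * mono (insert j T) y := by
        funext y
        rw [← ind_mul_mono]
        have : Cross i y ↔ (y j = true) := by
          unfold Cross
          obtain ⟨i', rfl⟩ : ∃ i', i = i' + 1 := ⟨i - 1, by omega⟩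
          rw [ext_succ y (show i' < l by omega), ext_last y (show l ≤ i' + 1 by omega)]
          simp [hj]
        by_cases hy : y j = true
        · rw [if_pos (by rw [this]; exact hy)]; simp [hy]
        · rw [if_neg (by rw [this]; exact hy)]; simp [hy]
      have hc : (insert j T).card ≤ d := le_trans (card_insert_le _ _) (by omega)
      rw [h1, avg_vec_mono hc, pe_last (mem_insert_self _ _) (by simp [hj]; omega)]
    · have hil' : i < l := by omega
      set j : Fin l := ⟨i - 1, by omega⟩ with hj
      set k : Fin l := ⟨i, hil'⟩ with hk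
      have h1 : (fun y : Fin l → Bool => (if Cross i y then vec d y else 0) * mono T y) =
          fun y => vec d y * mono (insert j T) y - vec d y * mono (insert k (insert j T)) y := by
        funext y
        rw [← ind_mul_mono k, ← ind_mul_mono j]
        have : Cross i y ↔ (y j = true ∧ ¬ (y k = true)) := by
          unfold Cross
          obtain ⟨i', rfl⟩ : ∃ i', i = i' + 1 := ⟨i - 1, by omega⟩
          rw [ext_succ y (show i' < l by omega), ext_succ y hil']
          simp [hj, hk]
        by_cases hy : y j = true <;> by_cases hz : y k = true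
        · rw [if_neg (by rw [this]; simp [hz])]; simp [hy, hz]
        · rw [if_pos (by rw [this]; exact ⟨hy, hz⟩)]; simp [hy, hz]
        · rw [if_neg (by rw [this]; simp [hy])]; simp [hy, hz]
        · rw [if_neg (by rw [this]; simp [hy])]; simp [hy, hz]
      have hc1 : (insert j T).card ≤ T.card + 1 := card_insert_le _ _
      have hc2 : (insert k (insert j T)).card ≤ (insert j T).card + 1 := card_insert_le _ _
      rw [h1, avg_sub, avg_vec_mono (by omega), avg_vec_mono (by omega),
        pe_move (by omega) (Or.inr ⟨j, mem_insert_self _ _, by simp [hj, hk]; omega⟩), sub_self]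

/-- the test function of the `i`-th edge -/
noncomputable def gfun (d i : ℕ) (y : Fin l → Bool) : ℝ := if Cross i y then 0 else vec d y

theorem gfun_eq (d i : ℕ) (y : Fin l → Bool) :
    gfun d i y = vec d y - (if Cross i y then vec d y else 0) := by
  unfold gfun; split_ifs <;> simp

theorem avg_gfun {d : ℕ} (hd : 2 ≤ d) (hl : 2 ^ d ≤ l) {i : ℕ} (hi : i ≤ l) :
    avg (gfun (l := l) d i) = 1 := by
  have h1 : (gfun d i : (Fin l → Bool) → ℝ) =
      fun y => vec d y * mono ∅ y - (if Cross i y then vec d y else 0) * mono ∅ y := by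
    funext y
    rw [gfun_eq]
    simp [mono]
  rw [h1, avg_sub, avg_vec_mono (by simp), avg_cross hl hi (by simpa using hd), pe_empty, sub_zero]

theorem coef_gfun_sub {d : ℕ} (hl : 2 ^ d ≤ l) {i j : ℕ} (hi : i ≤ l) (hj : j ≤ l)
    {S : Finset (Fin l)} (hS : S.card + 2 ≤ d) :
    coef (fun y => gfun d i y - gfun d j y) S = 0 := by
  refine coef_eq_zero_of_mono (m := d - 2) (fun T hT => ?_) (by omega)
  have h1 : (fun y : Fin l → Bool => (gfun d i y - gfun d j y) * mono T y) =
      fun y => (if Cross j y then vec d y else 0) * mono T y -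
        (if Cross i y then vec d y else 0) * mono T y := by
    funext y
    rw [gfun_eq, gfun_eq]
    ring
  rw [h1, avg_sub, avg_cross hl hi (by omega), avg_cross hl hj (by omega), sub_self]

theorem avg_gfun_sub_sq (d i j : ℕ) :
    avg (fun y : Fin l → Bool => (gfun d i y - gfun d j y) * (gfun d i y - gfun d j y)) ≤
      (9 * l + 1) ^ d := by
  refine le_trans (avg_mono fun y => ?_) (avg_vec_sq_le d)
  unfold gfun
  split_ifs <;> simp <;> nlinarith [sq_nonneg (vec d y)]

end Pool.Agent.Lib.Pe46137
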