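import Pool.Agent.Lib.Pe46137.Defs

/-!
Switching networks that avoid the negations of a set of arcs, and their least number of states.
-/

namespace Pool.Agent.Lib.Pe46137

/-- no contact of the network is labelled by the negation of a variable in `M` -/
def SwitchingNetwork.Avoids {E W : Type*} (N : SwitchingNetwork E W) (M : Set E) : Prop :=
  ∀ e ∈ M, ∀ v w, ¬ N.neg e v w

/-- the network decides reachability from `s` to `t` on the digraphs in `𝒢` -/
def SwitchingNetwork.DecidesOn {V W : Type*} (N : SwitchingNetwork (V × V) W)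
    (𝒢 : Set (Set (V × V))) (s t : V) : Prop :=
  ∀ G ∈ 𝒢, (N.Connects G Gᶜ ↔ Reachable G s t)

/-- a class of digraphs that is closed under deletion of arcs and under renaming of vertices -/
structure Hereditary {V : Type*} (𝒢 : Set (Set (V × V))) : Prop where
  delete : ∀ G ∈ 𝒢, ∀ H ⊆ G, H ∈ 𝒢
  rename : ∀ G ∈ 𝒢, ∀ π : Equiv.Perm V, {e | (π e.1, π e.2) ∈ G} ∈ 𝒢

/-- the smallest number of states of a switching network that decides reachability from `s` to `t`
on the digraphs in `𝒢` and has no contact labelled by the negation of a variable in `M` -/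
noncomputable def cost {V : Type} (𝒢 : Set (Set (V × V))) (s t : V) (M : Set (V × V)) : ℕ :=
  sInf {m | ∃ N : SwitchingNetwork (V × V) (Fin m), N.DecidesOn 𝒢 s t ∧ N.Avoids M}

/-- `P` is a set of arcs of `M`, none of them a loop, with distinct tails and distinct heads -/
structure Matching {V : Type} (M : Set (V × V)) (P : Finset (V × V)) : Prop where
  sub : ∀ e ∈ P, e ∈ M
  loopless : ∀ e ∈ P, e.1 ≠ e.2
  tails : ∀ e ∈ P, ∀ e' ∈ P, e.1 = e'.1 → e = e'
  heads : ∀ e ∈ P, ∀ e' ∈ P, e.2 = e'.2 → e = e'

/-- the largest size of a matching in `M` -/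
noncomputable def nu {V : Type} (M : Set (V × V)) : ℕ :=
  sSup {r | ∃ P : Finset (V × V), Matching M P ∧ P.card = r}

end Pool.Agent.Lib.Pe46137
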